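import Pool.Agent.L5helper11.PD.Basic
import Pool.Agent.Helper112.Arith

/-!
# Integers with prescribed decimal digits: the exponential sum
-/

set_option autoImplicit false

namespace Pool.Agent.L5helper11.MD

open Finset Pool.Agent.Helper112
open Pool.Agent.L5helper11.PD (dn dn_nonneg dn_le_half dn_le dn_add_int dn_mul_le dn_mul_eq norm_one_add_ee)

/-! ### one free digit -/

/-- the normalized exponential sum over one free digit -/
noncomputable def g (x : ℝ) : ℝ := ‖lsD 10 x‖ / 10

lemma g_nonneg (x : ℝ) : 0 ≤ g x := by unfold g; positivity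

lemma norm_lsD_le (M : ℕ) (x : ℝ) : ‖lsD M x‖ ≤ M := by
  unfold lsD
  calc ‖∑ j ∈ range M, ee (j * x)‖ ≤ ∑ j ∈ range M, ‖ee (j * x)‖ := norm_sum_le _ _
    _ = M := by simp [ls_norm_ee]

lemma g_le_one (x : ℝ) : g x ≤ 1 := by
  unfold g
  have := norm_lsD_le 10 x
  push_cast at this
  linarith

lemma g_add_int (x : ℝ) (k : ℤ) : g (x + k) = g x := by
  unfold g
  rw [lsD_add_int]

lemma g_le (x : ℝ) : g x ≤ 1 - 2 * dn x ^ 2 := by
  have h1 : lsD 10 x = (1 + ee x) * (1 + ee x ^ 2 + ee x ^ 4 + ee x ^ 6 + ee x ^ 8) := by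
    unfold lsD
    simp only [sum_range_succ, sum_range_zero]
    have h : ∀ n : ℕ, ee ((n : ℝ) * x) = ee x ^ n := fun n => ls_ee_nat_mul n x
    simp only [h]
    ring
  have h2 : ‖(1 + ee x ^ 2 + ee x ^ 4 + ee x ^ 6 + ee x ^ 8 : ℂ)‖ ≤ 5 := by
    have hn : ∀ n : ℕ, ‖ee x ^ n‖ = 1 := fun n => by rw [norm_pow, ls_norm_ee, one_pow]
    have a1 := norm_add_le (1 + ee x ^ 2 + ee x ^ 4 + ee x ^ 6) (ee x ^ 8)
    have a2 := norm_add_le (1 + ee x ^ 2 + ee x ^ 4) (ee x ^ 6)
    have a3 := norm_add_le (1 + ee x ^ 2) (ee x ^ 4)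
    have a4 := norm_add_le (1 : ℂ) (ee x ^ 2)
    rw [hn] at a1 a2 a3 a4
    rw [norm_one] at a4
    linarith
  have h3 := norm_one_add_ee x
  unfold g
  rw [h1, norm_mul, div_le_iff₀ (by norm_num)]
  have h4 : ‖1 + ee x‖ * ‖(1 + ee x ^ 2 + ee x ^ 4 + ee x ^ 6 + ee x ^ 8 : ℂ)‖ ≤ (2 - 4 * dn x ^ 2) * 5 :=
    mul_le_mul h3 h2 (norm_nonneg _) ((norm_nonneg _).trans h3)
  linarith

/-! ### the product -/

open Classical in
/-- the product of the normalized exponential sums over the free places below `N` -/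
noncomputable def phi (N : ℕ) (P : ℕ → Prop) (x : ℝ) : ℝ :=
  ∏ i ∈ range N, if P i then 1 else g (10 ^ i * x)

open Classical in
/-- the number of the prescribed places -/
noncomputable def np (N : ℕ) (P : ℕ → Prop) : ℕ := ((range N).filter fun i => P i).card

open Classical in
/-- the number of the free places -/
noncomputable def fr (N : ℕ) (P : ℕ → Prop) : ℕ := ((range N).filter fun i => ¬ P i).card

open Classical in
lemma np_add_fr (N : ℕ) (P : ℕ → Prop) : np N P + fr N P = N := by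
  unfold np fr
  rw [card_filter_add_card_filter_not, card_range]

open Classical in
lemma np_succ (N : ℕ) (P : ℕ → Prop) : np (N + 1) P = np N P + if P N then 1 else 0 := by
  unfold np
  rw [range_add_one, filter_insert]
  split_ifs with h
  · rw [card_insert_of_notMem (by simp)]
  · rfl

open Classical in
lemma fr_succ (N : ℕ) (P : ℕ → Prop) : fr (N + 1) P = fr N P + if P N then 0 else 1 := by
  unfold fr
  rw [range_add_one, filter_insert]
  split_ifs with h
  · rfl
  · rw [card_insert_of_notMem (by simp)]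

lemma phi_succ (N : ℕ) (P : ℕ → Prop) (x : ℝ) [Decidable (P N)] :
    phi (N + 1) P x = phi N P x * if P N then 1 else g (10 ^ N * x) := by
  unfold phi
  rw [prod_range_succ]
  congr 1
  split_ifs <;> rfl

lemma phi_add (u v : ℕ) (P : ℕ → Prop) (x : ℝ) :
    phi (u + v) P x = phi u P x * phi v (fun i => P (u + i)) (10 ^ u * x) := by
  unfold phi
  rw [prod_range_add]
  congr 1
  apply prod_congr rfl
  intro i _
  split_ifs with h
  · rfl
  · congr 1
    rw [pow_add]
    ring

lemma np_add (u v : ℕ) (P : ℕ → Prop) : np (u + v) P = np u P + np v (fun i => P (u + i)) := by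
  induction v with
  | zero => simp [np]
  | succ v ih =>
    rw [← add_assoc, np_succ, ih, np_succ]
    ring

lemma fr_add (u v : ℕ) (P : ℕ → Prop) : fr (u + v) P = fr u P + fr v (fun i => P (u + i)) := by
  induction v with
  | zero => simp [fr]
  | succ v ih =>
    rw [← add_assoc, fr_succ, ih, fr_succ]
    ring

lemma phi_nonneg (N : ℕ) (P : ℕ → Prop) (x : ℝ) : 0 ≤ phi N P x := by
  unfold phi
  apply prod_nonneg
  intro i _
  split_ifs
  · norm_num
  · exact g_nonneg _

lemma phi_le_one (N : ℕ) (P : ℕ → Prop) (x : ℝ) : phi N P x ≤ 1 := by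
  unfold phi
  apply prod_le_one
  · intro i _
    split_ifs
    · norm_num
    · exact g_nonneg _
  · intro i _
    split_ifs
    · norm_num
    · exact g_le_one _

lemma phi_add_int (N : ℕ) (P : ℕ → Prop) (x : ℝ) (k : ℤ) : phi N P (x + k) = phi N P x := by
  unfold phi
  apply prod_congr rfl
  intro i _
  split_ifs with h
  · rfl
  · have : (10 : ℝ) ^ i * (x + k) = 10 ^ i * x + ((10 ^ i * k : ℤ) : ℝ) := by push_cast; ring
    rw [this, g_add_int]

lemma phi_fract (N : ℕ) (P : ℕ → Prop) (x : ℝ) : phi N P (Int.fract x) = phi N P x := by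
  have h := phi_add_int N P (Int.fract x) ⌊x⌋
  rw [Int.fract_add_floor] at h
  exact h.symm

/-- passing to a window -/
lemma phi_le_window (N u k : ℕ) (P : ℕ → Prop) (x : ℝ) (h : u + k ≤ N) :
    phi N P x ≤ phi k (fun i => P (u + i)) (10 ^ u * x) := by
  obtain ⟨w, rfl⟩ := Nat.exists_eq_add_of_le h
  rw [phi_add, phi_add]
  have h1 := phi_le_one u P x
  have h2 := phi_nonneg u P x
  have h3 := phi_le_one w (fun i => P (u + k + i)) (10 ^ (u + k) * x)
  have h4 := phi_nonneg w (fun i => P (u + k + i)) (10 ^ (u + k) * x)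
  have h5 := phi_nonneg k (fun i => P (u + i)) (10 ^ u * x)
  calc phi u P x * phi k (fun i => P (u + i)) (10 ^ u * x) * phi w (fun i => P (u + k + i)) (10 ^ (u + k) * x) ≤
      1 * phi k (fun i => P (u + i)) (10 ^ u * x) * 1 := by gcongr
    _ = _ := by ring

/-! ### the integers with prescribed digits -/

open Classical in
/-- the integers `n < 10 ^ N` whose decimal digit at the place `i` is `e i` for all places `i < N` in `P` -/
noncomputable def Cs (N : ℕ) (P : ℕ → Prop) (e : ℕ → ℕ) : Finset ℕ :=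
  (range (10 ^ N)).filter fun n => ∀ i < N, P i → n / 10 ^ i % 10 = e i

open Classical in
/-- the digits which are possible at the place `i` -/
noncomputable def Dg (P : ℕ → Prop) (e : ℕ → ℕ) (i : ℕ) : Finset ℕ := if P i then {e i} else range 10

lemma digit_low {N i : ℕ} (h : i < N) (a n : ℕ) : (n + 10 ^ N * a) / 10 ^ i % 10 = n / 10 ^ i % 10 := by
  obtain ⟨m, rfl⟩ := Nat.exists_eq_add_of_lt h
  have e : 10 ^ (i + m + 1) * a = 10 ^ i * (10 * (10 ^ m * a)) := by ring
  rw [e, Nat.add_mul_div_left _ _ (by positivity), Nat.add_mul_mod_self_left]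

lemma digit_top {N a n : ℕ} (hn : n < 10 ^ N) (ha : a < 10) : (n + 10 ^ N * a) / 10 ^ N % 10 = a := by
  rw [Nat.add_mul_div_left _ _ (by positivity), Nat.div_eq_of_lt hn, zero_add, Nat.mod_eq_of_lt ha]

lemma sum_Cs_succ {M : Type*} [AddCommMonoid M] (N : ℕ) (P : ℕ → Prop) (e : ℕ → ℕ) (he : ∀ i, e i < 10)
    (f : ℕ → M) : ∑ n ∈ Cs (N + 1) P e, f n = ∑ x ∈ Cs N P e ×ˢ Dg P e N, f (x.1 + 10 ^ N * x.2) := by
  classical
  have hD : ∀ a ∈ Dg P e N, a < 10 := by
    intro a ha
    unfold Dg at ha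
    split_ifs at ha
    · rw [mem_singleton] at ha
      rw [ha]
      exact he N
    · exact mem_range.1 ha
  symm
  refine sum_nbij' (fun x => x.1 + 10 ^ N * x.2) (fun n => (n % 10 ^ N, n / 10 ^ N)) ?_ ?_ ?_ ?_ ?_
  · rintro ⟨n, a⟩ hx
    rw [mem_product] at hx
    obtain ⟨h1, h2⟩ := hx
    simp only at h1 h2 ⊢
    have h3 := hD a h2
    unfold Cs at h1 ⊢
    rw [mem_filter, mem_range] at h1 ⊢
    constructor
    · have : 10 ^ N * a ≤ 10 ^ N * 9 := Nat.mul_le_mul_left _ (by omega)
      rw [pow_succ]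
      omega
    · intro i hi hPi
      rcases Nat.lt_succ_iff_lt_or_eq.1 hi with h4 | h4
      · rw [digit_low h4]
        exact h1.2 i h4 hPi
      · subst h4
        rw [digit_top h1.1 h3]
        unfold Dg at h2
        rw [if_pos hPi, mem_singleton] at h2
        exact h2
  · intro n hn
    unfold Cs at hn
    rw [mem_filter, mem_range] at hn
    rw [mem_product]
    simp only
    have hpos : 0 < 10 ^ N := by positivity
    have hdm : n % 10 ^ N + 10 ^ N * (n / 10 ^ N) = n := Nat.mod_add_div n _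
    have hq : n / 10 ^ N < 10 := by
      rw [Nat.div_lt_iff_lt_mul hpos, mul_comm]
      rw [pow_succ] at hn
      exact hn.1
    constructor
    · unfold Cs
      rw [mem_filter, mem_range]
      refine ⟨Nat.mod_lt _ hpos, fun i hi hPi => ?_⟩
      rw [← hn.2 i (by omega) hPi]
      conv_rhs => rw [← hdm]
      rw [digit_low hi]
    · unfold Dg
      split_ifs with h
      · rw [mem_singleton, ← hn.2 N (by omega) h]
        rw [Nat.mod_eq_of_lt hq]
      · exact mem_range.2 hq
  · rintro ⟨n, a⟩ hx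
    rw [mem_product] at hx
    simp only at hx
    have h1 := hx.1
    unfold Cs at h1
    rw [mem_filter, mem_range] at h1
    simp only [Prod.mk.injEq]
    constructor
    · rw [Nat.add_mul_mod_self_left, Nat.mod_eq_of_lt h1.1]
    · rw [Nat.add_mul_div_left _ _ (by positivity), Nat.div_eq_of_lt h1.1, zero_add]
  · intro n _
    exact Nat.mod_add_div n _
  · intro x _
    rfl

/-- the exponential sum over the integers with prescribed digits -/
theorem norm_expsum (N : ℕ) (P : ℕ → Prop) (e : ℕ → ℕ) (he : ∀ i, e i < 10) (x : ℝ) :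
    ‖∑ n ∈ Cs N P e, ee ((n : ℝ) * x)‖ = 10 ^ fr N P * phi N P x := by
  classical
  induction N with
  | zero =>
    have h : Cs 0 P e = {0} := by
      unfold Cs
      ext n
      simp
    rw [h]
    simp [phi, fr, ls_ee_zero]
  | succ N ih =>
    rw [sum_Cs_succ N P e he, sum_product]
    have h1 : ∀ n ∈ Cs N P e, ∑ a ∈ Dg P e N, ee (((n + 10 ^ N * a : ℕ) : ℝ) * x) =
        ee ((n : ℝ) * x) * ∑ a ∈ Dg P e N, ee ((a : ℝ) * (10 ^ N * x)) := by
      intro n _
      rw [mul_sum]
      apply sum_congr rfl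
      intro a _
      rw [← ls_ee_add]
      congr 1
      push_cast
      ring
    rw [sum_congr rfl h1, ← sum_mul, norm_mul, ih, phi_succ, fr_succ]
    unfold Dg
    split_ifs with h
    · rw [sum_singleton, ls_norm_ee]
      ring
    · have h2 : ‖∑ a ∈ range 10, ee ((a : ℝ) * (10 ^ N * x))‖ = 10 * g (10 ^ N * x) := by
        unfold g lsD
        ring
      rw [h2, pow_succ]
      ring

lemma card_Cs (N : ℕ) (P : ℕ → Prop) (e : ℕ → ℕ) (he : ∀ i, e i < 10) : (Cs N P e).card = 10 ^ fr N P := by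
  have h := norm_expsum N P e he 0
  have h1 : ∑ n ∈ Cs N P e, ee ((n : ℝ) * 0) = ((Cs N P e).card : ℂ) := by
    simp [ls_ee_zero]
  have h2 : phi N P 0 = 1 := by
    unfold phi
    apply prod_eq_one
    intro i _
    split_ifs
    · rfl
    · unfold g
      rw [mul_zero, lsD_zero]
      norm_num
  rw [h1, h2, mul_one] at h
  rw [Complex.norm_natCast] at h
  exact_mod_cast h

/-! ### a run of free places -/

lemma phi_run (m : ℕ) (P : ℕ → Prop) (hP : ∀ i < m, ¬ P i) (x : ℝ) : phi m P x = ‖lsD (10 ^ m) x‖ / 10 ^ m := by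
  classical
  have he : ∀ i, (fun _ : ℕ => 0) i < 10 := fun _ => by norm_num
  have h := norm_expsum m P (fun _ => 0) he x
  have h1 : Cs m P (fun _ => 0) = range (10 ^ m) := by
    unfold Cs
    apply filter_true_of_mem
    intro n _ i hi hPi
    exact absurd hPi (hP i hi)
  have h2 : fr m P = m := by
    unfold fr
    rw [filter_true_of_mem, card_range]
    intro i hi
    exact hP i (mem_range.1 hi)
  rw [h1, h2] at h
  unfold lsD
  rw [h]
  field_simp

/-- the majorant of a run of `m` free places -/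
noncomputable def kap (m c : ℕ) : ℝ :=
  if c = 0 ∨ 10 ^ m ≤ c + 1 then 1 else (1 / (c : ℝ) + 1 / ((10 : ℝ) ^ m - 1 - c)) / 2

lemma kap_nonneg (m c : ℕ) : 0 ≤ kap m c := by
  unfold kap
  split_ifs with h
  · norm_num
  · push Not at h
    have h1 : ((c + 1 : ℕ) : ℝ) < ((10 ^ m : ℕ) : ℝ) := by exact_mod_cast h.2
    push_cast at h1
    have h2 : 0 < (10 : ℝ) ^ m - 1 - c := by linarith
    positivity

lemma lsD_le (M : ℕ) (t : ℝ) (h0 : 0 < t) (h1 : t < 1) : ‖lsD M t‖ ≤ (1 / t + 1 / (1 - t)) / 2 := by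
  have hb := lsD_bound_sin M t h0 h1
  have hn : 0 ≤ ‖lsD M t‖ := norm_nonneg _
  have hpos : 0 < Real.pi := Real.pi_pos
  have ht : 0 < 1 - t := by linarith
  have p1 : 0 < 1 / t := by positivity
  have p2 : 0 < 1 / (1 - t) := by positivity
  rcases le_total t (1 / 2) with h | h
  · have hs : 2 * t ≤ Real.sin (Real.pi * t) := by
      have := Real.mul_le_sin (x := Real.pi * t) (by positivity) (by nlinarith)
      have e : 2 / Real.pi * (Real.pi * t) = 2 * t := by field_simp
      linarith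
    have h3 : ‖lsD M t‖ * (2 * t) ≤ 1 := le_trans (mul_le_mul_of_nonneg_left hs hn) hb
    have h4 : ‖lsD M t‖ ≤ (1 / t) / 2 := by
      rw [div_div, le_div_iff₀ (by positivity)]
      linarith
    linarith
  · have hs : 2 * (1 - t) ≤ Real.sin (Real.pi * t) := by
      have := Real.mul_le_sin (x := Real.pi * (1 - t)) (mul_nonneg hpos.le (by linarith)) (by nlinarith)
      have e : 2 / Real.pi * (Real.pi * (1 - t)) = 2 * (1 - t) := by field_simp
      have e2 : Real.sin (Real.pi * (1 - t)) = Real.sin (Real.pi * t) := by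
        rw [show Real.pi * (1 - t) = Real.pi - Real.pi * t by ring, Real.sin_pi_sub]
      linarith
    have h3 : ‖lsD M t‖ * (2 * (1 - t)) ≤ 1 := le_trans (mul_le_mul_of_nonneg_left hs hn) hb
    have h4 : ‖lsD M t‖ ≤ (1 / (1 - t)) / 2 := by
      rw [div_div, le_div_iff₀ (by positivity)]
      linarith
    linarith

lemma phi_run_le (m : ℕ) (P : ℕ → Prop) (hP : ∀ i < m, ¬ P i) (x : ℝ) (h0 : 0 ≤ x) (h1 : x < 1) :
    phi m P x ≤ kap m ⌊(10 : ℝ) ^ m * x⌋₊ := by
  unfold kap
  split_ifs with h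
  · exact phi_le_one _ _ _
  · push Not at h
    set c := ⌊(10 : ℝ) ^ m * x⌋₊ with hc
    have hM : (0 : ℝ) < (10 : ℝ) ^ m := by positivity
    have hx0 : 0 ≤ (10 : ℝ) ^ m * x := by positivity
    have c1 : (c : ℝ) ≤ 10 ^ m * x := Nat.floor_le hx0
    have c2 : (10 : ℝ) ^ m * x < c + 1 := Nat.lt_floor_add_one _
    have c0 : (0 : ℝ) < c := by exact_mod_cast Nat.pos_of_ne_zero h.1
    have h2 : ((c + 1 : ℕ) : ℝ) < ((10 ^ m : ℕ) : ℝ) := by exact_mod_cast h.2
    push_cast at h2
    have hxp : 0 < x := by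
      rcases h0.lt_or_eq with h3 | h3
      · exact h3
      · rw [← h3, mul_zero] at c1
        linarith
    rw [phi_run m P hP, div_le_iff₀ hM]
    refine (lsD_le _ x hxp h1).trans ?_
    have e1 : 1 / x ≤ 1 / (c : ℝ) * 10 ^ m := by
      rw [one_div_mul_eq_div, div_le_div_iff₀ hxp c0]
      linarith
    have e2 : 1 / (1 - x) ≤ 1 / ((10 : ℝ) ^ m - 1 - c) * 10 ^ m := by
      rw [one_div_mul_eq_div, div_le_div_iff₀ (by linarith) (by linarith)]
      linarith
    linarith

lemma sum_kap (m : ℕ) : ∑ c ∈ range (10 ^ m), kap m c ≤ 3 + m * Real.log 10 := by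
  rcases Nat.eq_zero_or_pos m with rfl | hm
  · simp [kap]
  · obtain ⟨M, hM⟩ : ∃ M : ℕ, 10 ^ m = M + 2 := ⟨10 ^ m - 2, by
      have : 10 ^ 1 ≤ 10 ^ m := Nat.pow_le_pow_right (by norm_num) hm
      omega⟩
    have hMr : (10 : ℝ) ^ m = M + 2 := by exact_mod_cast hM
    rw [hM]
    have h1 : range (M + 2) = insert 0 (insert (M + 1) (Ico 1 (M + 1))) := by
      ext c
      simp only [mem_range, mem_insert, mem_Ico]
      omega
    rw [h1, sum_insert (by simp), sum_insert (by simp)]
    have k0 : kap m 0 = 1 := by simp [kap]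
    have k1 : kap m (M + 1) = 1 := by
      unfold kap
      rw [if_pos (Or.inr (by omega))]
    have k2 : ∀ c ∈ Ico 1 (M + 1), kap m c = 1 / 2 * (1 / (c : ℝ)) + 1 / 2 * (1 / (((M + 1 - c : ℕ)) : ℝ)) := by
      intro c hc
      rw [mem_Ico] at hc
      unfold kap
      rw [if_neg (by omega), hMr, Nat.cast_sub (by omega)]
      push_cast
      ring
    rw [k0, k1, sum_congr rfl k2, sum_add_distrib, ← mul_sum, ← mul_sum]
    have h2 : ∑ c ∈ Ico 1 (M + 1), 1 / (((M + 1 - c : ℕ)) : ℝ) = ∑ c ∈ Ico 1 (M + 1), 1 / (c : ℝ) := by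
      have := Finset.sum_Ico_reflect (fun j : ℕ => 1 / (j : ℝ)) 1 (m := M + 1) (n := M + 1) (by omega)
      rw [this]
      congr 1
      congr 1
      omega
    rw [h2]
    have h3 : ∑ c ∈ Ico 1 (M + 1), 1 / (c : ℝ) ≤ 1 + Real.log (10 ^ m) := by
      have h4 := harm_le (10 ^ m) (Nat.one_le_pow _ _ (by norm_num))
      push_cast at h4
      refine le_trans ?_ h4
      apply sum_le_sum_of_subset_of_nonneg
      · intro c hc
        rw [mem_Ico] at hc
        rw [mem_Icc]
        omega
      · intro c _ _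
        positivity
    rw [Real.log_pow] at h3
    linarith

end Pool.Agent.L5helper11.MD
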