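import Pool.Agent.L5helper11.MD.Small
import Pool.Agent.Y882.KW.Num

/-!
# The sums over the dyadic blocks
-/

set_option autoImplicit false

namespace Pool.Agent.L5helper11.MD

open Finset Pool.Agent.Helper112 Filter

lemma log_ten_le : Real.log 10 ≤ 2.3027 := by
  have h2 := Real.log_two_lt_d9
  have h5 := Pool.Agent.Y882.KW.log5.2
  have e : Real.log 10 = Real.log 2 + Real.log 5 := by
    rw [← Real.log_mul (by norm_num) (by norm_num)]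
    norm_num
  rw [e]
  linarith

lemma numA (m : ℕ) : 3 + m * Real.log 10 ≤ (58 / 5 : ℝ) * (217 / 200) ^ m := by
  have hl := log_ten_le
  have h0 : 3 + m * Real.log 10 ≤ 3 + m * 2.3027 := by
    have := mul_le_mul_of_nonneg_left hl (Nat.cast_nonneg (α := ℝ) m)
    linarith
  refine h0.trans ?_
  by_cases hm : m ≤ 11
  · interval_cases m <;> norm_num
  · push Not at hm
    have key : ∀ n : ℕ, 11 ≤ n → (3 : ℝ) + n * 2.3027 ≤ (58 / 5 : ℝ) * (217 / 200) ^ n := by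
      intro n hn
      induction n, hn using Nat.le_induction with
      | base => norm_num
      | succ n hn ih =>
        rw [pow_succ]
        push_cast
        have hn' : (11 : ℝ) ≤ n := by exact_mod_cast hn
        nlinarith
    exact key m hm.le

lemma num_a : (116 : ℝ) ≤ (10 : ℝ) ^ (69 / 34 : ℝ) * (217 / 200) := by
  have h : (23200 / 217 : ℝ) ≤ (10 : ℝ) ^ (69 / 34 : ℝ) := by
    by_contra hcon
    push Not at hcon
    have h1 := pow_lt_pow_left₀ hcon (by positivity) (show (34 : ℕ) ≠ 0 by norm_num)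
    rw [← Real.rpow_natCast ((10 : ℝ) ^ (69 / 34 : ℝ)) 34, ← Real.rpow_mul (by norm_num)] at h1
    have e : (69 / 34 : ℝ) * ((34 : ℕ) : ℝ) = ((69 : ℕ) : ℝ) := by norm_num
    rw [e, Real.rpow_natCast] at h1
    norm_num at h1
  have := mul_le_mul_of_nonneg_right h (show (0 : ℝ) ≤ 217 / 200 by norm_num)
  norm_num at this ⊢
  linarith

lemma num_b : (217 / 200 : ℝ) ≤ (10 : ℝ) ^ (5 / 141 : ℝ) := by
  by_contra hcon
  push Not at hcon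
  have h1 := pow_lt_pow_left₀ hcon (by positivity) (show (141 : ℕ) ≠ 0 by norm_num)
  rw [← Real.rpow_natCast ((10 : ℝ) ^ (5 / 141 : ℝ)) 141, ← Real.rpow_mul (by norm_num)] at h1
  have e : (5 / 141 : ℝ) * ((141 : ℕ) : ℝ) = ((5 : ℕ) : ℝ) := by norm_num
  rw [e, Real.rpow_natCast] at h1
  norm_num at h1

lemma num_c (n k : ℕ) (h : n ≤ k) : (10 * (58 / 5) : ℝ) ^ n * (58 / 5) * (217 / 200) ^ (k - n) ≤
    12 * (10 : ℝ) ^ ((69 / 34 : ℝ) * n + 5 / 141 * k) := by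
  obtain ⟨m, rfl⟩ := Nat.exists_eq_add_of_le h
  have h1 := num_a
  have h2 := num_b
  have e1 : (10 : ℝ) ^ ((69 / 34 : ℝ) * n + 5 / 141 * ((n + m : ℕ) : ℝ)) =
      ((10 : ℝ) ^ (69 / 34 : ℝ) * (10 : ℝ) ^ (5 / 141 : ℝ)) ^ n * ((10 : ℝ) ^ (5 / 141 : ℝ)) ^ m := by
    rw [← Real.rpow_natCast, ← Real.rpow_natCast ((10 : ℝ) ^ (5 / 141 : ℝ)) m, ← Real.rpow_add (by norm_num),
      ← Real.rpow_mul (by norm_num), ← Real.rpow_mul (by norm_num), ← Real.rpow_add (by norm_num)]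
    congr 1
    push_cast
    ring
  rw [e1, Nat.add_sub_cancel_left]
  have h3 : (10 * (58 / 5) : ℝ) ≤ (10 : ℝ) ^ (69 / 34 : ℝ) * (10 : ℝ) ^ (5 / 141 : ℝ) := by
    calc (10 * (58 / 5) : ℝ) = 116 := by norm_num
      _ ≤ (10 : ℝ) ^ (69 / 34 : ℝ) * (217 / 200) := h1
      _ ≤ _ := mul_le_mul_of_nonneg_left h2 (by positivity)
  calc (10 * (58 / 5) : ℝ) ^ n * (58 / 5) * (217 / 200) ^ m ≤
      ((10 : ℝ) ^ (69 / 34 : ℝ) * (10 : ℝ) ^ (5 / 141 : ℝ)) ^ n * 12 * ((10 : ℝ) ^ (5 / 141 : ℝ)) ^ m := by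
        gcongr
        norm_num
    _ = _ := by ring

lemma exp_shift (a b : ℝ) (h : a ≤ b + 69 / 34) : 12 * (10 : ℝ) ^ a ≤ 1296 * (10 : ℝ) ^ b := by
  have h1 : (10 : ℝ) ^ a ≤ (10 : ℝ) ^ (b + 69 / 34) := Real.rpow_le_rpow_of_exponent_le (by norm_num) h
  have h2 : (10 : ℝ) ^ (69 / 34 : ℝ) ≤ 108 := by
    by_contra hcon
    push Not at hcon
    have h1 := pow_lt_pow_left₀ hcon (by positivity) (show (34 : ℕ) ≠ 0 by norm_num)
    rw [← Real.rpow_natCast ((10 : ℝ) ^ (69 / 34 : ℝ)) 34, ← Real.rpow_mul (by norm_num)] at h1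
    have e : (69 / 34 : ℝ) * ((34 : ℕ) : ℝ) = ((69 : ℕ) : ℝ) := by norm_num
    rw [e, Real.rpow_natCast] at h1
    norm_num at h1
  rw [Real.rpow_add (by norm_num)] at h1
  have h3 : (10 : ℝ) ^ b * (10 : ℝ) ^ (69 / 34 : ℝ) ≤ (10 : ℝ) ^ b * 108 := mul_le_mul_of_nonneg_left h2 (by positivity)
  linarith

/-- the sum over the denominators up to `E`, prime to `10` -/
noncomputable def FS (N : ℕ) (P : ℕ → Prop) (E : ℕ) : ℝ :=
  ∑ e ∈ (Icc 1 E).filter (fun e => e.Coprime 10), SS N P e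

lemma FS_nonneg (N : ℕ) (P : ℕ → Prop) (E : ℕ) : 0 ≤ FS N P E := sum_nonneg fun _ _ => SS_nonneg _ _ _

theorem FS_le (N k : ℕ) (P : ℕ → Prop) (hk : 1 ≤ k) (hkN : k ≤ N) (hP : 12 * np N P ≤ N + 12) (E : ℕ) :
    FS N P E ≤ ((E : ℝ) ^ 2 / 10 ^ k + 2) *
      (1296 * (10 : ℝ) ^ ((69 / 34 / 12 * (1 + 1 / ((N / k : ℕ) : ℝ)) + 5 / 141) * (k : ℝ))) := by
  obtain ⟨n, hnk, hn, hS⟩ := SE numA N k P hk hkN E
  refine hS.trans ?_
  apply mul_le_mul_of_nonneg_left _ (by positivity)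
  refine (num_c n k hnk).trans ?_
  refine exp_shift _ _ ?_
  have hq : 0 < N / k := Nat.div_pos hkN hk
  have hqr : (0 : ℝ) < ((N / k : ℕ) : ℝ) := by exact_mod_cast hq
  have h1 : N < k * (N / k + 1) := by
    have := Nat.lt_mul_div_succ N (show 0 < k by omega)
    exact this
  have h2 : 12 * (n * (N / k)) ≤ k * (N / k + 1) + 12 := by omega
  have h3 : 12 * ((n : ℝ) * ((N / k : ℕ) : ℝ)) ≤ k * (((N / k : ℕ) : ℝ) + 1) + 12 := by exact_mod_cast h2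
  have hqr1 : (1 : ℝ) ≤ ((N / k : ℕ) : ℝ) := by exact_mod_cast hq
  have h4 : (n : ℝ) ≤ k / 12 * (1 + 1 / ((N / k : ℕ) : ℝ)) + 1 := by
    have e : (k : ℝ) / 12 * (1 + 1 / ((N / k : ℕ) : ℝ)) = (k * (((N / k : ℕ) : ℝ) + 1)) / (12 * ((N / k : ℕ) : ℝ)) := by
      field_simp
    have h5 : (n : ℝ) - 1 ≤ (k * (((N / k : ℕ) : ℝ) + 1)) / (12 * ((N / k : ℕ) : ℝ)) := by
      rw [le_div_iff₀ (by positivity)]
      nlinarith
    rw [e]
    linarith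
  calc (69 / 34 : ℝ) * n + 5 / 141 * k ≤ 69 / 34 * (k / 12 * (1 + 1 / ((N / k : ℕ) : ℝ)) + 1) + 5 / 141 * k := by
        linarith
    _ = _ := by ring

lemma clog_le (E : ℕ) (hE : 1 ≤ E) : 1 ≤ Nat.clog 10 ((2 * E) ^ 2) ∧
    ((2 * E : ℕ) : ℝ) ^ 2 ≤ (10 : ℝ) ^ Nat.clog 10 ((2 * E) ^ 2) ∧
    (10 : ℝ) ^ Nat.clog 10 ((2 * E) ^ 2) ≤ 40 * (E : ℝ) ^ 2 := by
  have h4 : 1 < (2 * E) ^ 2 := by nlinarith
  have h1 : 1 ≤ Nat.clog 10 ((2 * E) ^ 2) := Nat.clog_pos (by norm_num) h4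
  refine ⟨h1, ?_, ?_⟩
  · have := Nat.le_pow_clog (b := 10) (by norm_num) ((2 * E) ^ 2)
    exact_mod_cast this
  · have h2 := Nat.pow_pred_clog_lt_self (b := 10) (by norm_num) h4
    have h3 : 10 ^ Nat.clog 10 ((2 * E) ^ 2) = 10 * 10 ^ (Nat.clog 10 ((2 * E) ^ 2)).pred := by
      rw [← pow_succ']
      congr 1
      exact (Nat.succ_pred_eq_of_pos h1).symm
    have h5 : 10 ^ Nat.clog 10 ((2 * E) ^ 2) ≤ 10 * (2 * E) ^ 2 := by
      rw [h3]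
      exact Nat.mul_le_mul_left _ h2.le
    have h6 : ((10 ^ Nat.clog 10 ((2 * E) ^ 2) : ℕ) : ℝ) ≤ ((10 * (2 * E) ^ 2 : ℕ) : ℝ) := by exact_mod_cast h5
    push_cast at h6
    calc _ ≤ _ := h6
      _ = _ := by ring

/-- short windows -/
lemma FS_short (N E : ℕ) (P : ℕ → Prop) (hE : 1 ≤ E) (hP : 12 * np N P ≤ N + 12) (q : ℕ) (hq : 1 ≤ q)
    (hEN : (40 * (E : ℝ) ^ 2) ^ q ≤ (10 : ℝ) ^ N) :
    FS N P (2 * E) ≤ 3888 * (40 * (E : ℝ) ^ 2) ^ (69 / 34 / 12 * (1 + 1 / (q : ℝ)) + 5 / 141 : ℝ) := by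
  obtain ⟨h1, h2, h3⟩ := clog_le E hE
  set k := Nat.clog 10 ((2 * E) ^ 2) with hk
  have hkq : k * q ≤ N := by
    have h4 : ((10 : ℝ) ^ k) ^ q ≤ (10 : ℝ) ^ N := (pow_le_pow_left₀ (by positivity) h3 q).trans hEN
    rw [← pow_mul] at h4
    exact (pow_le_pow_iff_right₀ (by norm_num)).1 h4
  have hkN : k ≤ N := le_trans (Nat.le_mul_of_pos_right k hq) hkq
  have h5 := FS_le N k P h1 hkN hP (2 * E)
  have hqk : q ≤ N / k := by
    rw [Nat.le_div_iff_mul_le (by omega)]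
    rwa [mul_comm]
  have hqr : (1 : ℝ) ≤ q := by exact_mod_cast hq
  have h6 : 1 / ((N / k : ℕ) : ℝ) ≤ 1 / (q : ℝ) := by
    apply one_div_le_one_div_of_le (by linarith)
    exact_mod_cast hqk
  have h7 : ((2 * E : ℕ) : ℝ) ^ 2 / 10 ^ k + 2 ≤ 3 := by
    have : ((2 * E : ℕ) : ℝ) ^ 2 / 10 ^ k ≤ 1 := by
      rw [div_le_one (by positivity)]
      exact h2
    linarith
  refine h5.trans ?_
  have h8 : (10 : ℝ) ^ ((69 / 34 / 12 * (1 + 1 / ((N / k : ℕ) : ℝ)) + 5 / 141) * (k : ℝ)) ≤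
      (40 * (E : ℝ) ^ 2) ^ (69 / 34 / 12 * (1 + 1 / (q : ℝ)) + 5 / 141 : ℝ) := by
    calc (10 : ℝ) ^ ((69 / 34 / 12 * (1 + 1 / ((N / k : ℕ) : ℝ)) + 5 / 141) * (k : ℝ)) ≤
        (10 : ℝ) ^ ((k : ℝ) * (69 / 34 / 12 * (1 + 1 / (q : ℝ)) + 5 / 141)) := by
          apply Real.rpow_le_rpow_of_exponent_le (by norm_num)
          rw [mul_comm]
          apply mul_le_mul_of_nonneg_left _ (Nat.cast_nonneg _)
          linarith
      _ = ((10 : ℝ) ^ k) ^ (69 / 34 / 12 * (1 + 1 / (q : ℝ)) + 5 / 141 : ℝ) := by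
          rw [Real.rpow_mul (by norm_num), Real.rpow_natCast]
      _ ≤ _ := Real.rpow_le_rpow (by positivity) h3 (by positivity)
  calc (((2 * E : ℕ) : ℝ) ^ 2 / 10 ^ k + 2) *
      (1296 * (10 : ℝ) ^ ((69 / 34 / 12 * (1 + 1 / ((N / k : ℕ) : ℝ)) + 5 / 141) * (k : ℝ))) ≤
      3 * (1296 * (40 * (E : ℝ) ^ 2) ^ (69 / 34 / 12 * (1 + 1 / (q : ℝ)) + 5 / 141 : ℝ)) := by
        gcongr
    _ = _ := by ring

end Pool.Agent.L5helper11.MD
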