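import Pool.Agent.L5helper11.MD.Blk

/-!
# The sums over the dyadic blocks: the three ranges
-/

set_option autoImplicit false

namespace Pool.Agent.L5helper11.MD

open Finset Pool.Agent.Helper112 Filter

/-- long windows -/
lemma FS_long (N E : ℕ) (P : ℕ → Prop) (hP : 12 * np N P ≤ N + 12) :
    FS N P (2 * E) ≤ (4 * (E : ℝ) ^ 2 / 10 ^ N + 2) * (1296 * (10 : ℝ) ^ ((69 / 34 / 12 + 5 / 141) * (N : ℝ))) := by
  have h1 : FS N P (2 * E) ≤ ∑ x ∈ SF (2 * E), phi N P ((x.2 : ℝ) / x.1) := by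
    unfold SF FS
    rw [sum_sigma]
    calc ∑ e ∈ (Icc 1 (2 * E)).filter (fun e => e.Coprime 10), SS N P e ≤ ∑ e ∈ Icc 1 (2 * E), SS N P e :=
          sum_le_sum_of_subset_of_nonneg (filter_subset _ _) (fun _ _ _ => SS_nonneg _ _ _)
      _ = _ := rfl
  refine h1.trans ((farey numA N P (2 * E)).trans ?_)
  have e1 : ((2 * E : ℕ) : ℝ) ^ 2 = 4 * (E : ℝ) ^ 2 := by
    push_cast
    ring
  rw [e1]
  apply mul_le_mul_of_nonneg_left _ (by positivity)
  have hfr : fr N P = N - np N P := by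
    have := np_add_fr N P
    omega
  rw [hfr]
  refine (num_c (np N P) N (np_le N P)).trans ?_
  refine exp_shift _ _ ?_
  have h2 : 12 * (np N P : ℝ) ≤ N + 12 := by exact_mod_cast hP
  linarith

theorem block (N E : ℕ) (P : ℕ → Prop) (hE : 1 ≤ E) (hP : 12 * np N P ≤ N + 12)
    (hEN : (E : ℝ) ≤ (10 : ℝ) ^ ((157 / 200 : ℝ) * N)) :
    (E : ℝ) ^ (-(999 / 1000) : ℝ) * FS N P (2 * E) ≤
      10800000 * ((E : ℝ) ^ (-(5895 / 10000) : ℝ) + (10 : ℝ) ^ (-(N : ℝ) / 5000)) := by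
  have hx1 : (1 : ℝ) ≤ E := by exact_mod_cast hE
  have hx0 : (0 : ℝ) < E := by linarith
  set x : ℝ := (E : ℝ) with hx
  have p1 : 0 < x ^ (-(5895 / 10000) : ℝ) := by positivity
  have p2 : 0 < (10 : ℝ) ^ (-(N : ℝ) / 5000) := by positivity
  have hpow : ∀ a : ℝ, (40 * x ^ 2) ^ a = (40 : ℝ) ^ a * x ^ (2 * a) := by
    intro a
    rw [Real.mul_rpow (by norm_num) (by positivity), ← Real.rpow_natCast x 2, ← Real.rpow_mul hx0.le]
    norm_num
  by_cases hA : (40 * x ^ 2) ^ 1000 ≤ (10 : ℝ) ^ N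
  · -- short windows
    have h1 := FS_short N E P hE hP 1000 (by norm_num) hA
    have h2 : (40 * x ^ 2) ^ (69 / 34 / 12 * (1 + 1 / ((1000 : ℕ) : ℝ)) + 5 / 141 : ℝ) ≤
        40 * x ^ (2 * (69 / 34 / 12 * (1 + 1 / ((1000 : ℕ) : ℝ)) + 5 / 141) : ℝ) := by
      rw [hpow]
      apply mul_le_mul_of_nonneg_right _ (by positivity)
      calc (40 : ℝ) ^ (69 / 34 / 12 * (1 + 1 / ((1000 : ℕ) : ℝ)) + 5 / 141 : ℝ) ≤ (40 : ℝ) ^ (1 : ℝ) := by
            apply Real.rpow_le_rpow_of_exponent_le (by norm_num)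
            norm_num
        _ = 40 := Real.rpow_one _
    calc x ^ (-(999 / 1000) : ℝ) * FS N P (2 * E) ≤ x ^ (-(999 / 1000) : ℝ) *
        (3888 * (40 * x ^ (2 * (69 / 34 / 12 * (1 + 1 / ((1000 : ℕ) : ℝ)) + 5 / 141) : ℝ))) := by
          apply mul_le_mul_of_nonneg_left _ (by positivity)
          exact h1.trans (mul_le_mul_of_nonneg_left h2 (by norm_num))
      _ = 155520 * x ^ (-(999 / 1000) + 2 * (69 / 34 / 12 * (1 + 1 / ((1000 : ℕ) : ℝ)) + 5 / 141) : ℝ) := by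
          rw [Real.rpow_add hx0]
          ring
      _ ≤ 155520 * x ^ (-(5895 / 10000) : ℝ) := by
          apply mul_le_mul_of_nonneg_left _ (by norm_num)
          apply Real.rpow_le_rpow_of_exponent_le hx1
          norm_num
      _ ≤ _ := by nlinarith
  push Not at hA
  by_cases hB : (40 * x ^ 2) ^ 2 ≤ (10 : ℝ) ^ N
  · -- windows of medium length
    have h1 := FS_short N E P hE hP 2 (by norm_num) hB
    have h2 : (40 * x ^ 2) ^ (69 / 34 / 12 * (1 + 1 / ((2 : ℕ) : ℝ)) + 5 / 141 : ℝ) ≤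
        40 * x ^ (2 * (69 / 34 / 12 * (1 + 1 / ((2 : ℕ) : ℝ)) + 5 / 141) : ℝ) := by
      rw [hpow]
      apply mul_le_mul_of_nonneg_right _ (by positivity)
      calc (40 : ℝ) ^ (69 / 34 / 12 * (1 + 1 / ((2 : ℕ) : ℝ)) + 5 / 141 : ℝ) ≤ (40 : ℝ) ^ (1 : ℝ) := by
            apply Real.rpow_le_rpow_of_exponent_le (by norm_num)
            norm_num
        _ = 40 := Real.rpow_one _
    have h3 : x ^ (-(42 / 100) : ℝ) ≤ 40 * (10 : ℝ) ^ (-(N : ℝ) / 5000) := by
      have h4 : (10 : ℝ) ^ ((N : ℝ) / 1000) ≤ 40 * x ^ 2 := by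
        have h5 : ((10 : ℝ) ^ ((N : ℝ) / 1000)) ^ 1000 ≤ (40 * x ^ 2) ^ 1000 := by
          rw [← Real.rpow_natCast ((10 : ℝ) ^ ((N : ℝ) / 1000)) 1000, ← Real.rpow_mul (by norm_num)]
          have e : (N : ℝ) / 1000 * ((1000 : ℕ) : ℝ) = N := by
            push_cast
            field_simp
          rw [e, Real.rpow_natCast]
          exact hA.le
        exact le_of_pow_le_pow_left₀ (by norm_num) (by positivity) h5
      have h5 : (40 * x ^ 2) ^ (-(21 / 100) : ℝ) ≤ ((10 : ℝ) ^ ((N : ℝ) / 1000)) ^ (-(21 / 100) : ℝ) :=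
        Real.rpow_le_rpow_of_nonpos (by positivity) h4 (by norm_num)
      rw [hpow, ← Real.rpow_mul (by norm_num)] at h5
      have h6 : (1 : ℝ) / 40 ≤ (40 : ℝ) ^ (-(21 / 100) : ℝ) := by
        calc (1 : ℝ) / 40 = (40 : ℝ) ^ (-1 : ℝ) := by
              rw [Real.rpow_neg (by norm_num), Real.rpow_one]
              norm_num
          _ ≤ _ := by
              apply Real.rpow_le_rpow_of_exponent_le (by norm_num)
              norm_num
      have h7 : (10 : ℝ) ^ ((N : ℝ) / 1000 * (-(21 / 100))) ≤ (10 : ℝ) ^ (-(N : ℝ) / 5000) := by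
        apply Real.rpow_le_rpow_of_exponent_le (by norm_num)
        have : (0 : ℝ) ≤ N := Nat.cast_nonneg _
        linarith
      have e8 : (2 * (-(21 / 100)) : ℝ) = (-(42 / 100) : ℝ) := by norm_num
      rw [e8] at h5
      have h9 : (1 : ℝ) / 40 * x ^ (-(42 / 100) : ℝ) ≤ (10 : ℝ) ^ (-(N : ℝ) / 5000) := by
        calc (1 : ℝ) / 40 * x ^ (-(42 / 100) : ℝ) ≤ (40 : ℝ) ^ (-(21 / 100) : ℝ) * x ^ (-(42 / 100) : ℝ) :=
              mul_le_mul_of_nonneg_right h6 (by positivity)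
          _ ≤ _ := h5.trans h7
      linarith
    calc x ^ (-(999 / 1000) : ℝ) * FS N P (2 * E) ≤ x ^ (-(999 / 1000) : ℝ) *
        (3888 * (40 * x ^ (2 * (69 / 34 / 12 * (1 + 1 / ((2 : ℕ) : ℝ)) + 5 / 141) : ℝ))) := by
          apply mul_le_mul_of_nonneg_left _ (by positivity)
          exact h1.trans (mul_le_mul_of_nonneg_left h2 (by norm_num))
      _ = 155520 * x ^ (-(999 / 1000) + 2 * (69 / 34 / 12 * (1 + 1 / ((2 : ℕ) : ℝ)) + 5 / 141) : ℝ) := by
          rw [Real.rpow_add hx0]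
          ring
      _ ≤ 155520 * x ^ (-(42 / 100) : ℝ) := by
          apply mul_le_mul_of_nonneg_left _ (by norm_num)
          apply Real.rpow_le_rpow_of_exponent_le hx1
          norm_num
      _ ≤ _ := by nlinarith
  · -- all places
    push Not at hB
    have h1 := FS_long N E P hP
    have hN0 : (0 : ℝ) ≤ N := Nat.cast_nonneg _
    have hx4 : (10 : ℝ) ^ (N : ℝ) ≤ 1600 * x ^ 4 := by
      rw [Real.rpow_natCast]
      calc (10 : ℝ) ^ N ≤ (40 * x ^ 2) ^ 2 := hB.le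
        _ = _ := by ring
    have h2 : x ^ (-(999 / 1000) : ℝ) ≤ 1600 * (10 : ℝ) ^ (-(999 / 4000) * (N : ℝ)) := by
      have h3 : (1600 * x ^ 4) ^ (-(999 / 4000) : ℝ) ≤ ((10 : ℝ) ^ (N : ℝ)) ^ (-(999 / 4000) : ℝ) :=
        Real.rpow_le_rpow_of_nonpos (by positivity) hx4 (by norm_num)
      rw [Real.mul_rpow (by norm_num) (by positivity), ← Real.rpow_natCast x 4, ← Real.rpow_mul hx0.le,
        ← Real.rpow_mul (by norm_num)] at h3
      have e1 : (((4 : ℕ) : ℝ) * (-(999 / 4000)) : ℝ) = (-(999 / 1000) : ℝ) := by norm_num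
      rw [e1] at h3
      have h6 : (1 : ℝ) / 1600 ≤ (1600 : ℝ) ^ (-(999 / 4000) : ℝ) := by
        calc (1 : ℝ) / 1600 = (1600 : ℝ) ^ (-1 : ℝ) := by
              rw [Real.rpow_neg (by norm_num), Real.rpow_one]
              norm_num
          _ ≤ _ := by
              apply Real.rpow_le_rpow_of_exponent_le (by norm_num)
              norm_num
      have h9 : (1 : ℝ) / 1600 * x ^ (-(999 / 1000) : ℝ) ≤ (10 : ℝ) ^ ((N : ℝ) * (-(999 / 4000))) :=
        (mul_le_mul_of_nonneg_right h6 (by positivity)).trans h3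
      rw [mul_comm (N : ℝ)] at h9
      linarith
    have h3 : x ^ (-(999 / 1000) : ℝ) * x ^ 2 ≤ (10 : ℝ) ^ ((785785 / 1000000 : ℝ) * N) := by
      have e1 : x ^ (-(999 / 1000) : ℝ) * x ^ 2 = x ^ (1001 / 1000 : ℝ) := by
        rw [← Real.rpow_natCast x 2, ← Real.rpow_add hx0]
        norm_num
      rw [e1]
      calc x ^ (1001 / 1000 : ℝ) ≤ ((10 : ℝ) ^ ((157 / 200 : ℝ) * N)) ^ (1001 / 1000 : ℝ) :=
            Real.rpow_le_rpow hx0.le hEN (by norm_num)
        _ = _ := by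
            rw [← Real.rpow_mul (by norm_num)]
            congr 1
            ring
    have h4 : (10 : ℝ) ^ ((785785 / 1000000 : ℝ) * N) / 10 ^ N * (10 : ℝ) ^ ((69 / 34 / 12 + 5 / 141) * (N : ℝ)) ≤
        (10 : ℝ) ^ (-(N : ℝ) / 5000) := by
      rw [← Real.rpow_natCast 10 N, ← Real.rpow_sub (by norm_num), ← Real.rpow_add (by norm_num)]
      apply Real.rpow_le_rpow_of_exponent_le (by norm_num)
      nlinarith
    have h5 : (10 : ℝ) ^ (-(999 / 4000) * (N : ℝ)) * (10 : ℝ) ^ ((69 / 34 / 12 + 5 / 141) * (N : ℝ)) ≤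
        (10 : ℝ) ^ (-(N : ℝ) / 5000) := by
      rw [← Real.rpow_add (by norm_num)]
      apply Real.rpow_le_rpow_of_exponent_le (by norm_num)
      nlinarith
    set T : ℝ := (10 : ℝ) ^ ((69 / 34 / 12 + 5 / 141) * (N : ℝ)) with hT
    have hT0 : 0 < T := by rw [hT]; positivity
    set R : ℝ := (10 : ℝ) ^ (-(N : ℝ) / 5000) with hR
    calc x ^ (-(999 / 1000) : ℝ) * FS N P (2 * E) ≤
        x ^ (-(999 / 1000) : ℝ) * ((4 * x ^ 2 / 10 ^ N + 2) * (1296 * T)) :=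
          mul_le_mul_of_nonneg_left h1 (by positivity)
      _ = 5184 * ((x ^ (-(999 / 1000) : ℝ) * x ^ 2) / 10 ^ N * T) + 2592 * (x ^ (-(999 / 1000) : ℝ) * T) := by ring
      _ ≤ 5184 * ((10 : ℝ) ^ ((785785 / 1000000 : ℝ) * N) / 10 ^ N * T) +
          2592 * ((1600 * (10 : ℝ) ^ (-(999 / 4000) * (N : ℝ))) * T) := by gcongr
      _ = 5184 * ((10 : ℝ) ^ ((785785 / 1000000 : ℝ) * N) / 10 ^ N * T) +
          4147200 * ((10 : ℝ) ^ (-(999 / 4000) * (N : ℝ)) * T) := by ring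
      _ ≤ 5184 * R + 4147200 * R := by gcongr
      _ ≤ _ := by nlinarith

end Pool.Agent.L5helper11.MD
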