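import Pool.Agent.L5helper11.MD.Tot
import Pool.Agent.H623R3.PBT8
import Pool.Agent.Y882.SI.Var
import Pool.Agent.Y882.PX.Prim

/-!
# Divisibility of polynomial values at the integers with prescribed digits
-/

set_option autoImplicit false

namespace Pool.Agent.L5helper11.MD

open Finset Pool.Agent.Helper112 Filter Polynomial
open Pool.Agent.H623R3.PBT8 (orth group)
open Pool.Agent.Y882.PX (ro ro_prod pf_prod sum_div_prod)
open Pool.Agent.Y882.SI (RT RT_card dvd_eval_congr)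

/-- the sum over the nonzero fractions with denominator `q` -/
noncomputable def UU (N : ℕ) (P : ℕ → Prop) (q : ℕ) : ℝ := ∑ a ∈ (range q).erase 0, phi N P ((a : ℝ) / q)

lemma UU_nonneg (N : ℕ) (P : ℕ → Prop) (q : ℕ) : 0 ≤ UU N P q := sum_nonneg fun _ _ => phi_nonneg _ _ _

lemma phi_zero (N : ℕ) (P : ℕ → Prop) : phi N P 0 = 1 := by
  unfold phi
  apply prod_eq_one
  intro i _
  split_ifs
  · rfl
  · unfold g
    rw [mul_zero, lsD_zero]
    norm_num

lemma UU_eq (N : ℕ) (P : ℕ → Prop) (q : ℕ) (hq : 0 < q) : UU N P q = ∑ d ∈ q.divisors.erase 1, SS N P d := by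
  have h1 := group hq (phi N P)
  have h2 : (0 : ℕ) ∈ range q := mem_range.2 hq
  have h3 : 1 ∈ q.divisors := Nat.one_mem_divisors.2 hq.ne'
  rw [← add_sum_erase _ _ h2] at h1
  have h4 : ∑ d ∈ q.divisors, ∑ a ∈ (range d).filter (fun a => a.Coprime d), phi N P ((a : ℝ) / d) =
      ∑ d ∈ q.divisors, SS N P d := rfl
  rw [h4, ← add_sum_erase _ _ h3] at h1
  have h5 : SS N P 1 = 1 := by
    unfold SS
    have : (range 1).filter (fun h => h.Coprime 1) = {0} := by decide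
    rw [this, sum_singleton]
    simp [phi_zero]
  rw [h5] at h1
  simp only [Nat.cast_zero, zero_div, phi_zero] at h1
  unfold UU
  linarith

/-- one residue class -/
lemma class_cnt (N : ℕ) (P : ℕ → Prop) (e : ℕ → ℕ) (he : ∀ i, e i < 10) {q : ℕ} (hq : 0 < q) (r : ℕ) :
    |((((Cs N P e).filter (fun n => n ≡ r [MOD q])).card : ℕ) : ℝ) - ((Cs N P e).card : ℝ) / q| ≤
      ((Cs N P e).card : ℝ) / q * UU N P q := by
  have hq0 : (0 : ℝ) < q := by exact_mod_cast hq
  have hqC : (q : ℂ) ≠ 0 := by exact_mod_cast hq.ne'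
  set C := Cs N P e with hC
  have h1 : (q : ℂ) * (((C.filter (fun n => n ≡ r [MOD q])).card : ℕ) : ℂ) =
      ∑ a ∈ range q, ee (-((a : ℝ) * r / q)) * ∑ n ∈ C, ee ((n : ℝ) * ((a : ℝ) / q)) := by
    have h2 : ∀ n ∈ C, (if n ≡ r [MOD q] then (q : ℂ) else 0) =
        ∑ a ∈ range q, ee ((a : ℝ) * (((n : ℝ) - r) / q)) := fun n _ => (orth hq n r).symm
    rw [card_filter]
    push_cast
    rw [mul_sum]
    have h3 : ∀ n ∈ C, (q : ℂ) * (if n ≡ r [MOD q] then (1 : ℂ) else 0) = if n ≡ r [MOD q] then (q : ℂ) else 0 := by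
      intro n _
      split_ifs <;> simp
    rw [sum_congr rfl h3, sum_congr rfl h2, sum_comm]
    apply sum_congr rfl
    intro a _
    rw [mul_sum]
    apply sum_congr rfl
    intro n _
    rw [← ls_ee_add]
    congr 1
    ring
  have h2 : (0 : ℕ) ∈ range q := mem_range.2 hq
  rw [← add_sum_erase _ _ h2] at h1
  have h3 : ee (-(((0 : ℕ) : ℝ) * r / q)) * ∑ n ∈ C, ee ((n : ℝ) * (((0 : ℕ) : ℝ) / q)) = (C.card : ℂ) := by
    simp [ls_ee_zero]
  rw [h3] at h1
  have h4 : ‖(q : ℂ) * (((C.filter (fun n => n ≡ r [MOD q])).card : ℕ) : ℂ) - C.card‖ ≤ C.card * UU N P q := by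
    rw [h1, add_sub_cancel_left]
    refine (norm_sum_le _ _).trans ?_
    unfold UU
    rw [mul_sum]
    apply sum_le_sum
    intro a _
    rw [norm_mul, ls_norm_ee, one_mul, hC, norm_expsum N P e he, card_Cs N P e he]
    push_cast
    exact le_rfl
  have h5 : (q : ℂ) * (((C.filter (fun n => n ≡ r [MOD q])).card : ℕ) : ℂ) - C.card =
      (((q : ℝ) * (((C.filter (fun n => n ≡ r [MOD q])).card : ℕ) : ℝ) - C.card : ℝ) : ℂ) := by
    push_cast
    ring
  rw [h5, Complex.norm_real, Real.norm_eq_abs] at h4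
  have h6 : ((((C.filter (fun n => n ≡ r [MOD q])).card : ℕ) : ℝ) - (C.card : ℝ) / q) =
      ((q : ℝ) * (((C.filter (fun n => n ≡ r [MOD q])).card : ℕ) : ℝ) - C.card) / q := by
    field_simp
  rw [h6, abs_div, abs_of_pos hq0, div_le_iff₀ hq0]
  refine h4.trans (le_of_eq ?_)
  field_simp

/-- polynomial values -/
theorem poly_cnt (N : ℕ) (P : ℕ → Prop) (e : ℕ → ℕ) (he : ∀ i, e i < 10) (F : ℤ[X]) {q : ℕ} (hq : 0 < q) :
    |((((Cs N P e).filter (fun n : ℕ => q ∣ (F.eval (n : ℤ)).natAbs)).card : ℕ) : ℝ) -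
      ((Cs N P e).card : ℝ) * ((ro F 0 q : ℝ) / q)| ≤
      ((Cs N P e).card : ℝ) * ((ro F 0 q : ℝ) / q) * UU N P q := by
  classical
  set C := Cs N P e with hC
  have h1 : (C.filter (fun n : ℕ => q ∣ (F.eval (n : ℤ)).natAbs)) =
      (RT F q).biUnion (fun r => C.filter (fun n => n ≡ r [MOD q])) := by
    ext n
    rw [mem_filter, mem_biUnion]
    constructor
    · rintro ⟨h1, h2⟩
      have h3 : (q : ℤ) ∣ (n : ℤ) - ((n % q : ℕ) : ℤ) := by
        push_cast
        exact Int.dvd_self_sub_emod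
      refine ⟨n % q, ?_, ?_⟩
      · unfold RT
        rw [mem_filter, mem_range]
        refine ⟨Nat.mod_lt _ hq, ?_⟩
        exact (dvd_eval_congr F q _ _ h3).1 (Int.natCast_dvd.2 h2)
      · rw [mem_filter]
        exact ⟨h1, (Nat.mod_modEq n q).symm⟩
    · rintro ⟨r, hr, hn⟩
      rw [mem_filter] at hn
      refine ⟨hn.1, ?_⟩
      unfold RT at hr
      rw [mem_filter] at hr
      apply Int.natCast_dvd.1
      refine (dvd_eval_congr F q _ _ ?_).1 hr.2
      exact (Nat.modEq_iff_dvd.1 hn.2)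
  have h2 : (C.filter (fun n : ℕ => q ∣ (F.eval (n : ℤ)).natAbs)).card =
      ∑ r ∈ RT F q, (C.filter (fun n => n ≡ r [MOD q])).card := by
    rw [h1]
    apply card_biUnion
    intro a ha b hb hab
    rw [Function.onFun, Finset.disjoint_left]
    intro n hn hn2
    rw [mem_filter] at hn hn2
    unfold RT at ha hb
    rw [mem_coe, mem_filter, mem_range] at ha hb
    exact hab (Nat.ModEq.eq_of_lt_of_lt (hn.2.symm.trans hn2.2) ha.1 hb.1)
  rw [h2, ← RT_card]
  push_cast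
  have h3 : ∑ r ∈ RT F q, (((C.filter (fun n => n ≡ r [MOD q])).card : ℕ) : ℝ) - (C.card : ℝ) * (((RT F q).card : ℝ) / q) =
      ∑ r ∈ RT F q, ((((C.filter (fun n => n ≡ r [MOD q])).card : ℕ) : ℝ) - (C.card : ℝ) / q) := by
    rw [sum_sub_distrib, sum_const, nsmul_eq_mul]
    ring
  rw [h3]
  refine (abs_sum_le_sum_abs _ _).trans ?_
  calc ∑ r ∈ RT F q, |(((C.filter (fun n => n ≡ r [MOD q])).card : ℕ) : ℝ) - (C.card : ℝ) / q| ≤
      ∑ _r ∈ RT F q, (C.card : ℝ) / q * UU N P q := sum_le_sum fun r _ => class_cnt N P e he hq r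
    _ = _ := by
        rw [sum_const, nsmul_eq_mul]
        ring

/-- the divisors of a product of primes -/
lemma UU_prod (N : ℕ) (P : ℕ → Prop) (T : Finset ℕ) (hT : ∀ p ∈ T, p.Prime) :
    UU N P (∏ p ∈ T, p) = ∑ U ∈ T.powerset.erase ∅, SS N P (∏ p ∈ U, p) := by
  classical
  have hpos : 0 < ∏ p ∈ T, p := Nat.pos_of_ne_zero (prod_ne_zero_iff.2 fun p hp => (hT p hp).ne_zero)
  rw [UU_eq N P _ hpos]
  have h1 := sum_div_prod T hT (fun d => ((SS N P d : ℝ) : ℂ))
  have h2 : ∑ f ∈ (∏ p ∈ T, p).divisors, SS N P f = ∑ U ∈ T.powerset, SS N P (∏ p ∈ U, p) := by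
    have h3 : ((∑ f ∈ (∏ p ∈ T, p).divisors, SS N P f : ℝ) : ℂ) = ((∑ U ∈ T.powerset, SS N P (∏ p ∈ U, p) : ℝ) : ℂ) := by
      push_cast
      exact h1
    exact_mod_cast h3
  rw [← add_sum_erase _ _ (Nat.one_mem_divisors.2 hpos.ne'), ← add_sum_erase _ _ (empty_mem_powerset T)] at h2
  simp only [prod_empty] at h2
  linarith

end Pool.Agent.L5helper11.MD
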