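import Pool.Agent.Y882.KW.Core4

/-!
# The weighted sieve for a finite sequence with total error smaller than the main term

A variant of `Pool.Agent.Y882.KW.core4` (helper882): the total error only has to be smaller than a small constant
times the main term.
-/

set_option autoImplicit false

open Finset Filter

namespace Pool.Agent.L5helper11.MD

open Pool.Agent.W23.DC
open Pool.Agent.Y882
open Pool.Agent.Y882.PX
open Pool.Agent.Y882.KW

open Classical in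
/-- **The weighted sieve.** -/
theorem core5 (K : ℕ) (τ ζ υ aw bw τ' β : ℝ) (hζ : 0 < ζ) (h2 : 2 * ζ < τ) (h4 : τ ≤ 4 * ζ)
    (hτ : τ ≤ 1) (hζυ : ζ ≤ υ) (hυτ : υ < τ) (ha : 0 ≤ aw) (hb : 0 ≤ bw) (hab : bw * υ ≤ aw)
    (hJ0 : ∫ x in ζ..υ, (aw - bw * x) / (τ - x) / x < Real.log (τ / ζ - 1) / τ)
    (h5 : τ < τ') (hβ : 0 < β) :
    ∃ δ ε₁ η : ℝ, 0 < δ ∧ 0 < ε₁ ∧ ε₁ ≤ ζ ∧ ε₁ ≤ β ∧ 0 < η ∧ ∃ Y0 : ℕ, ∀ Y : ℕ, Y0 ≤ Y →
      ∃ c : Finset ℕ → ℝ, (∀ T, |c T| ≤ 5 * Real.log Y) ∧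
      (∀ T ⊆ PZ Y υ, c T ≠ 0 → ((∏ p ∈ T, p : ℕ) : ℝ) ≤ (Y : ℝ) ^ τ') ∧
      ∀ (J : Finset ℕ) (a : ℕ → ℕ) (r : ℕ → ℕ) (Z : ℕ), (Y : ℝ) ^ β ≤ Z →
        (∀ p : ℕ, p.Prime → r p ≤ K) → (∀ p : ℕ, p.Prime → r p ≤ p) →
        Mer (pr Y ε₁ υ) (tt Y) (fun p => (r p : ℝ) / p) ε₁ υ η →
        |∑ T ∈ (PZ Y υ).powerset, c T * (((J.filter (fun j => ∏ p ∈ T, p ∣ a j)).card : ℝ) -
          J.card * ∏ p ∈ T, ((r p : ℝ) / p))| ≤
            δ * J.card * ∏ p ∈ (Icc 1 Z).filter Nat.Prime, (1 - (r p : ℝ) / p) →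
        δ * J.card * ∏ p ∈ (Icc 1 Z).filter Nat.Prime, (1 - (r p : ℝ) / p) ≤
          ((J.filter (fun j => 0 < WW Y ζ υ aw bw (a j))).card : ℝ) := by
  obtain ⟨ε₁, η, f, hε₁, hε₁ζ, hε₁β, hη, hf, Y1, HC⟩ :=
    core3 K τ ζ υ aw bw τ' β hζ h2 h4 hτ hζυ hυτ ha hb hab hJ0 h5 hβ
  refine ⟨f / 2, ε₁, η, by positivity, hε₁, hε₁ζ, hε₁β, hη, max Y1 3, ?_⟩
  intro Y hY
  have hY1 : Y1 ≤ Y := (le_max_left _ _).trans hY
  have hY3 : 3 ≤ Y := (le_max_right _ _).trans hY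
  have hYr : (3 : ℝ) ≤ Y := by exact_mod_cast hY3
  have hY0 : (0 : ℝ) < Y := by linarith
  have hY1r : (1 : ℝ) ≤ Y := by linarith
  obtain ⟨c, hcL, hcD, hcN, hcV⟩ := HC Y hY1
  refine ⟨c, hcL, hcD, ?_⟩
  intro J a r Z hZ hK hrp hmer herr
  have hPZ : ∀ w : ℝ, ∀ p ∈ PZ Y w, p.Prime ∧ p ≤ Y ∧ (p : ℝ) < (Y : ℝ) ^ w := by
    intro w p hp
    unfold PZ at hp
    rw [mem_filter, mem_Icc] at hp
    exact ⟨hp.2.1, hp.1.2, (tt_lt Y p w (by omega) hp.2.1.pos).1 hp.2.2⟩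
  have hJr : (0 : ℝ) ≤ J.card := Nat.cast_nonneg _
  have hsubX : PZ Y ε₁ ⊆ (Icc 1 Z).filter Nat.Prime := by
    intro p hp
    obtain ⟨h1, h2, h3⟩ := hPZ ε₁ p hp
    rw [mem_filter, mem_Icc]
    refine ⟨⟨h1.one_le, ?_⟩, h1⟩
    have h4 : (Y : ℝ) ^ ε₁ ≤ Z :=
      (Real.rpow_le_rpow_of_exponent_le hY1r hε₁β).trans hZ
    exact_mod_cast (h3.trans_le h4).le
  have hr01 : ∀ p ∈ (Icc 1 Z).filter Nat.Prime,
      0 ≤ 1 - (r p : ℝ) / p ∧ 1 - (r p : ℝ) / p ≤ 1 := by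
    intro p hp
    have hpp := (mem_filter.1 hp).2
    have hp0 : (0 : ℝ) < p := by exact_mod_cast hpp.pos
    have h1 : (r p : ℝ) ≤ p := by exact_mod_cast hrp p hpp
    constructor
    · rw [sub_nonneg, div_le_one hp0]
      exact h1
    · have : 0 ≤ (r p : ℝ) / p := by positivity
      linarith
  set V1 : ℝ := ∏ p ∈ PZ Y ε₁, (1 - (r p : ℝ) / p) with hV1
  have hlocV : ∏ p ∈ (Icc 1 Z).filter Nat.Prime, (1 - (r p : ℝ) / p) ≤ V1 := by
    rw [hV1, ← prod_sdiff hsubX]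
    calc (∏ p ∈ (Icc 1 Z).filter Nat.Prime \ PZ Y ε₁, (1 - (r p : ℝ) / p)) *
        ∏ p ∈ PZ Y ε₁, (1 - (r p : ℝ) / p) ≤
        1 * ∏ p ∈ PZ Y ε₁, (1 - (r p : ℝ) / p) := by
          apply mul_le_mul_of_nonneg_right
          · apply prod_le_one
            · intro p hp
              exact (hr01 p (mem_sdiff.1 hp).1).1
            · intro p hp
              exact (hr01 p (mem_sdiff.1 hp).1).2
          · exact prod_nonneg fun p hp => (hr01 p (hsubX hp)).1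
      _ = _ := one_mul _
  -- main inequality
  have hmain := hcV (fun p => (r p : ℝ) / p) (fun p _ => by positivity) (by
    intro p hp
    have hpp := (hPZ ε₁ p hp).1
    have hp0 : (0 : ℝ) < p := by exact_mod_cast hpp.pos
    have h1 : (r p : ℝ) ≤ p := by exact_mod_cast hrp p hpp
    show (r p : ℝ) / p ≤ 1
    rw [div_le_one hp0]
    exact h1) (by
    intro p hp _
    have hp0 : (2 : ℝ) ≤ p := by exact_mod_cast (hPZ ε₁ p hp).1.two_le
    have h1 : (r p : ℝ) ≤ K := by exact_mod_cast hK p (hPZ ε₁ p hp).1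
    show (r p : ℝ) / p ≤ K / ((p : ℝ) - 1)
    apply div_le_div₀ (Nat.cast_nonneg _) h1 (by linarith) (by linarith)) hmer
  have hmain' : f * V1 ≤ VV (PZ Y υ) c (fun p => (r p : ℝ) / p) := hmain
  -- the sieve inequality
  have hs : (J.card : ℝ) * VV (PZ Y υ) c (fun p => (r p : ℝ) / p) +
      ∑ T ∈ (PZ Y υ).powerset, c T * (((J.filter (fun j => ∏ p ∈ T, p ∣ a j)).card : ℝ) -
          J.card * ∏ p ∈ T, ((r p : ℝ) / p)) ≤
      ((J.filter (fun j => 0 < WW Y ζ υ aw bw (a j))).card : ℝ) := by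
    have h6 : (J.card : ℝ) * VV (PZ Y υ) c (fun p => (r p : ℝ) / p) +
      ∑ T ∈ (PZ Y υ).powerset, c T * (((J.filter (fun j => ∏ p ∈ T, p ∣ a j)).card : ℝ) -
          J.card * ∏ p ∈ T, ((r p : ℝ) / p)) =
      ∑ T ∈ (PZ Y υ).powerset, c T * ((J.filter (fun j => ∏ p ∈ T, p ∣ a j)).card : ℝ) := by
      unfold VV
      rw [mul_sum, ← sum_add_distrib]
      apply sum_congr rfl
      intro T _
      ring
    have h7 : ∑ T ∈ (PZ Y υ).powerset, c T * ((J.filter (fun j => ∏ p ∈ T, p ∣ a j)).card : ℝ) =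
        ∑ j ∈ J, VV (PZ Y υ) c (fun p => if p ∣ a j then 1 else 0) := by
      unfold VV
      rw [sum_comm]
      apply sum_congr rfl
      intro T hT
      rw [mem_powerset] at hT
      rw [card_filter]
      push_cast
      rw [mul_sum]
      apply sum_congr rfl
      intro j _
      rw [Pool.Agent.Y882.PX.prod_ind T (fun p hp => (hPZ υ p (hT hp)).1)]
    rw [h6, h7, card_filter]
    push_cast
    apply sum_le_sum
    intro j _
    refine (hcN (a j)).trans ?_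
    split_ifs with h
    · exact WW_le_one Y ζ υ aw bw hb hab (a j)
    · exact not_lt.1 h
  have hm1 : (J.card : ℝ) * (f * V1) ≤
      (J.card : ℝ) * VV (PZ Y υ) c (fun p => (r p : ℝ) / p) :=
    mul_le_mul_of_nonneg_left hmain' hJr
  have hm2 := neg_le_of_abs_le herr
  have hfin : f / 2 * J.card * ∏ p ∈ (Icc 1 Z).filter Nat.Prime, (1 - (r p : ℝ) / p) ≤
      J.card * (f * V1) / 2 := by
    calc f / 2 * J.card * ∏ p ∈ (Icc 1 Z).filter Nat.Prime, (1 - (r p : ℝ) / p) ≤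
        f / 2 * J.card * V1 := mul_le_mul_of_nonneg_left hlocV (by positivity)
      _ = _ := by ring
  linarith

end Pool.Agent.L5helper11.MD
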