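import Pool.Agent.L5helper11.MD.Err
import Pool.Agent.L5helper11.MD.Core5
import Pool.Agent.Y882.MG.EngS
import Pool.Agent.Y882.KW.Alm

/-!
# The sieve for polynomial values at the integers with prescribed digits
-/

set_option autoImplicit false

namespace Pool.Agent.L5helper11.MD

open Finset Filter Polynomial
open Pool.Agent.W23.DC
open Pool.Agent.Y882
open Pool.Agent.Y882.PX (ro ro_prod ro_le_self pow_card_le)
open Pool.Agent.Y882.KW
open Pool.Agent.Y882.SI (lo)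
open Pool.Agent.Y882.MG (tail_sq card_lt)

lemma lo_pos_factor (F : ℤ[X]) (Z : ℕ) (h : 0 < lo F Z) : ∀ p ∈ (Icc 1 Z).filter Nat.Prime,
    0 < 1 - (ro F 0 p : ℝ) / p := by
  intro p hp
  have hp0 : (0 : ℝ) < p := by exact_mod_cast (mem_filter.1 hp).2.pos
  have h1 : 0 ≤ 1 - (ro F 0 p : ℝ) / p := by
    rw [sub_nonneg, div_le_one hp0]
    exact_mod_cast ro_le_self F 0 p
  rcases h1.lt_or_eq with h2 | h2
  · exact h2
  · exfalso
    unfold lo at h
    rw [prod_eq_zero hp h2.symm] at h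
    exact lt_irrefl _ h

lemma rr_le (F : ℤ[X]) (p : ℕ) : rr F p ≤ ro F 0 p := by
  unfold rr
  split_ifs
  · exact Nat.zero_le _
  · exact le_rfl

/-- lower bound for the product of the local factors -/
lemma lo_le_rr (F : ℤ[X]) (Z : ℕ) : lo F Z ≤ ∏ p ∈ (Icc 1 Z).filter Nat.Prime, (1 - (rr F p : ℝ) / p) := by
  unfold lo
  apply Finset.prod_le_prod
  · intro p hp
    have hp0 : (0 : ℝ) < p := by exact_mod_cast (mem_filter.1 hp).2.pos
    rw [sub_nonneg, div_le_one hp0]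
    exact_mod_cast ro_le_self F 0 p
  · intro p hp
    have hp0 : (0 : ℝ) < p := by exact_mod_cast (mem_filter.1 hp).2.pos
    have h1 : (rr F p : ℝ) / p ≤ (ro F 0 p : ℝ) / p := by
      apply div_le_div_of_nonneg_right _ hp0.le
      exact_mod_cast rr_le F p
    linarith

/-- upper bound for the product of `1 + r(p) / p` -/
lemma prod_upper (F : ℤ[X]) (Z : ℕ) (h : 0 < lo F Z) (Q : Finset ℕ) (hQ : Q ⊆ (Icc 1 Z).filter Nat.Prime) :
    ∏ p ∈ Q, (1 + (rr F p : ℝ) / p) ≤ 1 / lo F Z := by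
  have hf := lo_pos_factor F Z h
  have hx : ∀ p ∈ (Icc 1 Z).filter Nat.Prime, 0 ≤ (rr F p : ℝ) / p ∧ (rr F p : ℝ) / p ≤ (ro F 0 p : ℝ) / p := by
    intro p hp
    have hp0 : (0 : ℝ) < p := by exact_mod_cast (mem_filter.1 hp).2.pos
    refine ⟨by positivity, ?_⟩
    apply div_le_div_of_nonneg_right _ hp0.le
    exact_mod_cast rr_le F p
  rw [le_div_iff₀ h]
  have h1 : ∏ p ∈ Q, (1 + (rr F p : ℝ) / p) ≤ ∏ p ∈ (Icc 1 Z).filter Nat.Prime, (1 + (rr F p : ℝ) / p) := by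
    apply prod_le_prod_of_subset_of_one_le hQ
    · intro p hp
      have := (hx p (hQ hp)).1
      linarith
    · intro p hp _
      have := (hx p hp).1
      linarith
  calc (∏ p ∈ Q, (1 + (rr F p : ℝ) / p)) * lo F Z ≤
      (∏ p ∈ (Icc 1 Z).filter Nat.Prime, (1 + (rr F p : ℝ) / p)) * lo F Z := mul_le_mul_of_nonneg_right h1 h.le
    _ = ∏ p ∈ (Icc 1 Z).filter Nat.Prime, ((1 + (rr F p : ℝ) / p) * (1 - (ro F 0 p : ℝ) / p)) := by
        unfold lo
        rw [prod_mul_distrib]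
    _ ≤ 1 := by
        apply prod_le_one
        · intro p hp
          have h2 := hf p hp
          have h3 := hx p hp
          apply mul_nonneg (by linarith) h2.le
        · intro p hp
          have h2 := hf p hp
          have h3 := hx p hp
          nlinarith

open Classical in
/-- **The engine.** -/
theorem engD (K : ℕ) (S K2 c : ℝ) (hS : S ≤ 43 / 20) (hK2 : 0 ≤ K2) (hc : 0 < c) :
    ∃ δ ε₁ η : ℝ, 0 < δ ∧ 0 < ε₁ ∧ 0 < η ∧ ∀ᶠ N : ℕ in atTop, ∀ F : ℤ[X],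
      (∀ p : ℕ, p.Prime → ro F 0 p ≤ K) →
      c / Real.log ((10 ^ N : ℕ) : ℝ) ≤ lo F (10 ^ N) →
      Mer (pr (10 ^ N) ε₁ (24 / 25 * (39 / 50))) (tt (10 ^ N)) (fun p => (ro F 0 p : ℝ) / p) ε₁ (24 / 25 * (39 / 50)) η →
      (∀ q : ℕ, q.Prime → (((10 ^ N : ℕ) : ℝ)) ^ (39 / 50 / 4 : ℝ) ≤ q →
        ((((range (10 ^ N)).filter (fun n : ℕ => q ^ 2 ∣ (F.eval (n : ℤ)).natAbs)).card : ℕ) : ℝ) ≤
          K2 * ((10 : ℝ) ^ N * (1 / (q : ℝ) ^ 2) + 1)) →
      (∀ n : ℕ, n < 10 ^ N → (F.eval (n : ℤ)).natAbs ≠ 0 ∧ (((F.eval (n : ℤ)).natAbs : ℕ) : ℝ) ≤ (((10 ^ N : ℕ) : ℝ)) ^ S) →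
      ∀ (P : ℕ → Prop) (e : ℕ → ℕ), (∀ i, e i < 10) → 12 * np N P ≤ N + 12 →
        (∀ n ∈ Cs N P e, ¬ 2 ∣ (F.eval (n : ℤ)).natAbs ∧ ¬ 5 ∣ (F.eval (n : ℤ)).natAbs) →
        δ * 10 ^ fr N P / N ≤ ((((Cs N P e).filter (fun n : ℕ => (F.eval (n : ℤ)).natAbs.primeFactorsList.length ≤ 3 ∧
          ∀ p : ℕ, p.Prime → p ∣ (F.eval (n : ℤ)).natAbs →
            (((10 ^ N : ℕ) : ℝ)) ^ (39 / 50 / 4 : ℝ) ≤ p)).card : ℕ) : ℝ) := by
  have hlam : (9 / 8 : ℝ) ≤ 1 / (8 / 9) := by norm_num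
  have hJ0 := cond_A (39 / 50) (8 / 9) (by norm_num) (by norm_num) hlam
  obtain ⟨δ, ε₁, η, hδ, hε₁, hε₁ζ, hε₁β, hη, Y0, HE⟩ := core5 K (39 / 50) (39 / 50 / 4) (24 / 25 * (39 / 50)) (8 / 9)
    (8 / 9 / (24 / 25 * (39 / 50))) (157 / 200) 1 (by norm_num) (by norm_num) (by norm_num) (by norm_num) (by norm_num)
    (by norm_num) (by norm_num) (by norm_num) (by norm_num) hJ0 (by norm_num) (by norm_num)
  obtain ⟨C0, hC01, hC0⟩ := pow_card_le K (1 / 1000) (by norm_num)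
  refine ⟨δ * c / 6, ε₁, η, by positivity, hε₁, hη, ?_⟩
  have hl10 : Real.log 10 ≤ 3 := by linarith [log_ten_le]
  have hl10' : 1 ≤ Real.log 10 := by
    rw [Real.le_log_iff_exp_le (by norm_num)]
    linarith [Real.exp_one_lt_d9]
  have tpow : Tendsto (fun N : ℕ => ((10 ^ N : ℕ) : ℝ)) atTop atTop := by
    have h1 : Tendsto (fun N : ℕ => (10 : ℕ) ^ N) atTop atTop := tendsto_pow_atTop_atTop_of_one_lt (by norm_num)
    exact tendsto_natCast_atTop_atTop.comp h1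
  have ev0 : ∀ᶠ N : ℕ in atTop, Y0 ≤ 10 ^ N :=
    (tendsto_pow_atTop_atTop_of_one_lt (by norm_num : (1 : ℕ) < 10)).eventually_ge_atTop Y0
  have ev1 : ∀ᶠ N : ℕ in atTop, (6 : ℝ) ≤ (((10 ^ N : ℕ) : ℝ)) ^ ε₁ :=
    ((tendsto_rpow_atTop hε₁).comp tpow).eventually_ge_atTop _
  have ev2 : ∀ᶠ N : ℕ in atTop, 135 * C0 / (δ * c ^ 2) ≤ (N : ℝ) ^ (4 / 1000 : ℝ) :=
    ((tendsto_rpow_atTop (by norm_num)).comp tendsto_natCast_atTop_atTop).eventually_ge_atTop _
  have ev3 : ∀ᶠ N : ℕ in atTop, (N : ℝ) ^ (1 : ℝ) * Real.exp (-(1 / 10) * N) ≤ δ * c / (6 * 3 * 10 * (K2 + 1)) := by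
    have h1 := tendsto_rpow_mul_exp_neg_mul_atTop_nhds_zero 1 (1 / 10) (by norm_num)
    exact (h1.comp tendsto_natCast_atTop_atTop).eventually_le_const (by positivity)
  have ev4 : ∀ᶠ N : ℕ in atTop, (2 : ℝ) ≤ (((10 ^ N : ℕ) : ℝ)) ^ (39 / 50 / 4 : ℝ) :=
    ((tendsto_rpow_atTop (by norm_num)).comp tpow).eventually_ge_atTop _
  filter_upwards [total, ev0, ev1, ev2, ev3, ev4, eventually_ge_atTop 10] with N htot hY0 h6 hN2 hN3 hN4 hN10
    F hK hlo hmer hsq hsize P e he hP h25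
  have hNr : (10 : ℝ) ≤ N := by exact_mod_cast hN10
  have hN0 : (0 : ℝ) < N := by linarith
  have hN1r : (1 : ℝ) ≤ N := by linarith
  set Y : ℕ := 10 ^ N with hY
  have hYr : (Y : ℝ) = (10 : ℝ) ^ N := by rw [hY]; push_cast; rfl
  have hY10 : 10 ^ 1 ≤ Y := Nat.pow_le_pow_right (by norm_num) (by omega)
  have hY2 : 2 ≤ Y := by omega
  have hYr2 : (2 : ℝ) ≤ Y := by exact_mod_cast hY2
  have hYpos : (0 : ℝ) < Y := by linarith
  have hlY : Real.log Y = N * Real.log 10 := by rw [hYr, Real.log_pow]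
  have hlY1 : Real.log Y ≤ 3 * N := by rw [hlY]; nlinarith
  have hlY0 : N ≤ Real.log Y := by rw [hlY]; nlinarith
  have hlYpos : 0 < Real.log Y := by linarith
  have hlopos : 0 < lo F Y := lt_of_lt_of_le (by positivity) hlo
  obtain ⟨w, hwL, hwD, HW⟩ := HE Y hY0
  set C := Cs N P e with hC
  have hCc : (C.card : ℝ) = 10 ^ fr N P := by
    rw [hC, card_Cs N P e he]
    push_cast
    rfl
  have hCr : (0 : ℝ) < C.card := by rw [hCc]; positivity
  have hPZ : ∀ p ∈ PZ Y (24 / 25 * (39 / 50)), p.Prime ∧ p ≤ Y := by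
    intro p hp
    unfold PZ at hp
    rw [mem_filter, mem_Icc] at hp
    exact ⟨hp.2.1, hp.1.2⟩
  -- the error term
  have hDle : ((⌊(Y : ℝ) ^ (157 / 200 : ℝ)⌋₊ : ℕ) : ℝ) ≤ (10 : ℝ) ^ ((157 / 200 : ℝ) * N) := by
    refine (Nat.floor_le (by positivity)).trans (le_of_eq ?_)
    rw [hYr, ← Real.rpow_natCast, ← Real.rpow_mul (by norm_num)]
    congr 1
    ring
  have htot' := htot P hP ⌊(Y : ℝ) ^ (157 / 200 : ℝ)⌋₊ hDle
  have herr := err_T N P e he F h25 (PZ Y (24 / 25 * (39 / 50))) (fun p hp => (hPZ p hp).1) w (5 * Real.log Y) hwL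
    ⌊(Y : ℝ) ^ (157 / 200 : ℝ)⌋₊ (fun T hT hT0 => Nat.le_floor (hwD T hT hT0)) C0 (by
      intro T hT
      refine le_trans ?_ (hC0 T hT)
      rw [ro_prod F 0 T hT]
      push_cast
      calc ∏ p ∈ T, (ro F 0 p : ℝ) ≤ ∏ p ∈ T, (K : ℝ) := by
            apply Finset.prod_le_prod
            · intro p _; positivity
            · intro p hp
              exact_mod_cast hK p (hT p hp)
        _ = _ := by rw [prod_const]) (1 / lo F Y) (prod_upper F Y hlopos _ (by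
      intro p hp
      obtain ⟨h1, h2⟩ := hPZ p hp
      rw [mem_filter, mem_Icc]
      exact ⟨⟨h1.one_le, h2⟩, h1⟩))
  have hloc := lo_le_rr F Y
  have herr2 : (C.card : ℝ) * (5 * Real.log Y * (1 / lo F Y) * C0 *
      ∑ d ∈ (Icc 2 ⌊(Y : ℝ) ^ (157 / 200 : ℝ)⌋₊).filter (fun d => d.Coprime 10), (d : ℝ) ^ (-(999 / 1000) : ℝ) * SS N P d) ≤
      δ * C.card * ∏ p ∈ (Icc 1 Y).filter Nat.Prime, (1 - (rr F p : ℝ) / p) := by
    have h1 : 1 / lo F Y ≤ 3 * N / c := by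
      rw [div_le_div_iff₀ hlopos hc, one_mul]
      rw [div_le_iff₀ hlYpos] at hlo
      calc c ≤ lo F Y * Real.log Y := hlo
        _ ≤ lo F Y * (3 * N) := mul_le_mul_of_nonneg_left hlY1 hlopos.le
        _ = _ := by ring
    have h2 : c / (3 * N) ≤ lo F Y := by
      refine le_trans ?_ hlo
      exact div_le_div_of_nonneg_left hc.le hlYpos hlY1
    have h3 : 5 * Real.log Y * (1 / lo F Y) * C0 *
        ∑ d ∈ (Icc 2 ⌊(Y : ℝ) ^ (157 / 200 : ℝ)⌋₊).filter (fun d => d.Coprime 10),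
          (d : ℝ) ^ (-(999 / 1000) : ℝ) * SS N P d ≤
        5 * (3 * N) * (3 * N / c) * C0 * (N : ℝ) ^ (-(3004 / 1000) : ℝ) := by
      have h4 : 0 ≤ ∑ d ∈ (Icc 2 ⌊(Y : ℝ) ^ (157 / 200 : ℝ)⌋₊).filter (fun d => d.Coprime 10),
          (d : ℝ) ^ (-(999 / 1000) : ℝ) * SS N P d :=
        sum_nonneg fun d _ => mul_nonneg (by positivity) (SS_nonneg _ _ _)
      have h5 : 0 ≤ 1 / lo F Y := by positivity
      gcongr
    have h4 : 5 * (3 * N) * (3 * N / c) * C0 * (N : ℝ) ^ (-(3004 / 1000) : ℝ) ≤ δ * (c / (3 * N)) := by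
      have e1 : (N : ℝ) * N * (N : ℝ) ^ (-(3004 / 1000) : ℝ) = (N : ℝ) ^ (-(1004 / 1000) : ℝ) := by
        have : (N : ℝ) * N = (N : ℝ) ^ (2 : ℝ) := by
          rw [Real.rpow_two]
          ring
        rw [this, ← Real.rpow_add hN0]
        norm_num
      have e2 : (N : ℝ) ^ (-(1004 / 1000) : ℝ) * (N : ℝ) ^ (4 / 1000 : ℝ) = 1 / N := by
        rw [← Real.rpow_add hN0, one_div, ← Real.rpow_neg_one]
        norm_num
      have h5 : 135 * C0 ≤ (N : ℝ) ^ (4 / 1000 : ℝ) * (δ * c ^ 2) := by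
        rwa [div_le_iff₀ (by positivity)] at hN2
      have h6 : (0 : ℝ) < (N : ℝ) ^ (-(1004 / 1000) : ℝ) := by positivity
      have h7 : 135 * C0 * (N : ℝ) ^ (-(1004 / 1000) : ℝ) ≤ (1 / N) * (δ * c ^ 2) := by
        calc 135 * C0 * (N : ℝ) ^ (-(1004 / 1000) : ℝ) ≤
            (N : ℝ) ^ (4 / 1000 : ℝ) * (δ * c ^ 2) * (N : ℝ) ^ (-(1004 / 1000) : ℝ) :=
              mul_le_mul_of_nonneg_right h5 h6.le
          _ = ((N : ℝ) ^ (-(1004 / 1000) : ℝ) * (N : ℝ) ^ (4 / 1000 : ℝ)) * (δ * c ^ 2) := by ring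
          _ = _ := by rw [e2]
      calc 5 * (3 * N) * (3 * N / c) * C0 * (N : ℝ) ^ (-(3004 / 1000) : ℝ) =
          (135 * C0 * ((N : ℝ) * N * (N : ℝ) ^ (-(3004 / 1000) : ℝ))) / (3 * c) := by
            field_simp
            ring
        _ = (135 * C0 * (N : ℝ) ^ (-(1004 / 1000) : ℝ)) / (3 * c) := by rw [e1]
        _ ≤ ((1 / N) * (δ * c ^ 2)) / (3 * c) := div_le_div_of_nonneg_right h7 (by positivity)
        _ = _ := by field_simp
    calc (C.card : ℝ) * _ ≤ C.card * (δ * (c / (3 * N))) := mul_le_mul_of_nonneg_left (h3.trans h4) hCr.le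
      _ = δ * C.card * (c / (3 * N)) := by ring
      _ ≤ _ := mul_le_mul_of_nonneg_left (h2.trans hloc) (by positivity)
  -- the sieve
  have hmain := HW C (fun n => (F.eval (n : ℤ)).natAbs) (rr F) Y (by rw [Real.rpow_one])
    (fun p hp => (rr_le F p).trans (hK p hp)) (fun p _ => (rr_le F p).trans (ro_le_self F 0 p)) (by
      intro a b h1 h2 h3
      have h4 := hmer a b h1 h2 h3
      have h5 : ∑ p ∈ (pr Y ε₁ (24 / 25 * (39 / 50))).filter (fun p => a ≤ tt Y p ∧ tt Y p < b), (rr F p : ℝ) / p =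
          ∑ p ∈ (pr Y ε₁ (24 / 25 * (39 / 50))).filter (fun p => a ≤ tt Y p ∧ tt Y p < b), (ro F 0 p : ℝ) / p := by
        apply sum_congr rfl
        intro p hp
        have hp1 := (mem_filter.1 hp).1
        unfold pr at hp1
        rw [mem_filter] at hp1
        have h7 : (Y : ℝ) ^ ε₁ ≤ p := by
          by_contra h8
          push Not at h8
          exact absurd ((tt_lt Y p ε₁ hY2 hp1.2.1.pos).2 h8) (not_lt.2 hp1.2.2.1)
        have h8 : (6 : ℝ) ≤ p := h6.trans h7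
        have h9 : 6 ≤ p := by exact_mod_cast h8
        unfold rr
        rw [if_neg (by omega)]
      rw [h5]
      exact h4) (herr.trans herr2)
  have hmain2 : δ * c / 3 * 10 ^ fr N P / N ≤
      ((C.filter (fun j : ℕ => 0 < WW Y (39 / 50 / 4) (24 / 25 * (39 / 50)) (8 / 9) (8 / 9 / (24 / 25 * (39 / 50)))
        (F.eval (j : ℤ)).natAbs)).card : ℝ) := by
    refine le_trans ?_ hmain
    have h2 : c / (3 * N) ≤ lo F Y := by
      refine le_trans ?_ hlo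
      exact div_le_div_of_nonneg_left hc.le hlYpos hlY1
    calc δ * c / 3 * 10 ^ fr N P / N = δ * C.card * (c / (3 * N)) := by
          rw [hCc]
          field_simp
      _ ≤ _ := mul_le_mul_of_nonneg_left (h2.trans hloc) (by positivity)
  -- the squares
  set B := pr Y (39 / 50 / 4) (24 / 25 * (39 / 50)) with hB
  have hBm : ∀ q ∈ B, q.Prime ∧ (Y : ℝ) ^ (39 / 50 / 4 : ℝ) ≤ q ∧ (q : ℝ) ≤ (Y : ℝ) ^ (24 / 25 * (39 / 50) : ℝ) := by
    intro q hq
    rw [hB] at hq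
    unfold pr at hq
    rw [mem_filter] at hq
    refine ⟨hq.2.1, ?_, ((tt_lt Y q _ hY2 hq.2.1.pos).1 hq.2.2.2).le⟩
    by_contra h8
    push Not at h8
    exact absurd ((tt_lt Y q _ hY2 hq.2.1.pos).2 h8) (not_lt.2 hq.2.2.1)
  set Bad := C.filter (fun n : ℕ => ∃ q ∈ B, q ^ 2 ∣ (F.eval (n : ℤ)).natAbs) with hBad
  have hCsub : C ⊆ range Y := by
    rw [hC]
    unfold Cs
    exact filter_subset _ _
  have hBadcard : (Bad.card : ℝ) ≤ K2 * ((10 : ℝ) ^ N * (2 / (Y : ℝ) ^ (39 / 50 / 4 : ℝ)) +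
      (Y : ℝ) ^ (24 / 25 * (39 / 50) : ℝ)) := by
    have h1 : Bad ⊆ B.biUnion (fun q => (range Y).filter (fun n : ℕ => q ^ 2 ∣ (F.eval (n : ℤ)).natAbs)) := by
      intro n hn
      rw [hBad, mem_filter] at hn
      obtain ⟨hnC, q, hq, hqd⟩ := hn
      rw [mem_biUnion]
      exact ⟨q, hq, by rw [mem_filter]; exact ⟨hCsub hnC, hqd⟩⟩
    have h2 : (Bad.card : ℝ) ≤ ∑ q ∈ B, (((range Y).filter (fun n : ℕ => q ^ 2 ∣ (F.eval (n : ℤ)).natAbs)).card : ℝ) := by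
      exact_mod_cast (card_le_card h1).trans card_biUnion_le
    refine h2.trans ?_
    calc ∑ q ∈ B, (((range Y).filter (fun n : ℕ => q ^ 2 ∣ (F.eval (n : ℤ)).natAbs)).card : ℝ) ≤
        ∑ q ∈ B, K2 * ((10 : ℝ) ^ N * (1 / (q : ℝ) ^ 2) + 1) := by
          apply sum_le_sum
          intro q hq
          exact hsq q (hBm q hq).1 (hBm q hq).2.1
      _ = K2 * ((10 : ℝ) ^ N * (∑ q ∈ B, 1 / (q : ℝ) ^ 2) + B.card) := by
          rw [← mul_sum, sum_add_distrib, ← mul_sum, sum_const, nsmul_eq_mul, mul_one]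
      _ ≤ _ := by
          apply mul_le_mul_of_nonneg_left _ hK2
          apply add_le_add
          · apply mul_le_mul_of_nonneg_left _ (by positivity)
            exact tail_sq B _ hN4 (fun q hq => (hBm q hq).2.1)
          · exact card_lt B _ (by positivity) (fun q hq => ⟨(hBm q hq).1.one_le, (hBm q hq).2.2⟩)
  have hfr : (11 / 12 : ℝ) * N - 1 ≤ fr N P := by
    have h1 := np_add_fr N P
    have h2 : (np N P : ℝ) + fr N P = N := by exact_mod_cast h1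
    have h3 : 12 * (np N P : ℝ) ≤ N + 12 := by exact_mod_cast hP
    linarith
  have hBad2 : (Bad.card : ℝ) ≤ δ * c / 6 * 10 ^ fr N P / N := by
    refine hBadcard.trans ?_
    have p1 : (10 : ℝ) ^ N * (2 / (Y : ℝ) ^ (39 / 50 / 4 : ℝ)) = 2 * (10 : ℝ) ^ ((1 - 39 / 50 / 4) * (N : ℝ)) := by
      rw [hYr, ← Real.rpow_natCast 10 N, ← Real.rpow_mul (by norm_num), mul_div_assoc', mul_comm _ (2 : ℝ),
        mul_div_assoc, ← Real.rpow_sub (by norm_num)]
      congr 2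
      ring
    have p2 : (Y : ℝ) ^ (24 / 25 * (39 / 50) : ℝ) ≤ (10 : ℝ) ^ ((1 - 39 / 50 / 4) * (N : ℝ)) := by
      rw [hYr, ← Real.rpow_natCast, ← Real.rpow_mul (by norm_num)]
      apply Real.rpow_le_rpow_of_exponent_le (by norm_num)
      nlinarith
    have p3 : (10 : ℝ) ^ ((1 - 39 / 50 / 4) * (N : ℝ)) ≤ (10 : ℝ) ^ fr N P * (10 * Real.exp (-(1 / 10) * N)) := by
      have e1 : Real.exp (-(1 / 10) * (N : ℝ)) = (10 : ℝ) ^ (-(1 / 10) * (N : ℝ) / Real.log 10) := by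
        rw [Real.rpow_def_of_pos (by norm_num)]
        congr 1
        field_simp
      rw [e1, ← Real.rpow_natCast 10 (fr N P)]
      have e2 : (10 : ℝ) ^ ((fr N P : ℕ) : ℝ) * (10 * (10 : ℝ) ^ (-(1 / 10) * (N : ℝ) / Real.log 10)) =
          (10 : ℝ) ^ (((fr N P : ℕ) : ℝ) + 1 + (-(1 / 10) * (N : ℝ) / Real.log 10)) := by
        rw [Real.rpow_add (by norm_num), Real.rpow_add (by norm_num), Real.rpow_one]
        ring
      rw [e2]
      apply Real.rpow_le_rpow_of_exponent_le (by norm_num)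
      have h1 : -(1 / 10) * (N : ℝ) ≤ -(1 / 10) * (N : ℝ) / Real.log 10 := by
        rw [le_div_iff₀ (by linarith)]
        nlinarith
      linarith
    have p4 : 0 < (10 : ℝ) ^ fr N P := by positivity
    rw [Real.rpow_one] at hN3
    have p5 : (N : ℝ) * Real.exp (-(1 / 10) * N) * (30 * K2) ≤ δ * c / 6 := by
      have h1 : (N : ℝ) * Real.exp (-(1 / 10) * N) * (30 * K2) ≤ δ * c / (6 * 3 * 10 * (K2 + 1)) * (30 * K2) :=
        mul_le_mul_of_nonneg_right hN3 (by positivity)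
      refine h1.trans ?_
      rw [div_mul_eq_mul_div, div_le_div_iff₀ (by positivity) (by norm_num)]
      have : 0 < δ * c := by positivity
      nlinarith
    calc K2 * ((10 : ℝ) ^ N * (2 / (Y : ℝ) ^ (39 / 50 / 4 : ℝ)) + (Y : ℝ) ^ (24 / 25 * (39 / 50) : ℝ)) ≤
        K2 * (3 * (10 : ℝ) ^ ((1 - 39 / 50 / 4) * (N : ℝ))) := by
          apply mul_le_mul_of_nonneg_left _ hK2
          rw [p1]
          linarith
      _ ≤ K2 * (3 * ((10 : ℝ) ^ fr N P * (10 * Real.exp (-(1 / 10) * N)))) := by gcongr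
      _ = ((N : ℝ) * Real.exp (-(1 / 10) * N) * (30 * K2)) * 10 ^ fr N P / N := by
          field_simp
          ring
      _ ≤ _ := by
          apply div_le_div_of_nonneg_right _ hN0.le
          exact mul_le_mul_of_nonneg_right p5 p4.le
  -- the conclusion
  set Pos := C.filter (fun j : ℕ => 0 < WW Y (39 / 50 / 4) (24 / 25 * (39 / 50)) (8 / 9) (8 / 9 / (24 / 25 * (39 / 50)))
        (F.eval (j : ℤ)).natAbs) with hPos
  have hsub : Pos ⊆ (C.filter (fun n : ℕ => (F.eval (n : ℤ)).natAbs.primeFactorsList.length ≤ 3 ∧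
          ∀ p : ℕ, p.Prime → p ∣ (F.eval (n : ℤ)).natAbs → ((Y : ℝ)) ^ (39 / 50 / 4 : ℝ) ≤ p)) ∪ Bad := by
    intro n hn
    rw [hPos, mem_filter] at hn
    rw [mem_union]
    by_cases hb : ∃ q ∈ B, q ^ 2 ∣ (F.eval (n : ℤ)).natAbs
    · right
      rw [hBad, mem_filter]
      exact ⟨hn.1, hb⟩
    · left
      push Not at hb
      rw [mem_filter]
      refine ⟨hn.1, ?_⟩
      have hnY := mem_range.1 (hCsub hn.1)
      obtain ⟨s1, s2⟩ := hsize n hnY
      exact almost Y hY2 (39 / 50 / 4) (24 / 25 * (39 / 50)) (8 / 9) S 3 (by norm_num) (by norm_num) (by norm_num)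
        (by norm_num) (by
          have : S / (24 / 25 * (39 / 50)) ≤ (43 / 20) / (24 / 25 * (39 / 50)) :=
            div_le_div_of_nonneg_right hS (by norm_num)
          norm_num at this ⊢
          linarith) _ s1 s2 hn.2 hb
  have hcard := (card_le_card hsub).trans (card_union_le _ _)
  have hcardr : (Pos.card : ℝ) ≤ ((C.filter (fun n : ℕ => (F.eval (n : ℤ)).natAbs.primeFactorsList.length ≤ 3 ∧
          ∀ p : ℕ, p.Prime → p ∣ (F.eval (n : ℤ)).natAbs → ((Y : ℝ)) ^ (39 / 50 / 4 : ℝ) ≤ p)).card : ℝ) + Bad.card := by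
    exact_mod_cast hcard
  have e3 : δ * c / 3 * 10 ^ fr N P / N = δ * c / 6 * 10 ^ fr N P / N + δ * c / 6 * 10 ^ fr N P / N := by ring
  linarith

end Pool.Agent.L5helper11.MD
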