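import Pool.Agent.L5helper11.MD.Cnt

/-!
# The error term of the sieve
-/

set_option autoImplicit false

namespace Pool.Agent.L5helper11.MD

open Finset Pool.Agent.Helper112 Filter Polynomial
open Pool.Agent.Y882.PX (ro ro_prod pf_prod)

/-- the densities: nothing is removed at the primes `2` and `5` -/
noncomputable def rr (F : ℤ[X]) (p : ℕ) : ℕ := if p = 2 ∨ p = 5 then 0 else ro F 0 p

lemma cop_ten_of_prime {p : ℕ} (hp : p.Prime) (h2 : p ≠ 2) (h5 : p ≠ 5) : p.Coprime 10 := by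
  rw [Nat.Prime.coprime_iff_not_dvd hp]
  intro h
  have h10 : (10 : ℕ) = 2 * 5 := by norm_num
  rw [h10, hp.dvd_mul] at h
  rcases h with h | h
  · exact h2 ((Nat.prime_dvd_prime_iff_eq hp Nat.prime_two).1 h)
  · exact h5 ((Nat.prime_dvd_prime_iff_eq hp Nat.prime_five).1 h)

/-- combinatorial rearrangement -/
lemma swap_sum (Q : Finset ℕ) (hQ : ∀ p ∈ Q, 1 ≤ p) (D : ℕ) (x : ℕ → ℝ) (hx : ∀ p ∈ Q, 0 ≤ x p) (s : ℕ → ℝ)
    (hs : ∀ d, 0 ≤ s d) :
    ∑ T ∈ Q.powerset.filter (fun T => ∏ p ∈ T, p ≤ D), (∏ p ∈ T, x p) * ∑ U ∈ T.powerset.erase ∅, s (∏ p ∈ U, p) ≤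
      (∏ p ∈ Q, (1 + x p)) *
        ∑ U ∈ (Q.powerset.erase ∅).filter (fun U => ∏ p ∈ U, p ≤ D), (∏ p ∈ U, x p) * s (∏ p ∈ U, p) := by
  classical
  have hpos : ∀ T ⊆ Q, 0 ≤ ∏ p ∈ T, x p := fun T hT => prod_nonneg fun p hp => hx p (hT hp)
  have h1 : ∑ T ∈ Q.powerset.filter (fun T => ∏ p ∈ T, p ≤ D), (∏ p ∈ T, x p) * ∑ U ∈ T.powerset.erase ∅, s (∏ p ∈ U, p) =
      ∑ U ∈ (Q.powerset.erase ∅).filter (fun U => ∏ p ∈ U, p ≤ D),
        ∑ T ∈ (Q.powerset.filter (fun T => ∏ p ∈ T, p ≤ D)).filter (fun T => U ⊆ T),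
          (∏ p ∈ T, x p) * s (∏ p ∈ U, p) := by
    simp_rw [mul_sum]
    apply sum_comm'
    intro T U
    simp only [mem_filter, mem_powerset, mem_erase]
    constructor
    · rintro ⟨⟨h1, h2⟩, h3, h4⟩
      refine ⟨⟨⟨h1, h2⟩, h4⟩, ⟨h3, h4.trans h1⟩, ?_⟩
      refine le_trans ?_ h2
      apply prod_le_prod_of_subset_of_one_le' h4
      intro p hp _
      exact hQ p (h1 hp)
    · rintro ⟨⟨⟨h1, h2⟩, h4⟩, ⟨h3, h5⟩, h6⟩
      exact ⟨⟨h1, h2⟩, h3, h4⟩
  rw [h1, mul_sum]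
  apply sum_le_sum
  intro U hU
  rw [mem_filter, mem_erase, mem_powerset] at hU
  rw [← sum_mul]
  have h2 : ∑ T ∈ (Q.powerset.filter (fun T => ∏ p ∈ T, p ≤ D)).filter (fun T => U ⊆ T), ∏ p ∈ T, x p ≤
      (∏ p ∈ Q, (1 + x p)) * ∏ p ∈ U, x p := by
    have h3 : ∀ T ∈ (Q.powerset.filter (fun T => ∏ p ∈ T, p ≤ D)).filter (fun T => U ⊆ T),
        ∏ p ∈ T, x p = (∏ p ∈ T \ U, x p) * ∏ p ∈ U, x p := by
      intro T hT
      rw [mem_filter] at hT
      exact (prod_sdiff hT.2).symm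
    rw [sum_congr rfl h3, ← sum_mul]
    apply mul_le_mul_of_nonneg_right _ (hpos U hU.1.2)
    rw [prod_one_add]
    have hinj : Set.InjOn (fun T => T \ U) ((Q.powerset.filter (fun T => ∏ p ∈ T, p ≤ D)).filter (fun T => U ⊆ T)) := by
      intro T hT T' hT' h
      rw [mem_coe, mem_filter] at hT hT'
      have h4 : T \ U ∪ U = T := sdiff_union_of_subset hT.2
      have h5 : T' \ U ∪ U = T' := sdiff_union_of_subset hT'.2
      rw [← h4, ← h5]
      simp only at h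
      rw [h]
    rw [← sum_image (f := fun V => ∏ p ∈ V, x p) hinj]
    apply sum_le_sum_of_subset_of_nonneg
    · intro V hV
      rw [mem_image] at hV
      obtain ⟨T, hT, rfl⟩ := hV
      rw [mem_filter, mem_filter, mem_powerset] at hT
      rw [mem_powerset]
      exact sdiff_subset.trans hT.1.1
    · intro V hV _
      exact hpos V (mem_powerset.1 hV)
  calc (∑ T ∈ (Q.powerset.filter (fun T => ∏ p ∈ T, p ≤ D)).filter (fun T => U ⊆ T), ∏ p ∈ T, x p) * s (∏ p ∈ U, p) ≤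
      ((∏ p ∈ Q, (1 + x p)) * ∏ p ∈ U, x p) * s (∏ p ∈ U, p) := mul_le_mul_of_nonneg_right h2 (hs _)
    _ = _ := by ring

theorem err_T (N : ℕ) (P : ℕ → Prop) (e : ℕ → ℕ) (he : ∀ i, e i < 10) (F : ℤ[X])
    (hF : ∀ n ∈ Cs N P e, ¬ 2 ∣ (F.eval (n : ℤ)).natAbs ∧ ¬ 5 ∣ (F.eval (n : ℤ)).natAbs)
    (Q : Finset ℕ) (hQ : ∀ p ∈ Q, p.Prime) (c : Finset ℕ → ℝ) (L : ℝ) (hL : ∀ T, |c T| ≤ L) (D : ℕ)
    (hc : ∀ T ⊆ Q, c T ≠ 0 → ∏ p ∈ T, p ≤ D) (C0 : ℝ)
    (hro : ∀ T : Finset ℕ, (∀ p ∈ T, p.Prime) → (ro F 0 (∏ p ∈ T, p) : ℝ) ≤ C0 * ((∏ p ∈ T, p : ℕ) : ℝ) ^ (1 / 1000 : ℝ))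
    (M : ℝ) (hM : ∏ p ∈ Q, (1 + (rr F p : ℝ) / p) ≤ M) :
    |∑ T ∈ Q.powerset, c T * ((((Cs N P e).filter (fun j : ℕ => ∏ p ∈ T, p ∣ (F.eval (j : ℤ)).natAbs)).card : ℝ) -
      (Cs N P e).card * ∏ p ∈ T, ((rr F p : ℝ) / p))| ≤
      (Cs N P e).card * (L * M * C0 * ∑ d ∈ (Icc 2 D).filter (fun d => d.Coprime 10),
        (d : ℝ) ^ (-(999 / 1000) : ℝ) * SS N P d) := by
  classical
  set C := Cs N P e with hC
  have hL0 : 0 ≤ L := (abs_nonneg _).trans (hL ∅)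
  have hCr : (0 : ℝ) ≤ C.card := Nat.cast_nonneg _
  set Q' := Q.filter (fun p => ¬ (p = 2 ∨ p = 5)) with hQ'
  have hQ'p : ∀ p ∈ Q', p.Prime := fun p hp => hQ p (mem_filter.1 hp).1
  have hQ'1 : ∀ p ∈ Q', 1 ≤ p := fun p hp => (hQ'p p hp).one_le
  set x : ℕ → ℝ := fun p => (rr F p : ℝ) / p with hx
  have hx0 : ∀ p, 0 ≤ x p := fun p => by rw [hx]; positivity
  -- the single terms
  have hterm : ∀ T ∈ Q.powerset, |c T * (((C.filter (fun j : ℕ => ∏ p ∈ T, p ∣ (F.eval (j : ℤ)).natAbs)).card : ℝ) -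
      C.card * ∏ p ∈ T, x p)| ≤ if T ⊆ Q' ∧ ∏ p ∈ T, p ≤ D then
        L * C.card * ((∏ p ∈ T, x p) * ∑ U ∈ T.powerset.erase ∅, SS N P (∏ p ∈ U, p)) else 0 := by
    intro T hT
    rw [mem_powerset] at hT
    by_cases hc0 : c T = 0
    · rw [hc0, zero_mul, abs_zero]
      split_ifs with h
      · apply mul_nonneg (mul_nonneg hL0 hCr)
        apply mul_nonneg (prod_nonneg fun p _ => hx0 p)
        exact sum_nonneg fun _ _ => SS_nonneg _ _ _
      · exact le_rfl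
    have hTD := hc T hT hc0
    by_cases hT' : T ⊆ Q'
    · rw [if_pos ⟨hT', hTD⟩, abs_mul]
      have hTp : ∀ p ∈ T, p.Prime := fun p hp => hQ p (hT hp)
      have hpos : 0 < ∏ p ∈ T, p := Nat.pos_of_ne_zero (prod_ne_zero_iff.2 fun p hp => (hTp p hp).ne_zero)
      have h1 := poly_cnt N P e he F hpos
      have h2 : (ro F 0 (∏ p ∈ T, p) : ℝ) / ((∏ p ∈ T, p : ℕ) : ℝ) = ∏ p ∈ T, x p := by
        rw [ro_prod F 0 T hTp]
        push_cast
        rw [← prod_div_distrib]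
        apply prod_congr rfl
        intro p hp
        rw [hx]
        simp only
        unfold rr
        rw [if_neg (mem_filter.1 (hT' hp)).2]
      rw [h2, ← hC, UU_prod N P T hTp] at h1
      calc |c T| * |((C.filter (fun j : ℕ => ∏ p ∈ T, p ∣ (F.eval (j : ℤ)).natAbs)).card : ℝ) - C.card * ∏ p ∈ T, x p| ≤
          L * (C.card * (∏ p ∈ T, x p) * ∑ U ∈ T.powerset.erase ∅, SS N P (∏ p ∈ U, p)) :=
            mul_le_mul (hL T) h1 (abs_nonneg _) hL0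
        _ = _ := by ring
    · rw [if_neg (fun h => hT' h.1)]
      -- T contains 2 or 5
      obtain ⟨p, hpT, hp25⟩ : ∃ p ∈ T, p = 2 ∨ p = 5 := by
        by_contra hcon
        push Not at hcon
        apply hT'
        intro p hp
        rw [hQ', mem_filter]
        refine ⟨hT hp, ?_⟩
        push Not
        exact hcon p hp
      have h1 : C.filter (fun j : ℕ => ∏ p ∈ T, p ∣ (F.eval (j : ℤ)).natAbs) = ∅ := by
        rw [filter_eq_empty_iff]
        intro j hj hd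
        have h2 : p ∣ (F.eval (j : ℤ)).natAbs := (dvd_prod_of_mem _ hpT).trans hd
        rcases hp25 with rfl | rfl
        · exact (hF j hj).1 h2
        · exact (hF j hj).2 h2
      have h2 : ∏ p ∈ T, x p = 0 := by
        apply prod_eq_zero hpT
        rw [hx]
        simp only
        unfold rr
        rw [if_pos hp25]
        simp
      rw [h1, h2]
      simp
  have hM' : ∏ p ∈ Q', (1 + x p) ≤ M := by
    refine le_trans ?_ hM
    apply prod_le_prod_of_subset_of_one_le (filter_subset _ _)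
    · intro p _
      have := hx0 p
      linarith
    · intro p _ _
      have : 0 ≤ (rr F p : ℝ) / p := hx0 p
      linarith
  have hM0 : 0 ≤ ∏ p ∈ Q', (1 + x p) := prod_nonneg fun p _ => by
    have := hx0 p
    linarith
  have hC0 : 0 ≤ C0 := by
    have := hro ∅ (by simp)
    simp at this
    exact le_trans (by positivity) this
  have hsum := swap_sum Q' hQ'1 D x (fun p _ => hx0 p) (SS N P) (SS_nonneg N P)
  -- the sum over the products
  have hU : ∑ U ∈ (Q'.powerset.erase ∅).filter (fun U => ∏ p ∈ U, p ≤ D), (∏ p ∈ U, x p) * SS N P (∏ p ∈ U, p) ≤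
      C0 * ∑ d ∈ (Icc 2 D).filter (fun d => d.Coprime 10), (d : ℝ) ^ (-(999 / 1000) : ℝ) * SS N P d := by
    have h1 : ∀ U ∈ (Q'.powerset.erase ∅).filter (fun U => ∏ p ∈ U, p ≤ D), (∏ p ∈ U, x p) * SS N P (∏ p ∈ U, p) ≤
        C0 * ((((∏ p ∈ U, p : ℕ) : ℝ)) ^ (-(999 / 1000) : ℝ) * SS N P (∏ p ∈ U, p)) := by
      intro U hU
      rw [mem_filter, mem_erase, mem_powerset] at hU
      have hUp : ∀ p ∈ U, p.Prime := fun p hp => hQ'p p (hU.1.2 hp)
      have hpos : 0 < ∏ p ∈ U, p := Nat.pos_of_ne_zero (prod_ne_zero_iff.2 fun p hp => (hUp p hp).ne_zero)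
      have hposr : (0 : ℝ) < ((∏ p ∈ U, p : ℕ) : ℝ) := by exact_mod_cast hpos
      have h2 : ∏ p ∈ U, x p = (ro F 0 (∏ p ∈ U, p) : ℝ) / ((∏ p ∈ U, p : ℕ) : ℝ) := by
        rw [ro_prod F 0 U hUp]
        push_cast
        rw [← prod_div_distrib]
        apply prod_congr rfl
        intro p hp
        rw [hx]
        simp only
        unfold rr
        rw [if_neg (mem_filter.1 (hU.1.2 hp)).2]
      have h3 : ∏ p ∈ U, x p ≤ C0 * ((∏ p ∈ U, p : ℕ) : ℝ) ^ (-(999 / 1000) : ℝ) := by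
        rw [h2, div_le_iff₀ hposr]
        refine (hro U hUp).trans (le_of_eq ?_)
        rw [mul_assoc]
        congr 1
        conv_rhs => rw [← Real.rpow_one ((∏ p ∈ U, p : ℕ) : ℝ), ← Real.rpow_mul hposr.le, ← Real.rpow_add hposr]
        norm_num
      calc (∏ p ∈ U, x p) * SS N P (∏ p ∈ U, p) ≤
          (C0 * ((∏ p ∈ U, p : ℕ) : ℝ) ^ (-(999 / 1000) : ℝ)) * SS N P (∏ p ∈ U, p) :=
            mul_le_mul_of_nonneg_right h3 (SS_nonneg _ _ _)
        _ = _ := by ring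
    refine (sum_le_sum h1).trans ?_
    rw [← mul_sum]
    apply mul_le_mul_of_nonneg_left _ hC0
    have hinj : Set.InjOn (fun U : Finset ℕ => ∏ p ∈ U, p) ((Q'.powerset.erase ∅).filter (fun U => ∏ p ∈ U, p ≤ D)) := by
      intro U hU V hV h
      rw [mem_coe, mem_filter, mem_erase, mem_powerset] at hU hV
      rw [← pf_prod U (fun p hp => hQ'p p (hU.1.2 hp)), ← pf_prod V (fun p hp => hQ'p p (hV.1.2 hp))]
      simp only at h
      rw [h]
    rw [← sum_image (f := fun d : ℕ => (d : ℝ) ^ (-(999 / 1000) : ℝ) * SS N P d) hinj]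
    apply sum_le_sum_of_subset_of_nonneg
    · intro d hd
      rw [mem_image] at hd
      obtain ⟨U, hU, rfl⟩ := hd
      rw [mem_filter, mem_erase, mem_powerset] at hU
      have hUp : ∀ p ∈ U, p.Prime := fun p hp => hQ'p p (hU.1.2 hp)
      rw [mem_filter, mem_Icc]
      refine ⟨⟨?_, hU.2⟩, ?_⟩
      · obtain ⟨p, hp⟩ := nonempty_iff_ne_empty.2 hU.1.1
        have h1 : p ∣ ∏ p ∈ U, p := dvd_prod_of_mem _ hp
        have hpos : 0 < ∏ p ∈ U, p := Nat.pos_of_ne_zero (prod_ne_zero_iff.2 fun p hp => (hUp p hp).ne_zero)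
        exact (hUp p hp).two_le.trans (Nat.le_of_dvd hpos h1)
      · apply Nat.Coprime.prod_left
        intro p hp
        have h2 := (mem_filter.1 (hU.1.2 hp)).2
        push Not at h2
        exact cop_ten_of_prime (hUp p hp) h2.1 h2.2
    · intro d _ _
      exact mul_nonneg (by positivity) (SS_nonneg _ _ _)
  have hSS0 : 0 ≤ ∑ d ∈ (Icc 2 D).filter (fun d => d.Coprime 10), (d : ℝ) ^ (-(999 / 1000) : ℝ) * SS N P d :=
    sum_nonneg fun d _ => mul_nonneg (by positivity) (SS_nonneg _ _ _)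
  refine (abs_sum_le_sum_abs _ _).trans ((sum_le_sum hterm).trans ?_)
  have h1 : ∑ T ∈ Q.powerset, (if T ⊆ Q' ∧ ∏ p ∈ T, p ≤ D then
        L * C.card * ((∏ p ∈ T, x p) * ∑ U ∈ T.powerset.erase ∅, SS N P (∏ p ∈ U, p)) else 0) =
      L * C.card * ∑ T ∈ Q'.powerset.filter (fun T => ∏ p ∈ T, p ≤ D),
        (∏ p ∈ T, x p) * ∑ U ∈ T.powerset.erase ∅, SS N P (∏ p ∈ U, p) := by
    rw [← sum_filter, mul_sum]
    apply sum_congr _ (fun _ _ => rfl)
    ext T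
    simp only [mem_filter, mem_powerset]
    constructor
    · rintro ⟨_, h2, h3⟩
      exact ⟨h2, h3⟩
    · rintro ⟨h2, h3⟩
      exact ⟨h2.trans (filter_subset _ _), h2, h3⟩
  rw [h1]
  calc L * C.card * ∑ T ∈ Q'.powerset.filter (fun T => ∏ p ∈ T, p ≤ D),
        (∏ p ∈ T, x p) * ∑ U ∈ T.powerset.erase ∅, SS N P (∏ p ∈ U, p) ≤
      L * C.card * ((∏ p ∈ Q', (1 + x p)) *
        ∑ U ∈ (Q'.powerset.erase ∅).filter (fun U => ∏ p ∈ U, p ≤ D), (∏ p ∈ U, x p) * SS N P (∏ p ∈ U, p)) :=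
        mul_le_mul_of_nonneg_left hsum (mul_nonneg hL0 hCr)
    _ ≤ L * C.card * (M * (C0 * ∑ d ∈ (Icc 2 D).filter (fun d => d.Coprime 10),
          (d : ℝ) ^ (-(999 / 1000) : ℝ) * SS N P d)) := by
        apply mul_le_mul_of_nonneg_left _ (mul_nonneg hL0 hCr)
        apply mul_le_mul hM' hU _ (hM0.trans hM')
        apply sum_nonneg
        intro U _
        exact mul_nonneg (prod_nonneg fun p _ => hx0 p) (SS_nonneg _ _ _)
    _ = _ := by ring

end Pool.Agent.L5helper11.MD
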