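import Pool.Agent.L5helper11.MD.L1

/-!
# Sums over the Farey fractions
-/

set_option autoImplicit false

namespace Pool.Agent.L5helper11.MD

open Finset Pool.Agent.Helper112

/-- the reduced fractions `h / e` with `1 ≤ e ≤ E`, `0 ≤ h < e` -/
def SF (E : ℕ) : Finset ((_ : ℕ) × ℕ) := (Icc 1 E).sigma fun e => (range e).filter fun h => h.Coprime e

lemma mem_SF {E : ℕ} {x : (_ : ℕ) × ℕ} : x ∈ SF E ↔ 1 ≤ x.1 ∧ x.1 ≤ E ∧ x.2 < x.1 ∧ x.2.Coprime x.1 := by
  unfold SF
  rw [mem_sigma, mem_Icc, mem_filter, mem_range]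
  tauto

lemma cop_inj {h q h' q' : ℕ} (hc : h.Coprime q) (hc' : h'.Coprime q') (hq : 0 < q) (e : h * q' = h' * q) :
    q = q' ∧ h = h' := by
  have h1 : q ∣ q' := by
    have : q ∣ h * q' := ⟨h', by rw [e]; ring⟩
    exact (Nat.Coprime.dvd_mul_left hc.symm).1 this
  have h2 : q' ∣ q := by
    have : q' ∣ h' * q := ⟨h, by rw [← e]; ring⟩
    exact (Nat.Coprime.dvd_mul_left hc'.symm).1 this
  have h3 := Nat.dvd_antisymm h1 h2
  subst h3
  exact ⟨rfl, Nat.eq_of_mul_eq_mul_right hq e⟩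

/-- distinct reduced fractions have distinct `⌊E ^ 2 h / e⌋` -/
lemma flr_inj {E : ℕ} {x y : (_ : ℕ) × ℕ} (hx : x ∈ SF E) (hy : y ∈ SF E)
    (h : E ^ 2 * x.2 / x.1 = E ^ 2 * y.2 / y.1) : x = y := by
  rw [mem_SF] at hx hy
  obtain ⟨hx1, hx2, hx3, hx4⟩ := hx
  obtain ⟨hy1, hy2, hy3, hy4⟩ := hy
  set v := E ^ 2 * x.2 / x.1 with hv
  have a1 : v * x.1 ≤ E ^ 2 * x.2 := by rw [hv]; exact Nat.div_mul_le_self _ _
  have a2 : E ^ 2 * x.2 < (v + 1) * x.1 := by
    rw [hv, mul_comm _ x.1]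
    exact Nat.lt_mul_div_succ _ (by omega)
  have b1 : v * y.1 ≤ E ^ 2 * y.2 := by rw [h]; exact Nat.div_mul_le_self _ _
  have b2 : E ^ 2 * y.2 < (v + 1) * y.1 := by
    rw [h, mul_comm _ y.1]
    exact Nat.lt_mul_div_succ _ (by omega)
  have hxy : x.1 * y.1 ≤ E ^ 2 := by
    rw [pow_two]
    exact Nat.mul_le_mul hx2 hy2
  have hE : 0 < E ^ 2 := by
    have : 0 < E := by omega
    positivity
  -- |x.2 y.1 - y.2 x.1| < 1
  have key : ∀ (a b c d : ℕ), v * a ≤ E ^ 2 * b → E ^ 2 * d < (v + 1) * c → 0 < a → a * c ≤ E ^ 2 → d * a ≤ b * c := by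
    intro a b c d h1 h2 h3 h4
    by_contra hcon
    push Not at hcon
    have h5 : E ^ 2 * (b * c) + E ^ 2 ≤ E ^ 2 * (d * a) := by
      calc E ^ 2 * (b * c) + E ^ 2 = E ^ 2 * (b * c + 1) := by ring
        _ ≤ E ^ 2 * (d * a) := Nat.mul_le_mul_left _ hcon
    have h6 : E ^ 2 * (d * a) < (v + 1) * c * a := by
      calc E ^ 2 * (d * a) = (E ^ 2 * d) * a := by ring
        _ < (v + 1) * c * a := Nat.mul_lt_mul_of_pos_right h2 h3
    have h7 : v * a * c ≤ E ^ 2 * (b * c) := by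
      calc v * a * c ≤ E ^ 2 * b * c := Nat.mul_le_mul_right _ h1
        _ = _ := by ring
    have h8 : (v + 1) * c * a = v * a * c + a * c := by ring
    omega
  have k1 := key x.1 x.2 y.1 y.2 a1 b2 (by omega) hxy
  have k2 := key y.1 y.2 x.1 x.2 b1 a2 (by omega) (by rw [mul_comm]; exact hxy)
  have h1 : x.2 * y.1 = y.2 * x.1 := le_antisymm k2 k1
  obtain ⟨h2, h3⟩ := cop_inj hx4 hy4 (by omega) h1
  obtain ⟨x1, x2⟩ := x
  obtain ⟨y1, y2⟩ := y
  simp only at h2 h3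
  subst h2
  subst h3
  rfl

/-- a cell of length `1 / M` contains few reduced fractions -/
lemma cell_card (E M c : ℕ) (hM : 0 < M) :
    ((((SF E).filter fun x => M * x.2 / x.1 = c).card : ℕ) : ℝ) ≤ (E : ℝ) ^ 2 / M + 2 := by
  set L := E ^ 2 * c / M with hL
  set w := E ^ 2 / M with hw
  have hsub : ((SF E).filter fun x => M * x.2 / x.1 = c).card ≤ (Icc L (L + w + 1)).card := by
    apply card_le_card_of_injOn (fun x => E ^ 2 * x.2 / x.1)
    · intro x hx
      rw [mem_coe, mem_filter] at hx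
      obtain ⟨hx, hxc⟩ := hx
      rw [mem_SF] at hx
      have h1 : c * x.1 ≤ M * x.2 := by rw [← hxc]; exact Nat.div_mul_le_self _ _
      have h2 : M * x.2 < (c + 1) * x.1 := by
        rw [← hxc, mul_comm _ x.1]
        exact Nat.lt_mul_div_succ _ (by omega)
      show E ^ 2 * x.2 / x.1 ∈ (Icc L (L + w + 1) : Finset ℕ)
      rw [mem_Icc]
      constructor
      · rw [Nat.le_div_iff_mul_le (by omega), hL]
        -- L x1 ≤ E^2 x2 from L M ≤ E^2 c, c x1 ≤ M x2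
        have h3 : E ^ 2 * c / M * M ≤ E ^ 2 * c := Nat.div_mul_le_self _ _
        have h4 : (E ^ 2 * c / M * x.1) * M ≤ (E ^ 2 * x.2) * M := by
          calc (E ^ 2 * c / M * x.1) * M = (E ^ 2 * c / M * M) * x.1 := by ring
            _ ≤ (E ^ 2 * c) * x.1 := Nat.mul_le_mul_right _ h3
            _ = E ^ 2 * (c * x.1) := by ring
            _ ≤ E ^ 2 * (M * x.2) := Nat.mul_le_mul_left _ h1
            _ = _ := by ring
        exact Nat.le_of_mul_le_mul_right h4 hM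
      · rw [← Nat.lt_succ_iff, Nat.div_lt_iff_lt_mul (by omega)]
        have hx1 : 0 < x.1 := hx.1
        have h3 : E ^ 2 * c < (L + 1) * M := by
          rw [hL, mul_comm _ M]
          exact Nat.lt_mul_div_succ _ hM
        have h4 : E ^ 2 < (w + 1) * M := by
          rw [hw, mul_comm _ M]
          exact Nat.lt_mul_div_succ _ hM
        have h5 : (E ^ 2 * x.2) * M < ((L + w + 1).succ * x.1) * M := by
          calc (E ^ 2 * x.2) * M = E ^ 2 * (M * x.2) := by ring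
            _ ≤ E ^ 2 * ((c + 1) * x.1) := Nat.mul_le_mul_left _ h2.le
            _ = (E ^ 2 * c + E ^ 2) * x.1 := by ring
            _ < ((L + 1) * M + (w + 1) * M) * x.1 :=
                (Nat.mul_lt_mul_right hx1).2 (add_lt_add h3 h4)
            _ = ((L + w + 1).succ * x.1) * M := by
                rw [Nat.succ_eq_add_one]
                ring
        exact Nat.lt_of_mul_lt_mul_right h5
    · intro x hx y hy hxy
      rw [mem_coe, mem_filter] at hx hy
      exact flr_inj hx.1 hy.1 hxy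
  rw [Nat.card_Icc] at hsub
  have h1 : (w : ℝ) ≤ (E : ℝ) ^ 2 / M := by
    rw [hw]
    have := Nat.cast_div_le (α := ℝ) (m := E ^ 2) (n := M)
    push_cast at this
    exact this
  have h2 : ((((SF E).filter fun x => M * x.2 / x.1 = c).card : ℕ) : ℝ) ≤ ((w + 2 : ℕ) : ℝ) := by
    have e : L + w + 1 + 1 - L = w + 2 := by
      rw [show L + w + 1 + 1 = L + (w + 2) by ring, Nat.add_sub_cancel_left]
    rw [e] at hsub
    exact_mod_cast hsub
  push_cast at h2
  linarith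

/-- the sum over the reduced fractions -/
theorem farey {A β : ℝ} (hA : ∀ m : ℕ, 3 + m * Real.log 10 ≤ A * β ^ m) (N : ℕ) (P : ℕ → Prop) (E : ℕ) :
    ∑ x ∈ SF E, phi N P ((x.2 : ℝ) / x.1) ≤ ((E : ℝ) ^ 2 / 10 ^ N + 2) * ((10 * A) ^ np N P * A * β ^ fr N P) := by
  classical
  obtain ⟨b, hb0, hb1, hb2⟩ := L1 hA N P
  have hM : 0 < 10 ^ N := by positivity
  have h1 : ∀ x ∈ SF E, phi N P ((x.2 : ℝ) / x.1) ≤ b (10 ^ N * x.2 / x.1) := by
    intro x hx
    rw [mem_SF] at hx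
    have hx0 : (0 : ℝ) < x.1 := by exact_mod_cast (show 0 < x.1 by omega)
    have h2 := hb1 ((x.2 : ℝ) / x.1) (by positivity) (by
      rw [div_lt_one hx0]
      exact_mod_cast hx.2.2.1)
    have h3 : ⌊(10 : ℝ) ^ N * ((x.2 : ℝ) / x.1)⌋₊ = 10 ^ N * x.2 / x.1 := by
      have e : (10 : ℝ) ^ N * ((x.2 : ℝ) / x.1) = ((10 ^ N * x.2 : ℕ) : ℝ) / (x.1 : ℕ) := by
        push_cast
        ring
      rw [e, Nat.floor_div_eq_div]
    rwa [h3] at h2
  have hmaps : ∀ x ∈ SF E, 10 ^ N * x.2 / x.1 ∈ range (10 ^ N) := by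
    intro x hx
    rw [mem_SF] at hx
    rw [mem_range, Nat.div_lt_iff_lt_mul (by omega)]
    exact Nat.mul_lt_mul_of_pos_left hx.2.2.1 hM
  calc ∑ x ∈ SF E, phi N P ((x.2 : ℝ) / x.1) ≤ ∑ x ∈ SF E, b (10 ^ N * x.2 / x.1) := sum_le_sum h1
    _ = ∑ c ∈ range (10 ^ N), ∑ x ∈ (SF E).filter (fun x => 10 ^ N * x.2 / x.1 = c), b (10 ^ N * x.2 / x.1) :=
        (sum_fiberwise_of_maps_to hmaps _).symm
    _ = ∑ c ∈ range (10 ^ N), (((SF E).filter (fun x => 10 ^ N * x.2 / x.1 = c)).card : ℝ) * b c := by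
        apply sum_congr rfl
        intro c _
        rw [sum_congr rfl (g := fun _ => b c)]
        · rw [sum_const, nsmul_eq_mul]
        · intro x hx
          rw [(mem_filter.1 hx).2]
    _ ≤ ∑ c ∈ range (10 ^ N), ((E : ℝ) ^ 2 / 10 ^ N + 2) * b c := by
        apply sum_le_sum
        intro c _
        apply mul_le_mul_of_nonneg_right _ (hb0 c)
        have := cell_card E (10 ^ N) c hM
        push_cast at this
        exact this
    _ = ((E : ℝ) ^ 2 / 10 ^ N + 2) * ∑ c ∈ range (10 ^ N), b c := by rw [mul_sum]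
    _ ≤ _ := mul_le_mul_of_nonneg_left hb2 (by positivity)

end Pool.Agent.L5helper11.MD
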