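import Pool.Agent.L5helper11.MD.Basic

/-!
# The `L ^ 1` bound for the exponential sum over the integers with prescribed digits
-/

set_option autoImplicit false

namespace Pool.Agent.L5helper11.MD

open Finset Pool.Agent.Helper112

lemma sum_divmod (a b : ℕ) (F : ℕ → ℕ → ℝ) :
    ∑ c ∈ range (a * b), F (c / b) (c % b) = ∑ i ∈ range a, ∑ j ∈ range b, F i j := by
  induction a with
  | zero => simp
  | succ a ih =>
    rw [Nat.succ_mul, sum_range_add, ih, sum_range_succ]
    congr 1
    apply sum_congr rfl
    intro j hj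
    rw [mem_range] at hj
    have h1 : (a * b + j) / b = a := by
      rw [mul_comm a b, Nat.mul_add_div (by omega), Nat.div_eq_of_lt hj, add_zero]
    have h2 : (a * b + j) % b = j := by
      rw [mul_comm a b, Nat.mul_add_mod, Nat.mod_eq_of_lt hj]
    rw [h1, h2]

theorem L1 {A β : ℝ} (hA : ∀ m : ℕ, 3 + m * Real.log 10 ≤ A * β ^ m) (N : ℕ) :
    ∀ P : ℕ → Prop, ∃ b : ℕ → ℝ, (∀ c, 0 ≤ b c) ∧
      (∀ x : ℝ, 0 ≤ x → x < 1 → phi N P x ≤ b ⌊(10 : ℝ) ^ N * x⌋₊) ∧
      ∑ c ∈ range (10 ^ N), b c ≤ (10 * A) ^ np N P * A * β ^ fr N P := by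
  classical
  have hA0 : 0 < A := by
    have := hA 0
    simp at this
    linarith
  induction N using Nat.strong_induction_on with
  | _ N ih =>
    intro P
    by_cases hP : ∀ i < N, ¬ P i
    · refine ⟨kap N, kap_nonneg N, fun x h0 h1 => phi_run_le N P hP x h0 h1, ?_⟩
      have h1 : np N P = 0 := by
        unfold np
        rw [card_eq_zero, filter_eq_empty_iff]
        intro i hi
        exact hP i (mem_range.1 hi)
      have h2 : fr N P = N := by
        have := np_add_fr N P
        omega
      rw [h1, h2, pow_zero, one_mul]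
      exact (sum_kap N).trans (hA N)
    · push Not at hP
      -- the last prescribed place
      obtain ⟨j, hjN, hjP, hjmax⟩ : ∃ j, j < N ∧ P j ∧ ∀ i, j < i → i < N → ¬ P i := by
        have hne : ((range N).filter fun i => P i).Nonempty := by
          obtain ⟨i, hi, hPi⟩ := hP
          exact ⟨i, by rw [mem_filter, mem_range]; exact ⟨hi, hPi⟩⟩
        refine ⟨((range N).filter fun i => P i).max' hne, ?_, ?_, ?_⟩
        · have := Finset.max'_mem _ hne
          rw [mem_filter, mem_range] at this
          exact this.1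
        · have := Finset.max'_mem _ hne
          rw [mem_filter, mem_range] at this
          exact this.2
        · intro i hi hiN hPi
          have := Finset.le_max' ((range N).filter fun i => P i) i (by
            rw [mem_filter, mem_range]; exact ⟨hiN, hPi⟩)
          omega
      obtain ⟨m, rfl⟩ : ∃ m, N = j + 1 + m := ⟨N - (j + 1), by omega⟩
      obtain ⟨b, hb0, hb1, hb2⟩ := ih j hjN P
      have hrun : ∀ i < m, ¬ P (j + 1 + i) := fun i hi => hjmax _ (by omega) (by omega)
      refine ⟨fun c => b (c / 10 ^ (m + 1)) * kap m (c % 10 ^ m), fun c => mul_nonneg (hb0 _) (kap_nonneg _ _), ?_, ?_⟩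
      · intro x hx0 hx1
        rw [phi_add, phi_succ, if_pos hjP, mul_one]
        have h1 : ⌊(10 : ℝ) ^ (j + 1 + m) * x⌋₊ / 10 ^ (m + 1) = ⌊(10 : ℝ) ^ j * x⌋₊ := by
          rw [← Nat.floor_div_natCast]
          congr 1
          push_cast
          rw [div_eq_iff (by positivity)]
          ring
        have h2 : ⌊(10 : ℝ) ^ m * Int.fract ((10 : ℝ) ^ (j + 1) * x)⌋₊ = ⌊(10 : ℝ) ^ (j + 1 + m) * x⌋₊ % 10 ^ m := by
          have hxx : 0 ≤ (10 : ℝ) ^ (j + 1) * x := by positivity
          set q := ⌊(10 : ℝ) ^ (j + 1) * x⌋₊ with hq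
          have e1 : Int.fract ((10 : ℝ) ^ (j + 1) * x) = (10 : ℝ) ^ (j + 1) * x - q := by
            have h3 : ((q : ℤ)) = ⌊(10 : ℝ) ^ (j + 1) * x⌋ := by
              rw [hq, Int.natCast_floor_eq_floor hxx]
            have h4 : ((q : ℕ) : ℝ) = ((⌊(10 : ℝ) ^ (j + 1) * x⌋ : ℤ) : ℝ) := by
              rw [← h3]
              simp
            rw [h4]
            rfl
          have e2 : (10 : ℝ) ^ m * Int.fract ((10 : ℝ) ^ (j + 1) * x) =
              (10 : ℝ) ^ (j + 1 + m) * x - ((10 ^ m * q : ℕ) : ℝ) := by
            rw [e1]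
            push_cast
            ring
          rw [e2, Nat.floor_sub_natCast]
          have e3 : q = ⌊(10 : ℝ) ^ (j + 1 + m) * x⌋₊ / 10 ^ m := by
            rw [hq, ← Nat.floor_div_natCast]
            congr 1
            push_cast
            rw [eq_div_iff (by positivity)]
            ring
          rw [e3]
          have := Nat.mod_add_div ⌊(10 : ℝ) ^ (j + 1 + m) * x⌋₊ (10 ^ m)
          omega
        apply mul_le_mul
        · rw [h1]
          exact hb1 x hx0 hx1
        · rw [← h2]
          have h3 : phi m (fun i => P (j + 1 + i)) ((10 : ℝ) ^ (j + 1) * x) =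
              phi m (fun i => P (j + 1 + i)) (Int.fract ((10 : ℝ) ^ (j + 1) * x)) := (phi_fract _ _ _).symm
          rw [h3]
          exact phi_run_le m _ hrun _ (Int.fract_nonneg _) (Int.fract_lt_one _)
        · exact phi_nonneg _ _ _
        · exact hb0 _
      · have e1 : (10 : ℕ) ^ (j + 1 + m) = 10 ^ j * 10 ^ (m + 1) := by
          rw [← pow_add]
          congr 1
          ring
        have e2 : ∀ c ∈ range (10 ^ j * 10 ^ (m + 1)), b (c / 10 ^ (m + 1)) * kap m (c % 10 ^ m) =
            (fun x y => b x * kap m (y % 10 ^ m)) (c / 10 ^ (m + 1)) (c % 10 ^ (m + 1)) := by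
          intro c _
          simp only
          rw [Nat.mod_mod_of_dvd c (Dvd.intro 10 (by rw [pow_succ]))]
        rw [e1, sum_congr rfl e2, sum_divmod (10 ^ j) (10 ^ (m + 1)) (fun x y => b x * kap m (y % 10 ^ m))]
        have e3 : ∑ y ∈ range (10 ^ (m + 1)), kap m (y % 10 ^ m) = 10 * ∑ y ∈ range (10 ^ m), kap m y := by
          have := sum_divmod 10 (10 ^ m) (fun _ y => kap m y)
          rw [pow_succ, mul_comm]
          rw [this, sum_const, card_range]
          simp
        simp_rw [← mul_sum]
        rw [← sum_mul, e3]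
        have h1 : np (j + 1 + m) P = np j P + 1 := by
          rw [np_add, np_succ, if_pos hjP]
          have : np m (fun i => P (j + 1 + i)) = 0 := by
            unfold np
            rw [card_eq_zero, filter_eq_empty_iff]
            intro i hi
            exact hrun i (mem_range.1 hi)
          omega
        have h2 : fr (j + 1 + m) P = fr j P + m := by
          have a1 := np_add_fr (j + 1 + m) P
          have a2 := np_add_fr j P
          omega
        rw [h1, h2]
        have h3 := (sum_kap m).trans (hA m)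
        have h4 : 0 ≤ ∑ y ∈ range (10 ^ m), kap m y := sum_nonneg fun _ _ => kap_nonneg _ _
        have h5 : 0 ≤ ∑ c ∈ range (10 ^ j), b c := sum_nonneg fun _ _ => hb0 _
        calc (∑ c ∈ range (10 ^ j), b c) * (10 * ∑ y ∈ range (10 ^ m), kap m y) ≤
            ((10 * A) ^ np j P * A * β ^ fr j P) * (10 * (A * β ^ m)) := by
              apply mul_le_mul hb2 (by linarith) (by positivity) (h5.trans hb2)
          _ = _ := by
              rw [pow_succ, pow_add]
              ring

end Pool.Agent.L5helper11.MD
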