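import Pool.Agent.L5helper11.MD.Eng
import Pool.Agent.Y882.MG.Quad2

/-!
# `m ^ 2 + 1` at the integers `m` with prescribed digits
-/

set_option autoImplicit false

namespace Pool.Agent.L5helper11.MD

open Finset Filter Polynomial
open Pool.Agent.W23.DC
open Pool.Agent.Y882.PX (ro)
open Pool.Agent.Y882.SI (lo QF QF_eval lo_quad mer_quad ro_quad_le)
open Pool.Agent.Y882.MG (sq_countS)

open Classical in
lemma mem_Cs {N : ℕ} {P : ℕ → Prop} {e : ℕ → ℕ} {n : ℕ} :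
    n ∈ Cs N P e ↔ n < 10 ^ N ∧ ∀ i < N, P i → n / 10 ^ i % 10 = e i := by
  unfold Cs
  rw [mem_filter, mem_range]

open Classical in
lemma np_le_card {N : ℕ} {P : ℕ → Prop} {S : Finset ℕ} (h : ∀ i < N, P i → i ∈ S) : np N P ≤ S.card := by
  unfold np
  apply card_le_card
  intro i hi
  rw [mem_filter, mem_range] at hi
  exact h i hi.1 hi.2

lemma not_sq : ¬ IsSquare (-(1 : ℤ)) := by
  rintro ⟨x, hx⟩
  nlinarith [mul_self_nonneg x]

lemma QF_val (n : ℕ) : ((QF 1).eval (n : ℤ)).natAbs = n ^ 2 + 1 := by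
  rw [QF_eval]
  have h : ((n : ℤ) ^ 2 + 1) = ((n ^ 2 + 1 : ℕ) : ℤ) := by push_cast; ring
  rw [h, Int.natAbs_natCast]

open Classical in
theorem quadD : ∃ δ : ℝ, 0 < δ ∧ ∀ᶠ N : ℕ in atTop, ∀ (P : ℕ → Prop) (e : ℕ → ℕ), (∀ i, e i < 10) →
    12 * np N P ≤ N + 12 → P 0 → (e 0 = 0 ∨ e 0 = 4 ∨ e 0 = 6) →
    δ * 10 ^ fr N P / N ≤ ((((Cs N P e).filter (fun n : ℕ => (n ^ 2 + 1).primeFactorsList.length ≤ 3 ∧
      ∀ p : ℕ, p.Prime → p ∣ n ^ 2 + 1 → (((10 ^ N : ℕ) : ℝ)) ^ (39 / 50 / 4 : ℝ) ≤ p)).card : ℕ) : ℝ) := by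
  obtain ⟨c, hc, HL⟩ := lo_quad 1 not_sq
  obtain ⟨δ, ε₁, η, hδ, hε₁, hη, HE⟩ := engD 2 2 2 c (by norm_num) (by norm_num) hc
  obtain ⟨Y2, HM⟩ := mer_quad 1 not_sq ε₁ (24 / 25 * (39 / 50)) η hε₁ (by norm_num) hη
  have tpow : Tendsto (fun N : ℕ => ((10 ^ N : ℕ) : ℝ)) atTop atTop := by
    have h1 : Tendsto (fun N : ℕ => (10 : ℕ) ^ N) atTop atTop := tendsto_pow_atTop_atTop_of_one_lt (by norm_num)
    exact tendsto_natCast_atTop_atTop.comp h1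
  have ev0 : ∀ᶠ N : ℕ in atTop, max Y2 3 ≤ 10 ^ N :=
    (tendsto_pow_atTop_atTop_of_one_lt (by norm_num : (1 : ℕ) < 10)).eventually_ge_atTop _
  have ev1 : ∀ᶠ N : ℕ in atTop, (3 : ℝ) ≤ (((10 ^ N : ℕ) : ℝ)) ^ (39 / 50 / 4 : ℝ) :=
    ((tendsto_rpow_atTop (by norm_num)).comp tpow).eventually_ge_atTop _
  refine ⟨δ, hδ, ?_⟩
  filter_upwards [HE, ev0, ev1, eventually_ge_atTop 1] with N hE h0 h1 hN1 P e he hP hP0 he0
  have hY2 : Y2 ≤ 10 ^ N := (le_max_left _ _).trans h0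
  have hY3 : 3 ≤ 10 ^ N := (le_max_right _ _).trans h0
  have h := hE (QF 1) (fun p hp => ro_quad_le 1 p hp) (HL (10 ^ N) hY3) (HM (10 ^ N) hY2) (by
    intro q hq hqY
    have hq3 : (3 : ℝ) ≤ q := h1.trans hqY
    have hq3' : 3 ≤ q := by exact_mod_cast hq3
    have h2 := sq_countS 1 one_ne_zero q hq (by simp; omega) (by omega) 0 (10 ^ N)
    have h3 : (range (10 ^ N)).filter (fun n : ℕ => q ^ 2 ∣ ((QF 1).eval (n : ℤ)).natAbs) ⊆
        (Icc 1 (10 ^ N)).filter (fun j : ℕ => ((q ^ 2 : ℕ) : ℤ) ∣ (QF 1).eval ((0 + j : ℕ) : ℤ)) := by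
      intro n hn
      rw [mem_filter, mem_range] at hn
      rw [mem_filter, mem_Icc]
      refine ⟨⟨?_, hn.1.le⟩, ?_⟩
      · rcases Nat.eq_zero_or_pos n with rfl | hn0
        · exfalso
          have h4 := hn.2
          rw [QF_val] at h4
          have h5 := Nat.le_of_dvd (by norm_num) h4
          nlinarith
        · exact hn0
      · rw [zero_add]
        exact Int.natCast_dvd.2 hn.2
    have h4 : ((((range (10 ^ N)).filter (fun n : ℕ => q ^ 2 ∣ ((QF 1).eval (n : ℤ)).natAbs)).card : ℕ) : ℝ) ≤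
        ((((Icc 1 (10 ^ N)).filter (fun j : ℕ => ((q ^ 2 : ℕ) : ℤ) ∣ (QF 1).eval ((0 + j : ℕ) : ℤ))).card : ℕ) : ℝ) := by
      exact_mod_cast card_le_card h3
    refine h4.trans (h2.trans (le_of_eq ?_))
    push_cast
    ring) (by
    intro n hn
    rw [QF_val]
    refine ⟨by omega, ?_⟩
    have h2 : n ^ 2 + 1 ≤ (10 ^ N) ^ 2 := by
      have : n + 1 ≤ 10 ^ N := hn
      nlinarith
    have h3 : (((10 ^ N : ℕ) : ℝ)) ^ (2 : ℝ) = (((10 ^ N) ^ 2 : ℕ) : ℝ) := by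
      rw [Real.rpow_two]
      push_cast
      ring
    rw [h3]
    exact_mod_cast h2) P e he hP (by
    intro n hn
    rw [QF_val]
    unfold Cs at hn
    rw [mem_filter, mem_range] at hn
    have h2 := hn.2 0 (by omega) hP0
    rw [pow_zero, Nat.div_one] at h2
    have h3 : n ^ 2 % 10 = (n % 10) ^ 2 % 10 := Nat.pow_mod _ _ _
    rw [h2] at h3
    rcases he0 with h4 | h4 | h4 <;> rw [h4] at h3 <;> norm_num at h3 <;> omega)
  simp only [QF_val] at h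
  exact h

end Pool.Agent.L5helper11.MD
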