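import Pool.Agent.L5helper11.MD.Blk2

/-!
# The sum over all denominators
-/

set_option autoImplicit false

namespace Pool.Agent.L5helper11.MD

open Finset Pool.Agent.Helper112 Filter

/-- the small denominators -/
theorem small_range : ∀ᶠ N : ℕ in atTop, ∀ P : ℕ → Prop, 12 * np N P ≤ N + 12 → ∀ e : ℕ, 1 < e →
    (e : ℝ) ≤ (N : ℝ) ^ (51 / 10 : ℝ) → e.Coprime 10 → ∀ h : ℕ, h.Coprime e →
    phi N P ((h : ℝ) / e) ≤ (N : ℝ) ^ (-20 : ℝ) := by
  have ev1 : ∀ᶠ N : ℕ in atTop, 100 ≤ Real.logb 10 N := by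
    have := (Real.tendsto_logb_atTop (b := 10) (by norm_num)).comp tendsto_natCast_atTop_atTop
    exact this.eventually_ge_atTop 100
  have ev2 : ∀ᶠ N : ℕ in atTop, 160000 * 20 * Real.log N ^ 2 ≤ (N : ℝ) ^ (4 / 100 : ℝ) := by
    have h1 : Tendsto (fun x : ℝ => Real.log x ^ ((2 : ℕ) : ℝ) / x ^ (4 / 100 : ℝ)) atTop (nhds 0) := by
      have := isLittleO_log_rpow_rpow_atTop (((2 : ℕ) : ℝ)) (show (0 : ℝ) < 4 / 100 by norm_num)
      exact this.tendsto_div_nhds_zero
    have h2 := h1.eventually_le_const (show (0 : ℝ) < 1 / (160000 * 20) by positivity)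
    have h3 := tendsto_natCast_atTop_atTop.eventually (h2.and (eventually_gt_atTop (0 : ℝ)))
    filter_upwards [h3] with X hX
    obtain ⟨h4, h5⟩ := hX
    have h6 : (0 : ℝ) < (X : ℝ) ^ (4 / 100 : ℝ) := by positivity
    rw [div_le_div_iff₀ h6 (by positivity), one_mul, Real.rpow_natCast] at h4
    linarith
  filter_upwards [ev1, ev2, eventually_ge_atTop 10] with N hlam hN2 hN10 P hP e he1 heN h10 h hc
  set lam : ℝ := Real.logb 10 N with hlamdef
  have hNr : (10 : ℝ) ≤ N := by exact_mod_cast hN10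
  have hN0 : (0 : ℝ) < N := by linarith
  have hpow : ∀ a : ℝ, (10 : ℝ) ^ (a * lam) = (N : ℝ) ^ a := by
    intro a
    rw [mul_comm, Real.rpow_mul (by norm_num), hlamdef, Real.rpow_logb (by norm_num) (by norm_num) hN0]
  set G : ℕ := ⌊(48 / 100 : ℝ) * lam⌋₊ with hG
  set ℓ : ℕ := ⌈(51 / 10 : ℝ) * lam⌉₊ with hℓ
  have g1 : (G : ℝ) ≤ 48 / 100 * lam := Nat.floor_le (by positivity)
  have g2 : 48 / 100 * lam < G + 1 := Nat.lt_floor_add_one _
  have l1 : 51 / 10 * lam ≤ ℓ := Nat.le_ceil _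
  have l2 : (ℓ : ℝ) < 51 / 10 * lam + 1 := Nat.ceil_lt_add_one (by positivity)
  have hℓe : e ≤ 10 ^ ℓ := by
    have h1 : (e : ℝ) ≤ (10 : ℝ) ^ (ℓ : ℝ) := by
      refine heN.trans ?_
      rw [← hpow]
      exact Real.rpow_le_rpow_of_exponent_le (by norm_num) l1
    rw [Real.rpow_natCast] at h1
    exact_mod_cast h1
  obtain ⟨n, hn1, hn2, hn3⟩ := small_pt (N := N) (G := G) (ℓ := ℓ) (P := P) he1 hc h10 hℓe
  refine hn3.trans ?_
  set L : ℕ := G + ℓ + 1 with hL
  have hLr : (L : ℝ) ≤ 558 / 100 * lam + 2 := by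
    rw [hL]
    push_cast
    linarith
  have hL0 : (0 : ℝ) < L := by
    rw [hL]
    positivity
  -- the number of good windows
  have k1 : (N : ℝ) / L - 1 ≤ ((N / L : ℕ) : ℝ) := by
    have h1 : N < L * (N / L + 1) := Nat.lt_mul_div_succ N (by rw [hL]; omega)
    have h2 : (N : ℝ) < L * (((N / L : ℕ) : ℝ) + 1) := by exact_mod_cast h1
    rw [sub_le_iff_le_add, div_le_iff₀ hL0]
    linarith
  have k2 : 12 * ((G + 1 : ℕ) : ℝ) * (((N / L : ℕ) : ℝ) - n) ≤ N + 12 := by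
    have h1 : 12 * ((G + 1) * (N / L - n)) ≤ N + 12 := by omega
    have h2 : ((12 * ((G + 1) * (N / L - n)) : ℕ) : ℝ) ≤ ((N + 12 : ℕ) : ℝ) := by exact_mod_cast h1
    have h3 : ((N / L - n : ℕ) : ℝ) = ((N / L : ℕ) : ℝ) - n := by rw [Nat.cast_sub hn1]
    rw [← h3]
    push_cast at h2 ⊢
    linarith
  have k3 : ((N / L : ℕ) : ℝ) - n ≤ N / (576 / 100 * lam) + 1 := by
    have hd : 0 ≤ ((N / L : ℕ) : ℝ) - n := by
      rw [sub_nonneg]
      exact_mod_cast hn1
    have h1 : ((N / L : ℕ) : ℝ) - n - 1 ≤ N / (576 / 100 * lam) := by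
      rw [le_div_iff₀ (by positivity)]
      push_cast at k2
      nlinarith
    linarith
  have k4 : (N : ℝ) / (558 / 100 * lam + 2) ≤ N / L := div_le_div_of_nonneg_left hN0.le hL0 hLr
  have k5 : (N : ℝ) / (576 / 100 * lam) + N / (400 * lam) ≤ N / (558 / 100 * lam + 2) := by
    have e1 : (N : ℝ) / (576 / 100 * lam) + N / (400 * lam) = N * (1 / (576 / 100 * lam) + 1 / (400 * lam)) := by ring
    have e2 : (N : ℝ) / (558 / 100 * lam + 2) = N * (1 / (558 / 100 * lam + 2)) := by ring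
    rw [e1, e2]
    apply mul_le_mul_of_nonneg_left _ hN0.le
    have e3 : (1 : ℝ) / (576 / 100 * lam) + 1 / (400 * lam) = (40576 / 230400) / lam := by
      field_simp
      norm_num
    rw [e3, div_le_div_iff₀ (by positivity) (by positivity)]
    nlinarith
  have hlamlog : lam ≤ Real.log N := by
    rw [hlamdef, Real.logb, div_le_iff₀ (Real.log_pos (by norm_num))]
    have h1 : (1 : ℝ) ≤ Real.log 10 := by
      rw [Real.le_log_iff_exp_le (by norm_num)]
      linarith [Real.exp_one_lt_d9]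
    have h2 : 0 ≤ Real.log N := Real.log_nonneg (by linarith)
    nlinarith
  have hlN : 0 < Real.log N := Real.log_pos (by linarith)
  have k6 : 1600 * lam ≤ N := by
    -- from hN2: log^2 small compared with N^0.04 ≤ N
    have h1 : (N : ℝ) ^ (4 / 100 : ℝ) ≤ N := by
      calc (N : ℝ) ^ (4 / 100 : ℝ) ≤ (N : ℝ) ^ (1 : ℝ) := Real.rpow_le_rpow_of_exponent_le (by linarith) (by norm_num)
        _ = N := Real.rpow_one _
    have h2 : 1 ≤ Real.log N := by linarith
    nlinarith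
  have k7 : (N : ℝ) / (800 * lam) ≤ n := by
    have h1 : 2 ≤ (N : ℝ) / (800 * lam) := by
      rw [le_div_iff₀ (by positivity)]
      linarith
    have e1 : (N : ℝ) / (400 * lam) = 2 * (N / (800 * lam)) := by
      field_simp
      norm_num
    linarith
  have k8 : (10 : ℝ) ^ (2 * G) ≤ (N : ℝ) ^ (96 / 100 : ℝ) := by
    rw [← hpow, ← Real.rpow_natCast]
    apply Real.rpow_le_rpow_of_exponent_le (by norm_num)
    push_cast
    linarith
  have k9 : 20 * Real.log N ≤ (n : ℝ) / (200 * 10 ^ (2 * G)) := by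
    rw [le_div_iff₀ (by positivity)]
    refine le_trans ?_ k7
    rw [le_div_iff₀ (by positivity)]
    have h1 : (N : ℝ) ^ (96 / 100 : ℝ) * (N : ℝ) ^ (4 / 100 : ℝ) = N := by
      rw [← Real.rpow_add hN0]
      norm_num
    calc 20 * Real.log N * (200 * 10 ^ (2 * G)) * (800 * lam) ≤
        20 * Real.log N * (200 * (N : ℝ) ^ (96 / 100 : ℝ)) * (800 * Real.log N) := by gcongr
      _ = (N : ℝ) ^ (96 / 100 : ℝ) * (160000 * 20 * Real.log N ^ 2) := by ring
      _ ≤ (N : ℝ) ^ (96 / 100 : ℝ) * (N : ℝ) ^ (4 / 100 : ℝ) := mul_le_mul_of_nonneg_left hN2 (by positivity)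
      _ = N := h1
  calc Real.exp (-((n : ℝ) / (200 * 10 ^ (2 * G)))) ≤ Real.exp (Real.log N * (-20)) := by
        apply Real.exp_le_exp.2
        linarith
    _ = (N : ℝ) ^ (-20 : ℝ) := by
        rw [Real.rpow_def_of_pos hN0]

/-- decomposition into dyadic blocks -/
lemma dyadic (f : ℕ → ℝ) (hf : ∀ e, 0 ≤ f e) (E0 : ℕ) (hE0 : 1 ≤ E0) (J : ℕ) :
    ∑ e ∈ Ioc E0 (2 ^ J * E0), (e : ℝ) ^ (-(999 / 1000) : ℝ) * f e ≤
      ∑ j ∈ range J, ((2 ^ j * E0 : ℕ) : ℝ) ^ (-(999 / 1000) : ℝ) * ∑ e ∈ Icc 1 (2 * (2 ^ j * E0)), f e := by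
  induction J with
  | zero => simp
  | succ J ih =>
    have h1 : Ioc E0 (2 ^ (J + 1) * E0) = Ioc E0 (2 ^ J * E0) ∪ Ioc (2 ^ J * E0) (2 * (2 ^ J * E0)) := by
      rw [Ioc_union_Ioc_eq_Ioc]
      · rw [pow_succ]
        congr 1
        ring
      · exact Nat.le_mul_of_pos_left _ (by positivity)
      · omega
    have h2 : Disjoint (Ioc E0 (2 ^ J * E0)) (Ioc (2 ^ J * E0) (2 * (2 ^ J * E0))) := by
      rw [Finset.disjoint_left]
      intro e he he2
      rw [mem_Ioc] at he he2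
      omega
    rw [h1, sum_union h2, sum_range_succ]
    apply add_le_add ih
    rw [mul_sum]
    have hpos : 0 < 2 ^ J * E0 := by positivity
    calc ∑ e ∈ Ioc (2 ^ J * E0) (2 * (2 ^ J * E0)), (e : ℝ) ^ (-(999 / 1000) : ℝ) * f e ≤
        ∑ e ∈ Ioc (2 ^ J * E0) (2 * (2 ^ J * E0)), ((2 ^ J * E0 : ℕ) : ℝ) ^ (-(999 / 1000) : ℝ) * f e := by
          apply sum_le_sum
          intro e he
          rw [mem_Ioc] at he
          apply mul_le_mul_of_nonneg_right _ (hf e)
          apply Real.rpow_le_rpow_of_nonpos (by exact_mod_cast hpos) _ (by norm_num)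
          exact_mod_cast he.1.le
      _ ≤ _ := by
          apply sum_le_sum_of_subset_of_nonneg
          · intro e he
            rw [mem_Ioc] at he
            rw [mem_Icc]
            omega
          · intro e _ _
            exact mul_nonneg (by positivity) (hf e)

end Pool.Agent.L5helper11.MD
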