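import Pool.Agent.L5helper11.MD.Quad
import Pool.Agent.Y882.MG.Lin

/-!
# Almost primes with prescribed digits in short intervals
-/

set_option autoImplicit false

namespace Pool.Agent.L5helper11.MD

open Finset Filter Polynomial
open Pool.Agent.W23.DC
open Pool.Agent.Y882.PX (ro ro_eq)
open Pool.Agent.Y882.SI (lo class_count)
open Pool.Agent.Y882.MG (LF ro_lin mer_lin lo_lin)

/-- the polynomial `X + s` -/
noncomputable def SFt (s : ℕ) : ℤ[X] := X + C (s : ℤ)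

lemma SFt_eval (s n : ℕ) : (SFt s).eval (n : ℤ) = ((n + s : ℕ) : ℤ) := by
  unfold SFt
  simp

lemma SFt_val (s n : ℕ) : ((SFt s).eval (n : ℤ)).natAbs = n + s := by
  rw [SFt_eval, Int.natAbs_natCast]

lemma ro_SFt (s q : ℕ) (hq : 0 < q) : ro (SFt s) 0 q = 1 := by
  rw [ro_eq, card_eq_one]
  have hq0 : (0 : ℤ) < q := by exact_mod_cast hq
  refine ⟨((-(s : ℤ)) % q).toNat, ?_⟩
  have h1 : 0 ≤ (-(s : ℤ)) % q := Int.emod_nonneg _ hq0.ne'
  have h2 : (-(s : ℤ)) % q < q := Int.emod_lt_of_pos _ hq0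
  ext n
  rw [mem_filter, mem_range, mem_singleton, SFt_eval]
  constructor
  · rintro ⟨h3, h4⟩
    have h5 : (n : ℤ) ≡ -(s : ℤ) [ZMOD q] := by
      rw [Int.modEq_comm, Int.modEq_iff_dvd]
      have e : (n : ℤ) - -(s : ℤ) = ((n + s : ℕ) : ℤ) + 0 := by push_cast; ring
      rw [e]
      exact h4
    have h6 : (n : ℤ) = (-(s : ℤ)) % q := by
      rw [← h5, Int.emod_eq_of_lt (by omega) (by exact_mod_cast h3)]
    omega
  · intro h3
    have h4 : (n : ℤ) = (-(s : ℤ)) % q := by omega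
    refine ⟨by omega, ?_⟩
    have h5 : (q : ℤ) ∣ -(s : ℤ) - (-(s : ℤ)) % q := Int.dvd_self_sub_emod
    rw [← h4] at h5
    have h6 := (dvd_neg (α := ℤ)).2 h5
    have e : -(-(s : ℤ) - n) = ((n + s : ℕ) : ℤ) + 0 := by push_cast; ring
    rwa [e] at h6

open Classical in
theorem shortD : ∃ δ : ℝ, 0 < δ ∧ ∀ᶠ N : ℕ in atTop, ∀ (M : ℕ), 1 ≤ M → (M : ℝ) + 1 ≤ (10 : ℝ) ^ ((23 / 20 : ℝ) * N) →
    ∀ (P : ℕ → Prop) (e : ℕ → ℕ), (∀ i, e i < 10) →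
    12 * np N P ≤ N + 12 → P 0 → (e 0 = 1 ∨ e 0 = 3 ∨ e 0 = 7 ∨ e 0 = 9) →
    δ * 10 ^ fr N P / N ≤ ((((Cs N P e).filter (fun n : ℕ => (n + M * 10 ^ N).primeFactorsList.length ≤ 3 ∧
      ∀ p : ℕ, p.Prime → p ∣ n + M * 10 ^ N → (((10 ^ N : ℕ) : ℝ)) ^ (39 / 50 / 4 : ℝ) ≤ p)).card : ℕ) : ℝ) := by
  obtain ⟨c, hc, HL⟩ := lo_lin
  obtain ⟨δ, ε₁, η, hδ, hε₁, hη, HE⟩ := engD 1 (43 / 20) 4 c (by norm_num) (by norm_num) hc
  obtain ⟨Y2, HM⟩ := mer_lin ε₁ (24 / 25 * (39 / 50)) η hε₁ (by norm_num) hη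
  have ev0 : ∀ᶠ N : ℕ in atTop, max Y2 3 ≤ 10 ^ N :=
    (tendsto_pow_atTop_atTop_of_one_lt (by norm_num : (1 : ℕ) < 10)).eventually_ge_atTop _
  refine ⟨δ, hδ, ?_⟩
  filter_upwards [HE, ev0, eventually_ge_atTop 1] with N hE h0 hN1 M hM1 hM P e he hP hP0 he0
  have hY2 : Y2 ≤ 10 ^ N := (le_max_left _ _).trans h0
  have hY3 : 3 ≤ 10 ^ N := (le_max_right _ _).trans h0
  have hro : ∀ p : ℕ, 0 < p → ro (SFt (M * 10 ^ N)) 0 p = ro LF 0 p := by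
    intro p hp
    rw [ro_SFt _ p hp, ro_lin p hp]
  have hlo : lo (SFt (M * 10 ^ N)) (10 ^ N) = lo LF (10 ^ N) := by
    unfold lo
    apply Finset.prod_congr rfl
    intro p hp
    rw [hro p (mem_filter.1 hp).2.pos]
  have h := hE (SFt (M * 10 ^ N)) (fun p hp => by rw [ro_SFt _ p hp.pos]) (by rw [hlo]; exact HL (10 ^ N) hY3) (by
    intro a b h1 h2 h3
    have h4 := HM (10 ^ N) hY2 a b h1 h2 h3
    have h5 : ∑ p ∈ (pr (10 ^ N) ε₁ (24 / 25 * (39 / 50))).filter (fun p => a ≤ tt (10 ^ N) p ∧ tt (10 ^ N) p < b),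
        (ro (SFt (M * 10 ^ N)) 0 p : ℝ) / p =
        ∑ p ∈ (pr (10 ^ N) ε₁ (24 / 25 * (39 / 50))).filter (fun p => a ≤ tt (10 ^ N) p ∧ tt (10 ^ N) p < b),
          (ro LF 0 p : ℝ) / p := by
      apply sum_congr rfl
      intro p hp
      have hp1 := (mem_filter.1 hp).1
      unfold pr at hp1
      rw [mem_filter] at hp1
      rw [hro p hp1.2.1.pos]
    rw [h5]
    exact h4) (by
    intro q hq _
    have hq2 : 0 < q ^ 2 := pow_pos hq.pos 2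
    have h2 := class_count (q ^ 2) hq2 (10 ^ N) (-((M * 10 ^ N : ℕ) : ℤ))
    have h3 : (range (10 ^ N)).filter (fun n : ℕ => q ^ 2 ∣ ((SFt (M * 10 ^ N)).eval (n : ℤ)).natAbs) ⊆
        insert 0 ((Icc 1 (10 ^ N)).filter (fun n : ℕ => ((q ^ 2 : ℕ) : ℤ) ∣ (n : ℤ) - (-((M * 10 ^ N : ℕ) : ℤ)))) := by
      intro n hn
      rw [mem_filter, mem_range, SFt_val] at hn
      rw [mem_insert, mem_filter, mem_Icc]
      rcases Nat.eq_zero_or_pos n with hn0 | hn0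
      · exact Or.inl hn0
      · right
        refine ⟨⟨hn0, hn.1.le⟩, ?_⟩
        have e : (n : ℤ) - (-((M * 10 ^ N : ℕ) : ℤ)) = ((n + M * 10 ^ N : ℕ) : ℤ) := by push_cast; ring
        rw [e]
        exact Int.natCast_dvd_natCast.2 hn.2
    have h4 : ((((range (10 ^ N)).filter (fun n : ℕ => q ^ 2 ∣ ((SFt (M * 10 ^ N)).eval (n : ℤ)).natAbs)).card : ℕ) : ℝ) ≤
        ((((Icc 1 (10 ^ N)).filter (fun n : ℕ => ((q ^ 2 : ℕ) : ℤ) ∣ (n : ℤ) - (-((M * 10 ^ N : ℕ) : ℤ)))).card : ℕ) : ℝ) + 1 := by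
      exact_mod_cast (card_le_card h3).trans (card_insert_le _ _)
    have h5 : (0 : ℝ) ≤ (10 : ℝ) ^ N * (1 / (q : ℝ) ^ 2) := by positivity
    push_cast at h2 h4 ⊢
    have e : (10 : ℝ) ^ N / (q : ℝ) ^ 2 = (10 : ℝ) ^ N * (1 / (q : ℝ) ^ 2) := by ring
    linarith) (by
    intro n hn
    rw [SFt_val]
    have hpos : 0 < M * 10 ^ N := by positivity
    refine ⟨by omega, ?_⟩
    have h2 : n + M * 10 ^ N ≤ (M + 1) * 10 ^ N := by
      have e : (M + 1) * 10 ^ N = M * 10 ^ N + 10 ^ N := by ring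
      omega
    have h3 : ((n + M * 10 ^ N : ℕ) : ℝ) ≤ (((M + 1) * 10 ^ N : ℕ) : ℝ) := by exact_mod_cast h2
    refine h3.trans ?_
    push_cast
    calc ((M : ℝ) + 1) * 10 ^ N ≤ (10 : ℝ) ^ ((23 / 20 : ℝ) * N) * 10 ^ N :=
          mul_le_mul_of_nonneg_right hM (by positivity)
      _ = ((10 : ℝ) ^ N) ^ (43 / 20 : ℝ) := by
          rw [← Real.rpow_natCast, ← Real.rpow_mul (by norm_num), ← Real.rpow_add (by norm_num)]
          congr 1
          ring) P e he hP (by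
    intro n hn
    rw [SFt_val]
    rw [mem_Cs] at hn
    have h2 := hn.2 0 (by omega) hP0
    rw [pow_zero, Nat.div_one] at h2
    have h3 : 10 ∣ M * 10 ^ N := Dvd.dvd.mul_left (dvd_pow_self 10 (by omega)) M
    rcases he0 with h4 | h4 | h4 | h4 <;> rw [h4] at h2 <;> omega)
  simp only [SFt_val] at h
  exact h

end Pool.Agent.L5helper11.MD
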