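import Pool.Agent.L5helper11.MD.Win

/-!
# Small denominators
-/

set_option autoImplicit false

namespace Pool.Agent.L5helper11.MD

open Finset Pool.Agent.Helper112 Filter
open Pool.Agent.L5helper11.PD (dn dn_nonneg dn_le_half dn_le dn_add_int dn_mul_le dn_mul_eq le_dn_of_not_dvd)

lemma phi_le_single (N i : ℕ) (P : ℕ → Prop) (x : ℝ) (hi : i < N) (hP : ¬ P i) : phi N P x ≤ g (10 ^ i * x) := by
  refine (phi_le_window N i 1 P x hi).trans (le_of_eq ?_)
  unfold phi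
  simp [hP]

/-- some multiple `10 ^ j x` is far from the integers -/
lemma exists_far (x : ℝ) (ℓ : ℕ) (hx : 1 ≤ 10 ^ ℓ * dn x) : ∃ s ≤ ℓ, 1 / 20 ≤ dn (10 ^ s * x) := by
  by_contra hcon
  push Not at hcon
  have h1 : ∀ s : ℕ, s ≤ ℓ → dn (10 ^ s * x) = 10 ^ s * dn x := by
    intro s
    induction s with
    | zero => intro _; simp
    | succ s ih =>
      intro hs
      have h2 := ih (by omega)
      have h3 := hcon s (by omega)
      have h4 := dn_mul_eq 10 (10 ^ s * x) (by push_cast; linarith)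
      push_cast at h4
      have e : (10 : ℝ) ^ (s + 1) * x = 10 * (10 ^ s * x) := by ring
      rw [e, h4, h2]
      ring
  have h2 := h1 ℓ le_rfl
  have h3 := hcon ℓ le_rfl
  linarith

/-- a window with at most `G` prescribed places gives a saving -/
lemma window_saving (G ℓ : ℕ) (P : ℕ → Prop) (x : ℝ) (hP : np (G + ℓ + 1) P ≤ G)
    (hx : 1 ≤ 10 ^ ℓ * dn (10 ^ G * x)) : phi (G + ℓ + 1) P x ≤ 1 - 1 / (200 * 10 ^ (2 * G)) := by
  classical
  obtain ⟨s, hs, hfar⟩ := exists_far (10 ^ G * x) ℓ hx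
  have e1 : (10 : ℝ) ^ s * (10 ^ G * x) = 10 ^ (G + s) * x := by rw [pow_add]; ring
  rw [e1] at hfar
  obtain ⟨m, hm, hmP⟩ : ∃ m ≤ G, ¬ P (G + s - m) := by
    by_contra hcon
    push Not at hcon
    have h1 : (Icc s (G + s)) ⊆ (range (G + ℓ + 1)).filter (fun i => P i) := by
      intro i hi
      rw [mem_Icc] at hi
      rw [mem_filter, mem_range]
      refine ⟨by omega, ?_⟩
      have := hcon (G + s - i) (by omega)
      rwa [show G + s - (G + s - i) = i by omega] at this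
    have h2 := card_le_card h1
    rw [Nat.card_Icc] at h2
    have h3 : np (G + ℓ + 1) P = ((range (G + ℓ + 1)).filter (fun i => P i)).card := rfl
    omega
  have h1 := phi_le_single (G + ℓ + 1) (G + s - m) P x (by omega) hmP
  have h2 := g_le (10 ^ (G + s - m) * x)
  have h3 : 1 / 20 ≤ 10 ^ G * dn (10 ^ (G + s - m) * x) := by
    have h4 := dn_mul_le (10 ^ m) (10 ^ (G + s - m) * x)
    push_cast at h4
    have e2 : (10 : ℝ) ^ m * (10 ^ (G + s - m) * x) = 10 ^ (G + s) * x := by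
      rw [← mul_assoc, ← pow_add]
      congr 2
      omega
    rw [e2] at h4
    have h5 : (10 : ℝ) ^ m ≤ 10 ^ G := pow_le_pow_right₀ (by norm_num) hm
    calc (1 : ℝ) / 20 ≤ 10 ^ m * dn (10 ^ (G + s - m) * x) := hfar.trans h4
      _ ≤ _ := mul_le_mul_of_nonneg_right h5 (dn_nonneg _)
  have h4 : 1 / (20 * 10 ^ G) ≤ dn (10 ^ (G + s - m) * x) := by
    rw [div_le_iff₀ (by positivity)]
    linarith
  have h5 : (1 / (20 * 10 ^ G)) ^ 2 ≤ dn (10 ^ (G + s - m) * x) ^ 2 := pow_le_pow_left₀ (by positivity) h4 2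
  have h6 : (1 / (20 * (10 : ℝ) ^ G)) ^ 2 = 1 / (400 * 10 ^ (2 * G)) := by
    rw [div_pow, mul_pow, ← pow_mul, mul_comm G 2]
    norm_num
  rw [h6] at h5
  have h7 : 2 * (1 / (400 * (10 : ℝ) ^ (2 * G))) = 1 / (200 * 10 ^ (2 * G)) := by
    field_simp
    norm_num
  linarith

open Classical in
/-- many windows -/
lemma windows_saving (G ℓ J : ℕ) (P : ℕ → Prop) (x : ℝ) (hx : ∀ u : ℕ, 1 ≤ 10 ^ ℓ * dn (10 ^ u * x)) :
    ∃ n : ℕ, n ≤ J ∧ (G + 1) * (J - n) ≤ np (J * (G + ℓ + 1)) P ∧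
      phi (J * (G + ℓ + 1)) P x ≤ (1 - 1 / (200 * 10 ^ (2 * G))) ^ n := by
  induction J with
  | zero =>
    refine ⟨0, le_rfl, by simp, ?_⟩
    rw [pow_zero]
    exact phi_le_one _ _ _
  | succ J ih =>
    obtain ⟨n, hn1, hn2, hn3⟩ := ih
    have hρ : (0 : ℝ) ≤ 1 - 1 / (200 * 10 ^ (2 * G)) := by
      rw [sub_nonneg, div_le_one (by positivity)]
      have : (1 : ℝ) ≤ 10 ^ (2 * G) := one_le_pow₀ (by norm_num)
      linarith
    have e : (J + 1) * (G + ℓ + 1) = J * (G + ℓ + 1) + (G + ℓ + 1) := by ring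
    rw [e, phi_add, np_add]
    by_cases h : np (G + ℓ + 1) (fun i => P (J * (G + ℓ + 1) + i)) ≤ G
    · refine ⟨n + 1, by omega, ?_, ?_⟩
      · have : J + 1 - (n + 1) = J - n := by omega
        rw [this]
        omega
      · rw [pow_succ]
        apply mul_le_mul hn3 _ (phi_nonneg _ _ _) (by positivity)
        apply window_saving G ℓ _ _ h
        have h2 := hx (G + J * (G + ℓ + 1))
        have e2 : (10 : ℝ) ^ G * (10 ^ (J * (G + ℓ + 1)) * x) = 10 ^ (G + J * (G + ℓ + 1)) * x := by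
          rw [pow_add 10 G]
          ring
        rw [e2]
        exact h2
    · push Not at h
      refine ⟨n, by omega, ?_, ?_⟩
      · have : J + 1 - n = (J - n) + 1 := by omega
        rw [this, Nat.mul_succ]
        omega
      · calc phi (J * (G + ℓ + 1)) P x * phi (G + ℓ + 1) (fun i => P (J * (G + ℓ + 1) + i))
              (10 ^ (J * (G + ℓ + 1)) * x) ≤ (1 - 1 / (200 * 10 ^ (2 * G))) ^ n * 1 :=
              mul_le_mul hn3 (phi_le_one _ _ _) (phi_nonneg _ _ _) (by positivity)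
          _ = _ := mul_one _

lemma dn_frac {h e ℓ : ℕ} (he1 : 1 < e) (hc : h.Coprime e) (h10 : e.Coprime 10) (hℓ : e ≤ 10 ^ ℓ) (u : ℕ) :
    1 ≤ 10 ^ ℓ * dn (10 ^ u * ((h : ℝ) / e)) := by
  have he0 : (0 : ℝ) < e := by exact_mod_cast (show 0 < e by omega)
  have h1 := le_dn_of_not_dvd (c := ((10 ^ u * h : ℕ) : ℤ)) (q := e) (by omega) (by
    rw [Int.natCast_dvd_natCast]
    intro h2
    have h3 : e ∣ h := (Nat.Coprime.dvd_mul_left (Nat.Coprime.pow_right u h10)).1 h2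
    have h4 := Nat.Coprime.eq_one_of_dvd hc.symm h3
    omega)
  have e1 : (((10 ^ u * h : ℕ) : ℤ) : ℝ) / e = 10 ^ u * ((h : ℝ) / e) := by
    push_cast
    ring
  rw [e1] at h1
  have h2 : (e : ℝ) ≤ 10 ^ ℓ := by exact_mod_cast hℓ
  calc (1 : ℝ) = e * (1 / e) := by field_simp
    _ ≤ 10 ^ ℓ * dn (10 ^ u * ((h : ℝ) / e)) := mul_le_mul h2 h1 (by positivity) (by positivity)

/-- the saving for small denominators -/
theorem small_pt {N G ℓ h e : ℕ} {P : ℕ → Prop} (he1 : 1 < e) (hc : h.Coprime e) (h10 : e.Coprime 10)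
    (hℓ : e ≤ 10 ^ ℓ) : ∃ n : ℕ, n ≤ N / (G + ℓ + 1) ∧ (G + 1) * (N / (G + ℓ + 1) - n) ≤ np N P ∧
      phi N P ((h : ℝ) / e) ≤ Real.exp (-((n : ℝ) / (200 * 10 ^ (2 * G)))) := by
  obtain ⟨n, h1, h2, h3⟩ := windows_saving G ℓ (N / (G + ℓ + 1)) P ((h : ℝ) / e)
    (dn_frac he1 hc h10 hℓ)
  refine ⟨n, h1, ?_, ?_⟩
  · refine h2.trans ?_
    obtain ⟨w, hw⟩ := Nat.exists_eq_add_of_le (Nat.div_mul_le_self N (G + ℓ + 1))
    conv_rhs => rw [hw, np_add]
    omega
  · have h4 : phi N P ((h : ℝ) / e) ≤ phi (N / (G + ℓ + 1) * (G + ℓ + 1)) P ((h : ℝ) / e) := by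
      have := phi_le_window N 0 (N / (G + ℓ + 1) * (G + ℓ + 1)) P ((h : ℝ) / e) (by
        rw [zero_add]
        exact Nat.div_mul_le_self _ _)
      simpa using this
    refine h4.trans (h3.trans ?_)
    have hρ : (0 : ℝ) ≤ 1 - 1 / (200 * 10 ^ (2 * G)) := by
      rw [sub_nonneg, div_le_one (by positivity)]
      have : (1 : ℝ) ≤ 10 ^ (2 * G) := one_le_pow₀ (by norm_num)
      linarith
    have h5 := Real.one_sub_le_exp_neg (1 / (200 * (10 : ℝ) ^ (2 * G)))
    calc (1 - 1 / (200 * (10 : ℝ) ^ (2 * G))) ^ n ≤ Real.exp (-(1 / (200 * 10 ^ (2 * G)))) ^ n :=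
          pow_le_pow_left₀ hρ h5 n
      _ = _ := by
          rw [← Real.exp_nat_mul]
          congr 1
          ring

end Pool.Agent.L5helper11.MD
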