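import Pool.Agent.L5helper11.MD.Rng

/-!
# The total of the exponential sums
-/

set_option autoImplicit false

namespace Pool.Agent.L5helper11.MD

open Finset Pool.Agent.Helper112 Filter

lemma geom_half (J : ℕ) (E0 : ℕ) (hE0 : 1 ≤ E0) :
    ∑ j ∈ range J, ((2 ^ j * E0 : ℕ) : ℝ) ^ (-(5895 / 10000) : ℝ) ≤ 4 * (E0 : ℝ) ^ (-(5895 / 10000) : ℝ) := by
  have hE : (0 : ℝ) < E0 := by exact_mod_cast hE0
  set r : ℝ := (2 : ℝ) ^ (-(5895 / 10000) : ℝ) with hr
  have hr0 : 0 < r := by rw [hr]; positivity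
  have hr1 : r ≤ 3 / 4 := by
    have h1 : r ≤ (2 : ℝ) ^ (-(1 / 2) : ℝ) :=
      Real.rpow_le_rpow_of_exponent_le (by norm_num) (by norm_num)
    have h2 : (2 : ℝ) ^ (-(1 / 2) : ℝ) = 1 / Real.sqrt 2 := by
      rw [Real.rpow_neg (by norm_num), ← Real.sqrt_eq_rpow, one_div]
    have h3 : (4 / 3 : ℝ) ≤ Real.sqrt 2 := by
      apply Real.le_sqrt_of_sq_le
      norm_num
    rw [h2] at h1
    refine h1.trans ?_
    rw [div_le_iff₀ (by linarith)]
    linarith
  have h1 : ∀ j ∈ range J, ((2 ^ j * E0 : ℕ) : ℝ) ^ (-(5895 / 10000) : ℝ) = r ^ j * (E0 : ℝ) ^ (-(5895 / 10000) : ℝ) := by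
    intro j _
    push_cast
    rw [Real.mul_rpow (by positivity) hE.le, hr, ← Real.rpow_natCast 2 j, ← Real.rpow_natCast _ j,
      ← Real.rpow_mul (by norm_num), ← Real.rpow_mul (by norm_num)]
    congr 2
    ring
  rw [sum_congr rfl h1, ← sum_mul]
  apply mul_le_mul_of_nonneg_right _ (by positivity)
  have h2 : (∑ j ∈ range J, r ^ j) * (1 - r) ≤ 1 := by
    rw [geom_sum_mul_neg]
    have : 0 ≤ r ^ J := by positivity
    linarith
  have h3 : 0 ≤ ∑ j ∈ range J, r ^ j := sum_nonneg fun _ _ => by positivity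
  nlinarith

theorem total : ∀ᶠ N : ℕ in atTop, ∀ P : ℕ → Prop, 12 * np N P ≤ N + 12 → ∀ D : ℕ,
    (D : ℝ) ≤ (10 : ℝ) ^ ((157 / 200 : ℝ) * N) →
    ∑ e ∈ (Icc 2 D).filter (fun e => e.Coprime 10), (e : ℝ) ^ (-(999 / 1000) : ℝ) * SS N P e ≤
      (N : ℝ) ^ (-(3004 / 1000) : ℝ) := by
  have ev1 : ∀ᶠ N : ℕ in atTop, (200000000 : ℝ) ≤ (N : ℝ) ^ (2 / 1000 : ℝ) :=
    ((tendsto_rpow_atTop (by norm_num)).comp tendsto_natCast_atTop_atTop).eventually_ge_atTop _
  have ev2 : ∀ᶠ N : ℕ in atTop, (N : ℝ) ^ (4006 / 1000 : ℝ) * (10 : ℝ) ^ (-(N : ℝ) / 5000) ≤ 1 := by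
    have h1 := tendsto_rpow_mul_exp_neg_mul_atTop_nhds_zero (4006 / 1000) (Real.log 10 / 5000)
      (div_pos (Real.log_pos (by norm_num)) (by norm_num))
    have h2 := (h1.comp tendsto_natCast_atTop_atTop).eventually_le_const (show (0 : ℝ) < 1 by norm_num)
    filter_upwards [h2] with N hN
    simp only [Function.comp] at hN
    have e : (10 : ℝ) ^ (-(N : ℝ) / 5000) = Real.exp (-(Real.log 10 / 5000) * N) := by
      rw [Real.rpow_def_of_pos (by norm_num)]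
      congr 1
      ring
    rw [e]
    exact hN
  filter_upwards [small_range, ev1, ev2, eventually_ge_atTop 10] with N hsm hN1 hN2 hN10 P hP D hD
  have hNr : (10 : ℝ) ≤ N := by exact_mod_cast hN10
  have hN0 : (0 : ℝ) < N := by linarith
  have hN1r : (1 : ℝ) ≤ N := by linarith
  set f : ℕ → ℝ := fun e => if e.Coprime 10 then SS N P e else 0 with hf
  have hf0 : ∀ e, 0 ≤ f e := by
    intro e
    rw [hf]
    simp only
    split_ifs
    · exact SS_nonneg _ _ _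
    · exact le_rfl
  set E0 : ℕ := ⌊(N : ℝ) ^ (51 / 10 : ℝ)⌋₊ with hE0
  have hp51 : (1 : ℝ) ≤ (N : ℝ) ^ (51 / 10 : ℝ) := Real.one_le_rpow hN1r (by norm_num)
  have hE1 : 1 ≤ E0 := by
    rw [hE0]
    exact Nat.le_floor (by push_cast; exact hp51)
  have hE2 : (E0 : ℝ) ≤ (N : ℝ) ^ (51 / 10 : ℝ) := Nat.floor_le (by positivity)
  have hE3 : (N : ℝ) ^ (51 / 10 : ℝ) / 2 ≤ E0 := by
    have h1 := Nat.lt_floor_add_one ((N : ℝ) ^ (51 / 10 : ℝ))
    rw [← hE0] at h1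
    have h2 : (1 : ℝ) ≤ E0 := by exact_mod_cast hE1
    linarith
  -- the number of blocks
  have hex : ∃ j, D ≤ 2 ^ j * E0 := ⟨D, by
    calc D ≤ 2 ^ D := Nat.lt_two_pow_self.le
      _ ≤ 2 ^ D * E0 := Nat.le_mul_of_pos_right _ hE1⟩
  obtain ⟨J, hJ1, hJ2, hJ3⟩ : ∃ J, D ≤ 2 ^ J * E0 ∧ (∀ j < J, 2 ^ j * E0 < D) ∧ J ≤ 4 * N := by
    refine ⟨Nat.find hex, Nat.find_spec hex, fun j hj => not_le.1 (Nat.find_min hex hj), ?_⟩
    apply Nat.find_min'
    have h1 : (D : ℝ) ≤ (10 : ℝ) ^ N := by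
      refine hD.trans ?_
      rw [← Real.rpow_natCast]
      apply Real.rpow_le_rpow_of_exponent_le (by norm_num)
      linarith
    have h2 : D ≤ 10 ^ N := by exact_mod_cast h1
    calc D ≤ 10 ^ N := h2
      _ ≤ 16 ^ N := Nat.pow_le_pow_left (by norm_num) N
      _ = 2 ^ (4 * N) := by
          rw [pow_mul]
          norm_num
      _ ≤ 2 ^ (4 * N) * E0 := Nat.le_mul_of_pos_right _ hE1
  -- the small denominators
  have hsmall : ∑ e ∈ (Icc 2 E0).filter (fun e => e.Coprime 10), (e : ℝ) ^ (-(999 / 1000) : ℝ) * SS N P e ≤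
      (N : ℝ) ^ (-(3006 / 1000) : ℝ) := by
    have h1 : ∀ e ∈ (Icc 2 E0).filter (fun e => e.Coprime 10), (e : ℝ) ^ (-(999 / 1000) : ℝ) * SS N P e ≤
        (N : ℝ) ^ (51 / 10 : ℝ) * (N : ℝ) ^ (-20 : ℝ) := by
      intro e he
      rw [mem_filter, mem_Icc] at he
      obtain ⟨⟨he2, heE⟩, he10⟩ := he
      have heN : (e : ℝ) ≤ (N : ℝ) ^ (51 / 10 : ℝ) := (show (e : ℝ) ≤ E0 by exact_mod_cast heE).trans hE2
      have h2 : SS N P e ≤ e * (N : ℝ) ^ (-20 : ℝ) := by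
        unfold SS
        calc ∑ h ∈ (range e).filter (fun h => h.Coprime e), phi N P ((h : ℝ) / e) ≤
            ∑ h ∈ (range e).filter (fun h => h.Coprime e), (N : ℝ) ^ (-20 : ℝ) := by
              apply sum_le_sum
              intro h hh
              exact hsm P hP e (by omega) heN he10 h (mem_filter.1 hh).2
          _ = (((range e).filter (fun h => h.Coprime e)).card : ℝ) * (N : ℝ) ^ (-20 : ℝ) := by
              rw [sum_const, nsmul_eq_mul]
          _ ≤ _ := by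
              apply mul_le_mul_of_nonneg_right _ (by positivity)
              have : ((range e).filter (fun h => h.Coprime e)).card ≤ e := by
                have := card_filter_le (range e) (fun h => h.Coprime e)
                rwa [card_range] at this
              exact_mod_cast this
      have h3 : (e : ℝ) ^ (-(999 / 1000) : ℝ) ≤ 1 := by
        apply Real.rpow_le_one_of_one_le_of_nonpos
        · exact_mod_cast (show 1 ≤ e by omega)
        · norm_num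
      calc (e : ℝ) ^ (-(999 / 1000) : ℝ) * SS N P e ≤ 1 * (e * (N : ℝ) ^ (-20 : ℝ)) :=
            mul_le_mul h3 h2 (SS_nonneg _ _ _) (by norm_num)
        _ ≤ _ := by
            rw [one_mul]
            exact mul_le_mul_of_nonneg_right heN (by positivity)
    calc _ ≤ ∑ e ∈ (Icc 2 E0).filter (fun e => e.Coprime 10), (N : ℝ) ^ (51 / 10 : ℝ) * (N : ℝ) ^ (-20 : ℝ) :=
          sum_le_sum h1
      _ = (((Icc 2 E0).filter (fun e => e.Coprime 10)).card : ℝ) * ((N : ℝ) ^ (51 / 10 : ℝ) * (N : ℝ) ^ (-20 : ℝ)) := by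
          rw [sum_const, nsmul_eq_mul]
      _ ≤ (N : ℝ) ^ (51 / 10 : ℝ) * ((N : ℝ) ^ (51 / 10 : ℝ) * (N : ℝ) ^ (-20 : ℝ)) := by
          apply mul_le_mul_of_nonneg_right _ (by positivity)
          have h2 : ((Icc 2 E0).filter (fun e => e.Coprime 10)).card ≤ E0 := by
            refine (card_filter_le _ _).trans ?_
            rw [Nat.card_Icc]
            omega
          exact (show ((((Icc 2 E0).filter (fun e => e.Coprime 10)).card : ℕ) : ℝ) ≤ E0 by exact_mod_cast h2).trans hE2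
      _ = (N : ℝ) ^ (-98 / 10 : ℝ) := by
          rw [← Real.rpow_add hN0, ← Real.rpow_add hN0]
          norm_num
      _ ≤ _ := Real.rpow_le_rpow_of_exponent_le hN1r (by norm_num)
  -- the large denominators
  have hlarge : ∑ e ∈ Ioc E0 (2 ^ J * E0), (e : ℝ) ^ (-(999 / 1000) : ℝ) * f e ≤
      86400000 * (N : ℝ) ^ (-(3006 / 1000) : ℝ) + 43200000 * (N * (10 : ℝ) ^ (-(N : ℝ) / 5000)) := by
    refine (dyadic f hf0 E0 hE1 J).trans ?_
    have h1 : ∀ j ∈ range J, ((2 ^ j * E0 : ℕ) : ℝ) ^ (-(999 / 1000) : ℝ) * ∑ e ∈ Icc 1 (2 * (2 ^ j * E0)), f e ≤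
        10800000 * (((2 ^ j * E0 : ℕ) : ℝ) ^ (-(5895 / 10000) : ℝ) + (10 : ℝ) ^ (-(N : ℝ) / 5000)) := by
      intro j hj
      have h2 := hJ2 j (mem_range.1 hj)
      have h3 : ((2 ^ j * E0 : ℕ) : ℝ) ≤ (10 : ℝ) ^ ((157 / 200 : ℝ) * N) :=
        (show ((2 ^ j * E0 : ℕ) : ℝ) ≤ D by exact_mod_cast h2.le).trans hD
      have h4 := block N (2 ^ j * E0) P (Nat.mul_pos (by positivity) hE1) hP h3
      have h5 : ∑ e ∈ Icc 1 (2 * (2 ^ j * E0)), f e = FS N P (2 * (2 ^ j * E0)) := by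
        unfold FS
        rw [sum_filter]
      rw [h5]
      exact h4
    refine (sum_le_sum h1).trans ?_
    rw [← mul_sum, sum_add_distrib, sum_const, card_range, nsmul_eq_mul]
    have h2 := geom_half J E0 hE1
    have h3 : (E0 : ℝ) ^ (-(5895 / 10000) : ℝ) ≤ 2 * (N : ℝ) ^ (-(3006 / 1000) : ℝ) := by
      calc (E0 : ℝ) ^ (-(5895 / 10000) : ℝ) ≤ ((N : ℝ) ^ (51 / 10 : ℝ) / 2) ^ (-(5895 / 10000) : ℝ) :=
            Real.rpow_le_rpow_of_nonpos (by positivity) hE3 (by norm_num)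
        _ = (N : ℝ) ^ (51 / 10 * (-(5895 / 10000)) : ℝ) * (1 / 2 : ℝ) ^ (-(5895 / 10000) : ℝ) := by
            rw [div_eq_mul_one_div, Real.mul_rpow (by positivity) (by norm_num), ← Real.rpow_mul hN0.le]
        _ ≤ (N : ℝ) ^ (-(3006 / 1000) : ℝ) * 2 := by
            apply mul_le_mul
            · exact Real.rpow_le_rpow_of_exponent_le hN1r (by norm_num)
            · rw [one_div, Real.inv_rpow (by norm_num), Real.rpow_neg (by norm_num), inv_inv]
              calc (2 : ℝ) ^ (5895 / 10000 : ℝ) ≤ (2 : ℝ) ^ (1 : ℝ) :=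
                    Real.rpow_le_rpow_of_exponent_le (by norm_num) (by norm_num)
                _ = 2 := Real.rpow_one _
            · positivity
            · positivity
        _ = _ := mul_comm _ _
    have h4 : (J : ℝ) ≤ 4 * N := by exact_mod_cast hJ3
    have h5 : 0 < (10 : ℝ) ^ (-(N : ℝ) / 5000) := by positivity
    have h6 : (J : ℝ) * (10 : ℝ) ^ (-(N : ℝ) / 5000) ≤ 4 * N * (10 : ℝ) ^ (-(N : ℝ) / 5000) :=
      mul_le_mul_of_nonneg_right h4 h5.le
    linarith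
  -- together
  have hsub : ∑ e ∈ (Icc 2 D).filter (fun e => e.Coprime 10), (e : ℝ) ^ (-(999 / 1000) : ℝ) * SS N P e ≤
      ∑ e ∈ (Icc 2 E0).filter (fun e => e.Coprime 10), (e : ℝ) ^ (-(999 / 1000) : ℝ) * SS N P e +
      ∑ e ∈ Ioc E0 (2 ^ J * E0), (e : ℝ) ^ (-(999 / 1000) : ℝ) * f e := by
    have h1 : ∑ e ∈ Ioc E0 (2 ^ J * E0), (e : ℝ) ^ (-(999 / 1000) : ℝ) * f e =
        ∑ e ∈ (Ioc E0 (2 ^ J * E0)).filter (fun e => e.Coprime 10), (e : ℝ) ^ (-(999 / 1000) : ℝ) * SS N P e := by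
      rw [sum_filter]
      apply sum_congr rfl
      intro e _
      rw [hf]
      simp only
      split_ifs
      · rfl
      · rw [mul_zero]
    rw [h1, ← sum_union]
    · apply sum_le_sum_of_subset_of_nonneg
      · intro e he
        rw [mem_filter, mem_Icc] at he
        rw [mem_union, mem_filter, mem_filter, mem_Icc, mem_Ioc]
        by_cases h2 : e ≤ E0
        · exact Or.inl ⟨⟨he.1.1, h2⟩, he.2⟩
        · exact Or.inr ⟨⟨by omega, he.1.2.trans hJ1⟩, he.2⟩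
      · intro e _ _
        exact mul_nonneg (by positivity) (SS_nonneg _ _ _)
    · rw [Finset.disjoint_left]
      intro e he he2
      rw [mem_filter, mem_Icc] at he
      rw [mem_filter, mem_Ioc] at he2
      omega
  refine hsub.trans ((add_le_add hsmall hlarge).trans ?_)
  have h1 : N * (10 : ℝ) ^ (-(N : ℝ) / 5000) ≤ (N : ℝ) ^ (-(3006 / 1000) : ℝ) := by
    have e1 : (N : ℝ) ^ (-(3006 / 1000) : ℝ) * ((N : ℝ) ^ (4006 / 1000 : ℝ)) = N := by
      rw [← Real.rpow_add hN0]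
      norm_num
    have h2 : (0 : ℝ) < (N : ℝ) ^ (-(3006 / 1000) : ℝ) := by positivity
    calc N * (10 : ℝ) ^ (-(N : ℝ) / 5000) =
        (N : ℝ) ^ (-(3006 / 1000) : ℝ) * ((N : ℝ) ^ (4006 / 1000 : ℝ) * (10 : ℝ) ^ (-(N : ℝ) / 5000)) := by
          rw [← mul_assoc, e1]
      _ ≤ (N : ℝ) ^ (-(3006 / 1000) : ℝ) * 1 := mul_le_mul_of_nonneg_left hN2 h2.le
      _ = _ := mul_one _
  have h2 : (0 : ℝ) < (N : ℝ) ^ (-(3006 / 1000) : ℝ) := by positivity
  calc (N : ℝ) ^ (-(3006 / 1000) : ℝ) + (86400000 * (N : ℝ) ^ (-(3006 / 1000) : ℝ) +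
      43200000 * (N * (10 : ℝ) ^ (-(N : ℝ) / 5000))) ≤ 200000000 * (N : ℝ) ^ (-(3006 / 1000) : ℝ) := by linarith
    _ ≤ (N : ℝ) ^ (2 / 1000 : ℝ) * (N : ℝ) ^ (-(3006 / 1000) : ℝ) := mul_le_mul_of_nonneg_right hN1 h2.le
    _ = (N : ℝ) ^ (-(3004 / 1000) : ℝ) := by
        rw [← Real.rpow_add hN0]
        norm_num

end Pool.Agent.L5helper11.MD
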