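import Pool.Agent.L5helper11.MD.Far

/-!
# Windows
-/

set_option autoImplicit false

namespace Pool.Agent.L5helper11.MD

open Finset Pool.Agent.Helper112

/-- the sum over the reduced fractions with denominator `e` -/
noncomputable def SS (N : ℕ) (P : ℕ → Prop) (e : ℕ) : ℝ :=
  ∑ h ∈ (range e).filter (fun h => h.Coprime e), phi N P ((h : ℝ) / e)

lemma SS_nonneg (N : ℕ) (P : ℕ → Prop) (e : ℕ) : 0 ≤ SS N P e := sum_nonneg fun _ _ => phi_nonneg _ _ _

lemma np_le (N : ℕ) (P : ℕ → Prop) : np N P ≤ N := by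
  have := np_add_fr N P
  omega

/-- some window of length `k` has at most the average number of prescribed places -/
lemma exists_window (N k : ℕ) (P : ℕ → Prop) (hk : 1 ≤ k) (hkN : k ≤ N) :
    ∃ u, u + k ≤ N ∧ np k (fun i => P (u + i)) * (N / k) ≤ np N P := by
  by_contra hcon
  push Not at hcon
  have h1 : ∀ j : ℕ, j ≤ N / k → ∑ i ∈ range j, np k (fun l => P (k * i + l)) = np (k * j) P := by
    intro j
    induction j with
    | zero => intro _; simp [np]
    | succ j ih =>
      intro hj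
      rw [sum_range_succ, ih (by omega), Nat.mul_succ, np_add]
  have hq : 0 < N / k := Nat.div_pos hkN hk
  have h2 := h1 (N / k) le_rfl
  have h3 : np (k * (N / k)) P ≤ np N P := by
    obtain ⟨w, hw⟩ := Nat.exists_eq_add_of_le (Nat.mul_div_le N k)
    conv_rhs => rw [hw, np_add]
    omega
  have h4 : ∀ i ∈ range (N / k), np N P < np k (fun l => P (k * i + l)) * (N / k) := by
    intro i hi
    rw [mem_range] at hi
    apply hcon
    have : k * (i + 1) ≤ k * (N / k) := Nat.mul_le_mul_left _ hi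
    have := Nat.mul_div_le N k
    have e : k * (i + 1) = k * i + k := by ring
    omega
  have h5 : (N / k) * np N P < (∑ i ∈ range (N / k), np k (fun l => P (k * i + l))) * (N / k) := by
    rw [sum_mul]
    calc (N / k) * np N P = ∑ i ∈ range (N / k), np N P := by simp
      _ < _ := sum_lt_sum_of_nonempty (by rw [nonempty_range_iff]; omega) h4
  rw [h2, mul_comm (np _ P)] at h5
  have := Nat.mul_le_mul_left (N / k) h3
  omega

/-- multiplication by `10 ^ u` permutes the reduced fractions -/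
lemma SS_shift (k u : ℕ) (P : ℕ → Prop) (e : ℕ) (he : 0 < e) (h10 : e.Coprime 10) :
    ∑ h ∈ (range e).filter (fun h => h.Coprime e), phi k P (10 ^ u * ((h : ℝ) / e)) = SS k P e := by
  have he0 : (0 : ℝ) < e := by exact_mod_cast he
  have hc : (10 ^ u).Coprime e := Nat.Coprime.pow_left u h10.symm
  set R := (range e).filter (fun h => h.Coprime e) with hR
  have hval : ∀ h ∈ R, phi k P (10 ^ u * ((h : ℝ) / e)) = phi k P (((10 ^ u * h % e : ℕ) : ℝ) / e) := by
    intro h _
    have h0 := (Nat.mod_add_div (10 ^ u * h) e).symm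
    obtain ⟨q, hq⟩ : ∃ q, q = 10 ^ u * h / e := ⟨_, rfl⟩
    obtain ⟨r, hr⟩ : ∃ r, r = 10 ^ u * h % e := ⟨_, rfl⟩
    rw [← hq, ← hr] at h0
    rw [← hr]
    have h1 : (10 : ℝ) ^ u * h = (r : ℝ) + e * (q : ℝ) := by exact_mod_cast h0
    have h2 : 10 ^ u * ((h : ℝ) / e) = (r : ℝ) / e + ((q : ℤ) : ℝ) := by
      push_cast
      rw [mul_div_assoc', h1]
      field_simp
    rw [h2, phi_add_int]
  have hmap : ∀ h ∈ R, 10 ^ u * h % e ∈ R := by
    intro h hh
    rw [hR, mem_filter, mem_range] at hh ⊢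
    refine ⟨Nat.mod_lt _ he, ?_⟩
    have h1 : (10 ^ u * h).Coprime e := Nat.Coprime.mul_left hc hh.2
    have h2 : Nat.gcd (10 ^ u * h % e) e = Nat.gcd e (10 ^ u * h) := (Nat.gcd_rec e (10 ^ u * h)).symm
    exact h2.trans h1.symm
  have hinj : Set.InjOn (fun h => 10 ^ u * h % e) R := by
    intro a ha b hb hab
    rw [mem_coe, hR, mem_filter, mem_range] at ha hb
    have h1 : 10 ^ u * a ≡ 10 ^ u * b [MOD e] := hab
    have h2 : a ≡ b [MOD e] := Nat.ModEq.cancel_left_of_coprime hc.symm h1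
    exact Nat.ModEq.eq_of_lt_of_lt h2 ha.1 hb.1
  have himg : R.image (fun h => 10 ^ u * h % e) = R := by
    apply eq_of_subset_of_card_le
    · intro x hx
      rw [mem_image] at hx
      obtain ⟨h, hh, rfl⟩ := hx
      exact hmap h hh
    · rw [card_image_of_injOn hinj]
  rw [sum_congr rfl hval]
  unfold SS
  rw [← hR]
  conv_rhs => rw [← himg]
  rw [sum_image hinj]

/-- the sum over all reduced fractions with denominators at most `E`, prime to `10` -/
theorem SE {A β : ℝ} (hA : ∀ m : ℕ, 3 + m * Real.log 10 ≤ A * β ^ m) (N k : ℕ) (P : ℕ → Prop) (hk : 1 ≤ k)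
    (hkN : k ≤ N) (E : ℕ) : ∃ n ≤ k, n * (N / k) ≤ np N P ∧
    ∑ e ∈ (Icc 1 E).filter (fun e => e.Coprime 10), SS N P e ≤
      ((E : ℝ) ^ 2 / 10 ^ k + 2) * ((10 * A) ^ n * A * β ^ (k - n)) := by
  obtain ⟨u, hu, hn⟩ := exists_window N k P hk hkN
  refine ⟨np k (fun i => P (u + i)), np_le _ _, hn, ?_⟩
  have hfr : fr k (fun i => P (u + i)) = k - np k (fun i => P (u + i)) := by
    have := np_add_fr k (fun i => P (u + i))
    omega
  rw [← hfr]
  refine le_trans ?_ (farey hA k (fun i => P (u + i)) E)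
  unfold SF
  rw [sum_sigma]
  calc ∑ e ∈ (Icc 1 E).filter (fun e => e.Coprime 10), SS N P e ≤
      ∑ e ∈ (Icc 1 E).filter (fun e => e.Coprime 10), SS k (fun i => P (u + i)) e := by
        apply sum_le_sum
        intro e he
        rw [mem_filter, mem_Icc] at he
        rw [← SS_shift k u _ e (by omega) he.2]
        apply sum_le_sum
        intro h _
        exact phi_le_window N u k P _ hu
    _ ≤ ∑ e ∈ Icc 1 E, SS k (fun i => P (u + i)) e :=
        sum_le_sum_of_subset_of_nonneg (filter_subset _ _) (fun _ _ _ => SS_nonneg _ _ _)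
    _ = _ := rfl

end Pool.Agent.L5helper11.MD
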